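import Mathlib

set_option autoImplicit false

namespace Pool.Agent.Lib.MP731498

open scoped ENNReal

/-- The commutator `[x, y] = x y x⁻¹ y⁻¹`. -/
def com {G : Type*} [Group G] (x y : G) : G := x * y * x⁻¹ * y⁻¹

/-- Generators of the fundamental group of the surface `S` of genus `g` with `n` punctures:
`a k`, `b k` are the handle generators and `c j` is a loop around the puncture `j`. -/
inductive Gen (g n : ℕ) : Type
  | a (k : Fin g) : Gen g n
  | b (k : Fin g) : Gen g n
  | c (j : Fin n) : Gen g n

/-- The word `[a_0,b_0] ⋯ [a_{g-1},b_{g-1}] c_0 ⋯ c_{n-1}`. -/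
def relator (g n : ℕ) : FreeGroup (Gen g n) :=
  (List.ofFn fun k : Fin g => com (FreeGroup.of (Gen.a k)) (FreeGroup.of (Gen.b k))).prod *
    (List.ofFn fun j : Fin n => FreeGroup.of (Gen.c j)).prod

/-- The fundamental group of the surface of genus `g` with `n` punctures, standard presentation. -/
abbrev SurfaceGroup (g n : ℕ) : Type := PresentedGroup {relator g n}

/-- The group `SL(2, ℝ)`. -/
abbrev SL2 : Type := Matrix.SpecialLinearGroup (Fin 2) ℝ

/-- The trace of an element of `SL(2, ℝ)`. -/
def tr (M : SL2) : ℝ := Matrix.trace (M : Matrix (Fin 2) (Fin 2) ℝ)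

/-- Handle generator. -/
def ga {g n : ℕ} (k : Fin g) : SurfaceGroup g n := PresentedGroup.of (Gen.a k)

/-- Handle generator. -/
def gb {g n : ℕ} (k : Fin g) : SurfaceGroup g n := PresentedGroup.of (Gen.b k)

/-- Loop around a puncture. -/
def gc {g n : ℕ} (j : Fin n) : SurfaceGroup g n := PresentedGroup.of (Gen.c j)

/-- Holonomies (lifted to `SL(2, ℝ)`) of the marked complete finite area hyperbolic structures on
the surface of genus `g` with `n` punctures: the representations which are faithful into
`PSL(2, ℝ)`, have discrete image and send the loops around the punctures to parabolics. -/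
def Teich (g n : ℕ) : Set (SurfaceGroup g n →* SL2) :=
  {ρ | (∀ x, ρ x = 1 ∨ ρ x = -1 → x = 1) ∧ DiscreteTopology ρ.range ∧
    ∀ j : Fin n, |tr (ρ (gc j))| = 2}

/-- The boundary curve of the subsurface which contains the last `h` handles and the first `l`
punctures. -/
def sep (g n h l : ℕ) : SurfaceGroup g n :=
  (List.ofFn fun k : Fin g => if g ≤ k + h then com (ga k) (gb k) else 1).prod *
    (List.ofFn fun j : Fin n => if (j : ℕ) < l then gc j else 1).prod

/-- Standard essential simple closed curves: the nonseparating curves `a k`, and the essential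
separating curves `sep g n h l` (neither side is a disc or a once-punctured disc). Up to
homeomorphism of the surface every essential simple closed curve is one of them. -/
def Standard (g n : ℕ) : Set (SurfaceGroup g n) :=
  {w | (∃ k, w = ga k) ∨
    ∃ h l, h ≤ g ∧ l ≤ n ∧ (h = 0 → 2 ≤ l) ∧ (h = g → l + 2 ≤ n) ∧ w = sep g n h l}

/-- Essential simple closed curves: images of the standard ones under the automorphisms that
preserve the peripheral structure (these are induced by the homeomorphisms of the surface). -/
def Simple (g n : ℕ) : Set (SurfaceGroup g n) :=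
  {w | ∃ φ : MulAut (SurfaceGroup g n),
    (∀ j : Fin n, ∃ j' : Fin n, IsConj (φ (gc j)) (gc j') ∨ IsConj (φ (gc j)) (gc j')⁻¹) ∧
    ∃ s ∈ Standard g n, w = φ s}

/-- The length of the closed geodesic in the free homotopy class of `w`, that is the translation
length of `ρ w` on the hyperbolic plane. -/
noncomputable def len {G : Type*} [Group G] (ρ : G →* SL2) (w : G) : ℝ :=
  2 * Real.arcosh (max 1 (|tr (ρ w)| / 2))

/-- The length spectrum metric: `log sup_w max (ℓ_Y(w)/ℓ_X(w), ℓ_X(w)/ℓ_Y(w))` over essential
simple closed curves `w`. -/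
noncomputable def dL {g n : ℕ} (X Y : SurfaceGroup g n →* SL2) : ℝ≥0∞ :=
  ⨆ w ∈ Simple g n, ENNReal.ofReal (Real.log (max (len Y w / len X w) (len X w / len Y w)))

/-- A continuous path in Teichmüller space (a path of holonomies, pointwise continuous). -/
def IsPath {g n : ℕ} (c : unitInterval → (SurfaceGroup g n →* SL2)) : Prop :=
  (∀ s, c s ∈ Teich g n) ∧ ∀ w, Continuous fun s => c s w

/-- `Y` is joined to `X` by a path in Teichmüller space. -/
def JoinedBy {g n : ℕ} (X Y : SurfaceGroup g n →* SL2) : Prop :=
  ∃ c : unitInterval → (SurfaceGroup g n →* SL2), IsPath c ∧ c 0 = X ∧ c 1 = Y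

end Pool.Agent.Lib.MP731498
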