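import Mathlib
import Pool.Agent.Lib.MP731498.Defs

set_option autoImplicit false

namespace Pool.Agent.Lib.MP731498

open Matrix

/-- 2 by 2 real matrices -/
abbrev M2 : Type := Matrix (Fin 2) (Fin 2) ℝ

/-- squared Frobenius norm -/
def S (M : M2) : ℝ := M 0 0 ^ 2 + M 0 1 ^ 2 + M 1 0 ^ 2 + M 1 1 ^ 2

theorem S_nonneg (M : M2) : 0 ≤ S M := by unfold S; positivity

theorem S_mul_le (M N : M2) : S (M * N) ≤ S M * S N := by
  simp only [S, Matrix.mul_apply, Fin.sum_univ_two]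
  nlinarith [sq_nonneg (M 0 0 * N 1 0 - M 0 1 * N 0 0), sq_nonneg (M 0 0 * N 1 1 - M 0 1 * N 0 1),
    sq_nonneg (M 1 0 * N 1 0 - M 1 1 * N 0 0), sq_nonneg (M 1 0 * N 1 1 - M 1 1 * N 0 1)]

theorem entry_sq_le (M : M2) (i j : Fin 2) : M i j ^ 2 ≤ S M := by
  unfold S
  fin_cases i <;> fin_cases j <;> simp <;> nlinarith [sq_nonneg (M 0 0), sq_nonneg (M 0 1),
    sq_nonneg (M 1 0), sq_nonneg (M 1 1)]

theorem S_add_le (M N : M2) : S (M + N) ≤ 2 * S M + 2 * S N := by
  simp only [S, Matrix.add_apply]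
  nlinarith [sq_nonneg (M 0 0 - N 0 0), sq_nonneg (M 0 1 - N 0 1),
    sq_nonneg (M 1 0 - N 1 0), sq_nonneg (M 1 1 - N 1 1)]

theorem S_smul (a : ℝ) (M : M2) : S (a • M) = a ^ 2 * S M := by
  simp only [S, Matrix.smul_apply, smul_eq_mul]
  ring

theorem S_one : S (1 : M2) = 2 := by
  simp [S]; norm_num

theorem S_zero : S (0 : M2) = 0 := by
  simp [S]

/-- Chebyshev type sequence -/
def us (t : ℝ) : ℕ → ℝ
  | 0 => 0
  | 1 => 1
  | (m + 2) => t * us t (m + 1) - us t m

theorem SL2_inv_coe (P : SL2) : ((P⁻¹ : SL2) : M2) = !![P.1 1 1, -P.1 0 1; -P.1 1 0, P.1 0 0] := by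
  rw [Matrix.SpecialLinearGroup.coe_inv, Matrix.adjugate_fin_two]

theorem SL2_det (P : SL2) : P.1 0 0 * P.1 1 1 - P.1 0 1 * P.1 1 0 = 1 := by
  have := P.2
  rwa [Matrix.det_fin_two] at this

theorem tr_eq (P : SL2) : tr P = P.1 0 0 + P.1 1 1 := by
  simp [tr, Matrix.trace, Fin.sum_univ_two]

theorem SL2_sq (P : SL2) : (P.1 * P.1 : M2) = tr P • P.1 - 1 := by
  have hd := SL2_det P
  rw [tr_eq]
  ext i j
  fin_cases i <;> fin_cases j <;>
    simp [Matrix.mul_apply, Fin.sum_univ_two] <;> linarith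

theorem S_inv (P : SL2) : S ((P⁻¹ : SL2) : M2) = S P.1 := by
  rw [SL2_inv_coe]
  simp [S]
  ring

theorem pow_succ_eq (P : SL2) (m : ℕ) :
    ((P ^ (m + 1) : SL2) : M2) = us (tr P) (m + 1) • P.1 - us (tr P) m • (1 : M2) := by
  induction m with
  | zero => simp [us]
  | succ m ih =>
    rw [pow_succ, Matrix.SpecialLinearGroup.coe_mul, ih, sub_mul, smul_mul_assoc, smul_mul_assoc,
      one_mul, SL2_sq]
    simp only [us]
    module

theorem trace_pow_rec (P : SL2) (m : ℕ) : tr (P ^ (m + 2)) = tr P * tr (P ^ (m + 1)) - tr (P ^ m) := by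
  have h : ((P ^ (m + 2) : SL2) : M2) = tr P • ((P ^ (m + 1) : SL2) : M2) - ((P ^ m : SL2) : M2) := by
    rw [show m + 2 = m + 1 + 1 from rfl, pow_succ, pow_succ, Matrix.SpecialLinearGroup.coe_mul,
      Matrix.SpecialLinearGroup.coe_mul, mul_assoc, SL2_sq, mul_sub, mul_smul_comm, mul_one]
  simp only [tr]
  rw [h, Matrix.trace_sub, Matrix.trace_smul, smul_eq_mul]
  rfl

/-- half of the translation length -/
noncomputable def th (P : SL2) : ℝ := Real.arcosh (max 1 (|tr P| / 2))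

theorem th_nonneg (P : SL2) : 0 ≤ th P := Real.arcosh_nonneg (le_max_left _ _)

theorem cosh_th (P : SL2) : Real.cosh (th P) = max 1 (|tr P| / 2) :=
  Real.cosh_arcosh (le_max_left _ _)

theorem us_bound_hyp (t θ σ : ℝ) (hθ : 0 ≤ θ) (hσ : σ * σ = 1)
    (ht : t = σ * (Real.exp θ + Real.exp (-θ))) (m : ℕ) :
    us t (m + 1) - σ * Real.exp (-θ) * us t m = (σ * Real.exp θ) ^ m ∧
    |us t m| ≤ m * Real.exp (m * θ) := by
  have hef : Real.exp θ * Real.exp (-θ) = 1 := by rw [← Real.exp_add]; simp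
  have hσ1 : |σ| = 1 := by
    have : |σ| * |σ| = 1 := by rw [← abs_mul, hσ, abs_one]
    nlinarith [abs_nonneg σ]
  induction m with
  | zero => simp [us]
  | succ m ih =>
    obtain ⟨h1, h2⟩ := ih
    constructor
    · have : us t (m + 1 + 1) = t * us t (m + 1) - us t m := rfl
      rw [this, pow_succ, ← h1]
      linear_combination (us t (m + 1)) * ht + (us t m * σ * σ) * hef + us t m * hσ
    · have h3 : us t (m + 1) = σ * Real.exp (-θ) * us t m + (σ * Real.exp θ) ^ m := by linarith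
      rw [h3]
      have h4 : |σ * Real.exp (-θ) * us t m| ≤ |us t m| := by
        rw [abs_mul, abs_mul, hσ1, one_mul, abs_of_pos (Real.exp_pos _)]
        have : Real.exp (-θ) ≤ 1 := by rw [Real.exp_le_one_iff]; linarith
        nlinarith [abs_nonneg (us t m)]
      have h5 : |(σ * Real.exp θ) ^ m| = Real.exp (m * θ) := by
        rw [abs_pow, abs_mul, hσ1, one_mul, abs_of_pos (Real.exp_pos _), ← Real.exp_nat_mul]
      have h6 : Real.exp (m * θ) ≤ Real.exp (((m + 1 : ℕ) : ℝ) * θ) := by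
        apply Real.exp_le_exp.2
        push_cast
        nlinarith
      calc _ ≤ |σ * Real.exp (-θ) * us t m| + |(σ * Real.exp θ) ^ m| := abs_add_le _ _
        _ ≤ m * Real.exp (m * θ) + Real.exp (m * θ) := by rw [h5]; linarith
        _ ≤ _ := by
          push_cast at h6 ⊢
          nlinarith [Real.exp_pos (m * θ), (Nat.cast_nonneg m : (0 : ℝ) ≤ m)]

theorem us_inv (t : ℝ) (m : ℕ) : us t (m + 1) ^ 2 - t * us t (m + 1) * us t m + us t m ^ 2 = 1 := by
  induction m with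
  | zero => simp [us]
  | succ m ih =>
    have : us t (m + 1 + 1) = t * us t (m + 1) - us t m := rfl
    rw [this]
    linear_combination ih

theorem us_bound (P : SL2) : ∃ C : ℝ, 1 ≤ C ∧ ∀ m : ℕ, |us (tr P) m| ≤ C * (m + 1) * Real.exp (m * th P) := by
  by_cases h : 2 ≤ |tr P|
  · refine ⟨1, le_rfl, fun m => ?_⟩
    have h1 : Real.cosh (th P) = |tr P| / 2 := by
      rw [cosh_th, max_eq_right (by linarith)]
    have h2 : |tr P| = Real.exp (th P) + Real.exp (-th P) := by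
      rw [Real.cosh_eq] at h1; linarith
    rcases le_total 0 (tr P) with hp | hp
    · have h3 := (us_bound_hyp (tr P) (th P) 1 (th_nonneg P) (by norm_num)
        (by rw [one_mul, ← h2, abs_of_nonneg hp]) m).2
      have := Real.exp_pos (m * th P)
      nlinarith
    · have h3 := (us_bound_hyp (tr P) (th P) (-1) (th_nonneg P) (by norm_num)
        (by rw [neg_one_mul, ← h2, abs_of_nonpos hp, neg_neg]) m).2
      have := Real.exp_pos (m * th P)
      nlinarith
  · push Not at h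
    have h0 : 0 < 1 - tr P ^ 2 / 4 := by
      have : tr P ^ 2 < 4 := by
        rw [← sq_abs]; nlinarith [abs_nonneg (tr P)]
      linarith
    obtain ⟨c, hc1, hc⟩ : ∃ c : ℝ, 1 ≤ c ∧ 1 ≤ c ^ 2 * (1 - tr P ^ 2 / 4) := by
      refine ⟨(1 - tr P ^ 2 / 4)⁻¹, ?_, ?_⟩
      · rw [one_le_inv₀ h0]; nlinarith [sq_nonneg (tr P)]
      · have : (1 - tr P ^ 2 / 4)⁻¹ ^ 2 * (1 - tr P ^ 2 / 4) = (1 - tr P ^ 2 / 4)⁻¹ := by
          field_simp
        rw [this, one_le_inv₀ h0]; nlinarith [sq_nonneg (tr P)]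
    refine ⟨c, hc1, fun m => ?_⟩
    have h1 := us_inv (tr P) m
    have h2 : (1 - tr P ^ 2 / 4) * us (tr P) m ^ 2 ≤ 1 := by
      nlinarith [sq_nonneg (us (tr P) (m + 1) - tr P / 2 * us (tr P) m)]
    have h3 : us (tr P) m ^ 2 ≤ c ^ 2 := by
      have h4 : (1 - tr P ^ 2 / 4) * us (tr P) m ^ 2 ≤ c ^ 2 * (1 - tr P ^ 2 / 4) := le_trans h2 hc
      have h5 : (1 - tr P ^ 2 / 4) * us (tr P) m ^ 2 ≤ (1 - tr P ^ 2 / 4) * c ^ 2 := by linarith
      exact le_of_mul_le_mul_left h5 h0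
    have h4 : |us (tr P) m| ≤ c := by
      have := abs_le_of_sq_le_sq' h3 (by linarith)
      exact abs_le.2 this
    have h5 : 1 ≤ Real.exp (m * th P) := Real.one_le_exp (mul_nonneg (by positivity) (th_nonneg P))
    have h6 : (1 : ℝ) ≤ m + 1 := by
      have : (0 : ℝ) ≤ m := by positivity
      linarith
    calc |us (tr P) m| ≤ c := h4
      _ ≤ c * ((m + 1) * Real.exp (m * th P)) := by
        have : 1 ≤ (m + 1) * Real.exp (m * th P) := by nlinarith
        nlinarith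
      _ = _ := by ring

theorem S_pow_le (P : SL2) : ∃ C : ℝ, 1 ≤ C ∧ ∀ m : ℕ,
    S ((P ^ m : SL2) : M2) ≤ C * (m + 1) ^ 2 * Real.exp (2 * m * th P) := by
  obtain ⟨C, hC1, hC⟩ := us_bound P
  refine ⟨2 * C ^ 2 * S P.1 + 4 * C ^ 2 + 2, by nlinarith [S_nonneg P.1], fun m => ?_⟩
  cases m with
  | zero =>
    simp only [pow_zero, Matrix.SpecialLinearGroup.coe_one, S_one]
    simp
    nlinarith [mul_nonneg (sq_nonneg C) (S_nonneg P.1), sq_nonneg C]
  | succ m =>
    rw [pow_succ_eq, sub_eq_add_neg, ← neg_smul]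
    have h1 := S_add_le (us (tr P) (m + 1) • P.1) (-us (tr P) m • (1 : M2))
    rw [S_smul, S_smul, S_one] at h1
    have hA := hC (m + 1)
    have hB := hC m
    push_cast at hA
    have e2 : Real.exp (2 * ((m + 1 : ℕ) : ℝ) * th P) = (Real.exp ((m + 1) * th P)) ^ 2 := by
      rw [← Real.exp_nat_mul]; push_cast; ring_nf
    have hA2 : us (tr P) (m + 1) ^ 2 ≤ (C * (m + 1 + 1) * Real.exp ((m + 1) * th P)) ^ 2 := by
      rw [← sq_abs]
      exact pow_le_pow_left₀ (abs_nonneg _) hA 2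
    have hB2 : (-us (tr P) m) ^ 2 ≤ (C * (m + 1 + 1) * Real.exp ((m + 1) * th P)) ^ 2 := by
      rw [neg_sq, ← sq_abs]
      apply pow_le_pow_left₀ (abs_nonneg _)
      refine le_trans hB ?_
      have : Real.exp (m * th P) ≤ Real.exp ((m + 1) * th P) := by
        apply Real.exp_le_exp.2
        nlinarith [th_nonneg P]
      have h0 : (0 : ℝ) ≤ m := by positivity
      have : C * (m + 1) ≤ C * (m + 1 + 1) := by nlinarith
      apply mul_le_mul this (by assumption) (Real.exp_pos _).le (by positivity)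
    rw [e2]
    push_cast
    have hS := S_nonneg P.1
    have h3 : (C * (m + 1 + 1) * Real.exp ((m + 1) * th P)) ^ 2 =
      C ^ 2 * ((m + 1 + 1) ^ 2 * Real.exp ((m + 1) * th P) ^ 2) := by ring
    rw [h3] at hA2 hB2
    set Z := ((m : ℝ) + 1 + 1) ^ 2 * Real.exp ((m + 1) * th P) ^ 2 with hZ
    have hZ0 : 0 ≤ Z := by positivity
    calc _ ≤ 2 * (us (tr P) (m + 1) ^ 2 * S P.1) + 2 * ((-us (tr P) m) ^ 2 * 2) := h1
      _ ≤ 2 * (C ^ 2 * Z * S P.1) + 2 * (C ^ 2 * Z * 2) := by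
        have := mul_le_mul_of_nonneg_right hA2 hS
        linarith
      _ ≤ (2 * C ^ 2 * S P.1 + 4 * C ^ 2 + 2) * Z := by nlinarith
      _ = _ := by rw [hZ]; ring

theorem trace_pow_hyp (P : SL2) (θ σ : ℝ)
    (ht : tr P = σ * (Real.exp θ + Real.exp (-θ))) (hσ : σ * σ = 1) (m : ℕ) :
    tr (P ^ m) = σ ^ m * (Real.exp (m * θ) + Real.exp (-(m * θ))) ∧
    tr (P ^ (m + 1)) = σ ^ (m + 1) * (Real.exp ((m + 1) * θ) + Real.exp (-((m + 1) * θ))) := by
  induction m with
  | zero =>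
    constructor
    · simp [tr]; norm_num
    · simpa using ht
  | succ m ih =>
    obtain ⟨h1, h2⟩ := ih
    constructor
    · push_cast; exact h2
    · rw [show m + 1 + 1 = m + 2 from rfl, trace_pow_rec, h1, h2, ht]
      have e1 : Real.exp ((((m + 1 : ℕ) : ℝ) + 1) * θ) = Real.exp θ * Real.exp ((m + 1) * θ) := by
        rw [← Real.exp_add]; congr 1; push_cast; ring
      have e2 : Real.exp (-((((m + 1 : ℕ) : ℝ) + 1) * θ)) =
          Real.exp (-θ) * Real.exp (-((m + 1) * θ)) := by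
        rw [← Real.exp_add]; congr 1; push_cast; ring
      have e3 : Real.exp (m * θ) = Real.exp (-θ) * Real.exp ((m + 1) * θ) := by
        rw [← Real.exp_add]; congr 1; ring
      have e4 : Real.exp (-(m * θ)) = Real.exp θ * Real.exp (-((m + 1) * θ)) := by
        rw [← Real.exp_add]; congr 1; ring
      rw [e1, e2, e3, e4, pow_succ, show m + 2 = m + 1 + 1 from rfl, pow_succ (σ) (m + 1), pow_succ σ m]
      linear_combination (-σ ^ m * (Real.exp (-θ) * Real.exp ((m + 1) * θ) +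
        Real.exp θ * Real.exp (-((m + 1) * θ)))) * (-hσ)

theorem exp_le_S_pow (P : SL2) (h : 0 < th P) (m : ℕ) :
    Real.exp (2 * m * th P) ≤ 2 * S ((P ^ m : SL2) : M2) := by
  have h1 : 1 < max 1 (|tr P| / 2) := by
    by_contra hcon
    have h2 : max 1 (|tr P| / 2) = 1 := le_antisymm (not_lt.1 hcon) (le_max_left _ _)
    rw [th, h2] at h
    simp at h
  have h2 : Real.cosh (th P) = |tr P| / 2 := by
    rw [cosh_th]
    rcases max_cases 1 (|tr P| / 2) with h3 | h3
    · rw [h3.1] at h1; linarith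
    · exact h3.1
  have h3 : |tr P| = Real.exp (th P) + Real.exp (-th P) := by
    rw [Real.cosh_eq] at h2; linarith
  have key : Real.exp (m * th P) ≤ |tr (P ^ m)| := by
    rcases le_total 0 (tr P) with hp | hp
    · have h4 := (trace_pow_hyp P (th P) 1 (by rw [one_mul, ← h3, abs_of_nonneg hp])
        (by norm_num) m).1
      rw [h4, one_pow, one_mul, abs_of_pos (by positivity)]
      linarith [Real.exp_pos (-(m * th P))]
    · have h4 := (trace_pow_hyp P (th P) (-1)
        (by rw [neg_one_mul, ← h3, abs_of_nonpos hp, neg_neg]) (by norm_num) m).1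
      rw [h4, abs_mul, abs_pow, abs_neg, abs_one, one_pow, one_mul, abs_of_pos (by positivity)]
      linarith [Real.exp_pos (-(m * th P))]
  have h5 : tr (P ^ m) ^ 2 ≤ 2 * S ((P ^ m : SL2) : M2) := by
    rw [tr_eq]
    unfold S
    nlinarith [sq_nonneg ((P ^ m : SL2).1 0 0 - (P ^ m : SL2).1 1 1),
      sq_nonneg ((P ^ m : SL2).1 0 1), sq_nonneg ((P ^ m : SL2).1 1 0)]
  refine le_trans ?_ h5
  have e1 : Real.exp (2 * m * th P) = Real.exp (m * th P) ^ 2 := by
    rw [← Real.exp_nat_mul]; push_cast; ring_nf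
  rw [e1, ← sq_abs (tr _)]
  exact pow_le_pow_left₀ (Real.exp_pos _).le key 2

/-- Growth comparison. -/
theorem th_le_of_growth (P P' : SL2) (L : ℕ) (C : ℝ)
    (h : ∀ m : ℕ, S ((P' ^ m : SL2) : M2) ≤ C * (S ((P ^ m : SL2) : M2)) ^ L) :
    th P' ≤ L * th P := by
  by_contra hcon
  push Not at hcon
  have hP := th_nonneg P
  have hP' : 0 < th P' := lt_of_le_of_lt (by positivity) hcon
  obtain ⟨D, hD1, hD⟩ := S_pow_le P
  have hC : 0 ≤ C := by
    have := h 0
    simp only [pow_zero, Matrix.SpecialLinearGroup.coe_one, S_one] at this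
    by_contra hc
    push Not at hc
    have h2 : C * (2 : ℝ) ^ L < 0 := mul_neg_of_neg_of_pos hc (by positivity)
    linarith
  set δ := 2 * (th P' - L * th P) with hδ
  have hδ0 : 0 < δ := by rw [hδ]; linarith
  have key : ∀ m : ℕ, Real.exp (m * δ) ≤ 2 * C * D ^ L * (m + 1) ^ (2 * L) := by
    intro m
    have h1 := exp_le_S_pow P' hP' m
    have h2 := h m
    have h3 : (S ((P ^ m : SL2) : M2)) ^ L ≤ (D * (m + 1) ^ 2 * Real.exp (2 * m * th P)) ^ L :=
      pow_le_pow_left₀ (S_nonneg _) (hD m) L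
    have h4 : Real.exp (2 * m * th P') ≤ 2 * (C * (D * (m + 1) ^ 2 * Real.exp (2 * m * th P)) ^ L) :=
      le_trans h1 (by
        have := mul_le_mul_of_nonneg_left h3 hC
        linarith)
    have h5 : Real.exp (m * δ) * Real.exp (2 * m * (L * th P)) = Real.exp (2 * m * th P') := by
      rw [← Real.exp_add]; congr 1; rw [hδ]; ring
    have h6 : (D * (m + 1) ^ 2 * Real.exp (2 * m * th P)) ^ L =
        D ^ L * (m + 1) ^ (2 * L) * Real.exp (2 * m * (L * th P)) := by
      rw [mul_pow, mul_pow, ← pow_mul, ← Real.exp_nat_mul]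
      congr 2
      ring
    rw [h6, ← h5] at h4
    have h7 : Real.exp (m * δ) * Real.exp (2 * m * (L * th P)) ≤
        (2 * C * D ^ L * (m + 1) ^ (2 * L)) * Real.exp (2 * m * (L * th P)) := by linarith
    exact le_of_mul_le_mul_right h7 (Real.exp_pos _)
  have hr : 1 < Real.exp δ := Real.one_lt_exp_iff.2 hδ0
  have ht := tendsto_pow_const_div_const_pow_of_one_lt (2 * L) hr
  have ht2 : Filter.Tendsto (fun m : ℕ => 2 * C * D ^ L * Real.exp δ *
      (((m + 1 : ℕ) : ℝ) ^ (2 * L) / Real.exp δ ^ (m + 1))) Filter.atTop (nhds 0) := by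
    have := (ht.comp (Filter.tendsto_add_atTop_nat 1)).const_mul (2 * C * D ^ L * Real.exp δ)
    simpa using this
  have hev := ht2.eventually_lt_const (show (0 : ℝ) < 1 by norm_num)
  obtain ⟨m, hm⟩ := hev.exists
  have hk := key m
  have e1 : 2 * C * D ^ L * Real.exp δ * (((m + 1 : ℕ) : ℝ) ^ (2 * L) / Real.exp δ ^ (m + 1)) =
      (2 * C * D ^ L * (m + 1) ^ (2 * L)) / Real.exp (m * δ) := by
    rw [pow_succ, Real.exp_nat_mul]
    push_cast
    field_simp
  rw [e1, div_lt_one (Real.exp_pos _)] at hm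
  linarith

end Pool.Agent.Lib.MP731498
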