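import Mathlib
import Pool.Agent.Lib.MP731498.Growth

set_option autoImplicit false

namespace Pool.Agent.Lib.MP731498

open Matrix

/-! ### No elliptic elements of infinite order in a discrete group -/

theorem us_bdd (t : ℝ) (ht : |t| < 2) : ∃ c : ℝ, 0 ≤ c ∧ ∀ m : ℕ, |us t m| ≤ c := by
  have h0 : 0 < 1 - t ^ 2 / 4 := by
    have : t ^ 2 < 4 := by
      rw [← sq_abs]; nlinarith [abs_nonneg t]
    linarith
  refine ⟨(1 - t ^ 2 / 4)⁻¹, by positivity, fun m => ?_⟩
  have h1 := us_inv t m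
  have h2 : (1 - t ^ 2 / 4) * us t m ^ 2 ≤ 1 := by
    nlinarith [sq_nonneg (us t (m + 1) - t / 2 * us t m)]
  have h3 : us t m ^ 2 ≤ ((1 - t ^ 2 / 4)⁻¹) ^ 2 := by
    have h4 : us t m ^ 2 ≤ (1 - t ^ 2 / 4)⁻¹ := by
      rw [← one_div, le_div_iff₀ h0]; linarith
    have h5 : 1 ≤ (1 - t ^ 2 / 4)⁻¹ := by
      rw [one_le_inv₀ h0]; nlinarith [sq_nonneg t]
    nlinarith
  exact abs_le.2 (abs_le_of_sq_le_sq' h3 (by positivity))

theorem S_pow_bdd (P : SL2) (ht : |tr P| < 2) : ∃ C : ℝ, ∀ m : ℕ, S ((P ^ m : SL2) : M2) ≤ C := by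
  obtain ⟨c, hc0, hc⟩ := us_bdd (tr P) ht
  refine ⟨2 * (c ^ 2 * S P.1) + 2 * (c ^ 2 * 2) + 2, fun m => ?_⟩
  cases m with
  | zero =>
    simp only [pow_zero, Matrix.SpecialLinearGroup.coe_one, S_one]
    have := S_nonneg P.1
    have : 0 ≤ c ^ 2 * S P.1 := by positivity
    nlinarith [sq_nonneg c]
  | succ m =>
    rw [pow_succ_eq, sub_eq_add_neg, ← neg_smul]
    have h1 := S_add_le (us (tr P) (m + 1) • P.1) (-us (tr P) m • (1 : M2))
    rw [S_smul, S_smul, S_one] at h1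
    have h2 : us (tr P) (m + 1) ^ 2 ≤ c ^ 2 := by
      rw [← sq_abs]; exact pow_le_pow_left₀ (abs_nonneg _) (hc _) 2
    have h3 : (-us (tr P) m) ^ 2 ≤ c ^ 2 := by
      rw [neg_sq, ← sq_abs]; exact pow_le_pow_left₀ (abs_nonneg _) (hc _) 2
    have := mul_le_mul_of_nonneg_right h2 (S_nonneg P.1)
    linarith

theorem isCompact_S_le (C : ℝ) : IsCompact {P : SL2 | S P.1 ≤ C} := by
  have h1 : IsCompact (Set.pi Set.univ (fun _ : Fin 2 => Set.pi Set.univ
      (fun _ : Fin 2 => Set.Icc (-Real.sqrt C) (Real.sqrt C))) : Set (Fin 2 → Fin 2 → ℝ)) :=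
    isCompact_univ_pi fun _ => isCompact_univ_pi fun _ => isCompact_Icc
  have h2 : IsCompact {M : M2 | S M ≤ C} := by
    refine IsCompact.of_isClosed_subset (s := (Set.pi Set.univ (fun _ : Fin 2 => Set.pi Set.univ
      (fun _ : Fin 2 => Set.Icc (-Real.sqrt C) (Real.sqrt C))) : Set (Fin 2 → Fin 2 → ℝ))) h1 ?_ ?_
    · apply isClosed_le _ continuous_const
      unfold S
      fun_prop
    · intro M hM i _ j _
      have h3 : M i j ^ 2 ≤ C := le_trans (entry_sq_le M i j) hM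
      have h4 := Real.abs_le_sqrt h3
      exact ⟨(abs_le.1 h4).1, (abs_le.1 h4).2⟩
  exact Matrix.SpecialLinearGroup.isClosedEmbedding_val.isCompact_preimage h2

variable {G : Type*} [Group G]

theorem finite_order_of_elliptic (ρ : G →* SL2) (hd : DiscreteTopology ρ.range) (x : G)
    (hx : |tr (ρ x)| < 2) : ∃ m : ℕ, 0 < m ∧ ρ x ^ m = 1 := by
  obtain ⟨C, hC⟩ := S_pow_bdd (ρ x) hx
  have hcl : IsClosed (ρ.range : Set SL2) := Subgroup.isClosed_of_discrete
  have hcomp : IsCompact ({P : SL2 | S P.1 ≤ C} ∩ (ρ.range : Set SL2)) :=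
    (isCompact_S_le C).inter_right hcl
  have hdis : IsDiscrete (ρ.range : Set SL2) := isDiscrete_iff_discreteTopology.mpr hd
  have hfin := hcomp.finite (hdis.mono Set.inter_subset_right)
  have hmem : ∀ m : ℕ, ρ x ^ m ∈ ({P : SL2 | S P.1 ≤ C} ∩ (ρ.range : Set SL2)) :=
    fun m => ⟨hC m, ρ.range.pow_mem ⟨x, rfl⟩ m⟩
  obtain ⟨i, j, hij, he⟩ : ∃ i j : ℕ, i < j ∧ ρ x ^ i = ρ x ^ j := by
    have := hfin.to_subtype
    obtain ⟨i, j, hne, he⟩ := Finite.exists_ne_map_eq_of_infinite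
      (fun m : ℕ => (⟨ρ x ^ m, hmem m⟩ : ↥({P : SL2 | S P.1 ≤ C} ∩ (ρ.range : Set SL2))))
    have he' : ρ x ^ i = ρ x ^ j := congrArg Subtype.val he
    rcases lt_or_gt_of_ne hne with h | h
    · exact ⟨i, j, h, he'⟩
    · exact ⟨j, i, h, he'.symm⟩
  refine ⟨j - i, by omega, ?_⟩
  have h1 : ρ x ^ j = ρ x ^ i * ρ x ^ (j - i) := by rw [← pow_add]; congr 1; omega
  rw [h1] at he
  exact (mul_eq_left.1 he.symm)

theorem us_ge (t : ℝ) (ht : 2 ≤ |t|) (m : ℕ) : |us t m| ≤ |us t (m + 1)| ∧ 1 ≤ |us t (m + 1)| := by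
  induction m with
  | zero => simp [us]
  | succ m ih =>
    obtain ⟨h1, h2⟩ := ih
    have h3 : |us t (m + 1)| ≤ |us t (m + 1 + 1)| := by
      have : us t (m + 1 + 1) = t * us t (m + 1) - us t m := rfl
      rw [this]
      have h4 := abs_sub_abs_le_abs_sub (t * us t (m + 1)) (us t m)
      rw [abs_mul] at h4
      nlinarith [abs_nonneg (us t (m + 1))]
    exact ⟨h3, le_trans h2 h3⟩

/-- non-elliptic elements other than `±1` have infinite order -/
theorem pow_ne_one_of_two_le (P : SL2) (ht : 2 ≤ |tr P|) (h1 : P ≠ 1) (h2 : P ≠ -1) (m : ℕ)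
    (hm : 0 < m) : P ^ m ≠ 1 := by
  obtain ⟨m, rfl⟩ : ∃ k, m = k + 1 := ⟨m - 1, by omega⟩
  intro h
  have h3 := pow_succ_eq P m
  rw [h, Matrix.SpecialLinearGroup.coe_one] at h3
  have hu : us (tr P) (m + 1) ≠ 0 := by
    have := (us_ge (tr P) ht m).2
    intro h0
    rw [h0, abs_zero] at this
    linarith
  have h01 := congrFun (congrFun h3 0) 1
  have h10 := congrFun (congrFun h3 1) 0
  have h00 := congrFun (congrFun h3 0) 0
  have h11 := congrFun (congrFun h3 1) 1
  simp [Matrix.sub_apply, Matrix.smul_apply, hu] at h01 h10 h00 h11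
  have hd := SL2_det P
  have e01 : P.1 0 1 = 0 := h01
  have e10 : P.1 1 0 = 0 := h10
  have e : P.1 0 0 = P.1 1 1 := by
    have : us (tr P) (m + 1) * P.1 0 0 = us (tr P) (m + 1) * P.1 1 1 := by
      have a1 : (1 : ℝ) = us (tr P) (m + 1) * P.1 0 0 - us (tr P) m := h00
      have a2 : (1 : ℝ) = us (tr P) (m + 1) * P.1 1 1 - us (tr P) m := h11
      linarith
    exact mul_left_cancel₀ hu this
  rw [e01, e10, e] at hd
  have h4 : P.1 1 1 = 1 ∨ P.1 1 1 = -1 := by
    have : (P.1 1 1 - 1) * (P.1 1 1 + 1) = 0 := by linarith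
    rcases mul_eq_zero.1 this with h | h
    · left; linarith
    · right; linarith
  rcases h4 with h4 | h4
  · apply h1
    apply Subtype.ext
    rw [Matrix.SpecialLinearGroup.coe_one]
    ext i j
    fin_cases i <;> fin_cases j <;> simp [e01, e10, e, h4]
  · apply h2
    apply Subtype.ext
    rw [Matrix.SpecialLinearGroup.coe_neg, Matrix.SpecialLinearGroup.coe_one]
    ext i j
    fin_cases i <;> fin_cases j <;> simp [e01, e10, e, h4]

/-! ### The collar inequality -/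

theorem fricke (A B : SL2) : tr (com A B) =
    tr A ^ 2 + tr B ^ 2 + tr (A * B) ^ 2 - tr A * tr B * tr (A * B) - 2 := by
  have hA := SL2_det A
  have hB := SL2_det B
  simp only [com, tr_eq, Matrix.SpecialLinearGroup.coe_mul, SL2_inv_coe, Matrix.mul_apply,
    Fin.sum_univ_two, Matrix.of_apply, Matrix.cons_val', Matrix.cons_val_zero, Matrix.cons_val_one,
    Matrix.empty_val', Matrix.cons_val_fin_one]
  generalize A.1 0 0 = a at *
  generalize A.1 0 1 = b at *
  generalize A.1 1 0 = c at *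
  generalize A.1 1 1 = d at *
  generalize B.1 0 0 = e at *
  generalize B.1 0 1 = f at *
  generalize B.1 1 0 = g at *
  generalize B.1 1 1 = h at *
  linear_combination ((a + d) ^ 2 - 2) * hB + ((e + h) ^ 2 - 2 * (e * h - f * g)) * hA

theorem sinh_half_lt : Real.sinh (1 / 2) < 1 := by
  rw [Real.sinh_eq]
  have h1 : Real.exp (1 / 2) < 2 := by
    have h2 : Real.exp (1 / 2) ^ 2 = Real.exp 1 := by
      rw [← Real.exp_nat_mul]; norm_num
    have h3 := Real.exp_one_lt_d9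
    by_contra hcon
    push Not at hcon
    nlinarith
  have h4 := Real.exp_pos (-(1 / 2))
  linarith

/-- Two crossing closed geodesics cannot both be short. -/
theorem collar (A B : SL2) (hA : 2 ≤ |tr A|) (hκ : tr (com A B) ≤ -2) :
    ¬ (th A ≤ 1 / 2 ∧ th B ≤ 1 / 2) := by
  rintro ⟨h1, h2⟩
  rw [fricke] at hκ
  set x := tr A
  set y := tr B
  set z := tr (A * B)
  have key : 4 * (x ^ 2 + y ^ 2) ≤ x ^ 2 * y ^ 2 := by
    nlinarith [sq_nonneg (2 * z - x * y)]
  have hx2 : 4 ≤ x ^ 2 := by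
    rw [← sq_abs]; nlinarith
  have bound : ∀ P : SL2, th P ≤ 1 / 2 → tr P ^ 2 ≤ 4 * Real.cosh (1 / 2) ^ 2 := by
    intro P hP
    have h3 : Real.cosh (th P) ≤ Real.cosh (1 / 2) := by
      rw [Real.cosh_le_cosh, abs_of_nonneg (th_nonneg P), abs_of_nonneg (by norm_num)]
      exact hP
    rw [cosh_th] at h3
    have h4 : |tr P| ≤ 2 * Real.cosh (1 / 2) := by
      have := le_trans (le_max_right _ _) h3
      linarith
    rw [← sq_abs]
    nlinarith [abs_nonneg (tr P)]
  have bx := bound A h1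
  have by' := bound B h2
  have hc := Real.cosh_sq (1 / 2)
  have hs : Real.sinh (1 / 2) ^ 2 < 1 := by
    have h5 : 0 < Real.sinh (1 / 2) := Real.sinh_pos_iff.2 (by norm_num)
    nlinarith [sinh_half_lt]
  have hx4 : x ^ 2 - 4 < 4 := by
    have : tr A ^ 2 ≤ 4 * (Real.sinh (1 / 2) ^ 2 + 1) := by rw [← hc]; exact bx
    change tr A ^ 2 - 4 < 4
    linarith
  have hy4 : y ^ 2 - 4 < 4 := by
    have : tr B ^ 2 ≤ 4 * (Real.sinh (1 / 2) ^ 2 + 1) := by rw [← hc]; exact by'
    change tr B ^ 2 - 4 < 4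
    linarith
  nlinarith [mul_pos (sub_pos.2 hx4) (sub_pos.2 hy4)]

theorem continuous_tr : Continuous tr := by
  have h : tr = fun P : SL2 => P.1 0 0 + P.1 1 1 := by
    funext P; exact tr_eq P
  rw [h]
  have h1 : Continuous (fun P : SL2 => P.1) := continuous_subtype_val
  exact (h1.matrix_elem 0 0).add (h1.matrix_elem 1 1)

theorem continuous_th : Continuous th := by
  unfold th
  apply Real.continuousOn_arcosh.comp_continuous
  · exact continuous_const.max ((continuous_tr.abs).div_const 2)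
  · intro P
    exact Set.mem_Ici.2 (le_max_left (1 : ℝ) (|tr P| / 2))

/-- the sign of the commutator trace is constant along a path -/
theorem path_kappa {T : Type*} [TopologicalSpace T] [PreconnectedSpace T] (f : T → ℝ)
    (hf : Continuous f) (h2 : ∀ s, 2 ≤ |f s|) (s0 : T) (h0 : f s0 ≤ -2) (s : T) : f s ≤ -2 := by
  by_contra hcon
  push Not at hcon
  have h3 : 2 ≤ f s := by
    rcases le_or_gt 0 (f s) with h | h
    · have := h2 s
      rwa [abs_of_nonneg h] at this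
    · have := h2 s
      rw [abs_of_neg h] at this
      linarith
  have h0' : (0 : ℝ) ∈ Set.Icc (f s0) (f s) := ⟨by linarith, by linarith⟩
  obtain ⟨t, ht⟩ := intermediate_value_univ s0 s hf h0'
  have := h2 t
  rw [ht] at this
  norm_num at this

end Pool.Agent.Lib.MP731498
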