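import Mathlib
import Pool.Agent.Lib.MP731498.Lower

set_option autoImplicit false

namespace Pool.Agent.Lib.MP731498

open scoped ENNReal

theorem len_eq {G : Type*} [Group G] (ρ : G →* SL2) (w : G) : len ρ w = 2 * th (ρ w) := rfl

theorem th_congr (P Q : SL2) (h : |tr P| = |tr Q|) : th P = th Q := by
  unfold th; rw [h]

/-- choice of the scale -/
theorem exists_scale (C η R : ℝ) (hC : 1 ≤ C) (hη : 0 < η) :
    ∃ δ : ℝ, 0 < δ ∧ δ ≤ 1 / 2 ∧ C * δ < 1 / 2 ∧ R ≤ Real.log (1 / (2 * (C * δ))) ∧
      (2 - η) * Real.log (C * (1 + Real.log (1 / δ)) / δ) ≤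
        2 * Real.log (1 / (2 * (C * δ))) := by
  have hlit : Filter.Tendsto (fun T : ℝ => Real.log (1 + T) / T) Filter.atTop (nhds 0) := by
    have h1 : Filter.Tendsto (fun T : ℝ => Real.log (1 + T) / (1 + T)) Filter.atTop (nhds 0) := by
      have h2 := (Real.isLittleO_log_id_atTop).tendsto_div_nhds_zero
      exact h2.comp (Filter.tendsto_atTop_add_const_left _ 1 Filter.tendsto_id)
    have h3 : Filter.Tendsto (fun T : ℝ => (1 + T) / T) Filter.atTop (nhds 1) := by
      have h4 : Filter.Tendsto (fun T : ℝ => T⁻¹ + 1) Filter.atTop (nhds (0 + 1)) :=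
        tendsto_inv_atTop_zero.add_const 1
      rw [zero_add] at h4
      apply h4.congr'
      filter_upwards [Filter.eventually_gt_atTop 0] with T hT
      field_simp
    have h5 := h1.mul h3
    rw [zero_mul] at h5
    apply h5.congr'
    filter_upwards [Filter.eventually_gt_atTop 0] with T hT
    have : (1 + T) ≠ 0 := by linarith
    field_simp
  have hev1 := hlit.eventually_lt_const (show (0 : ℝ) < η / (2 * (|2 - η| + 1)) by positivity)
  have hlogC : 0 ≤ Real.log C := Real.log_nonneg hC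
  have hlog2 : 0 < Real.log 2 := Real.log_pos (by norm_num)
  have hev2 := Filter.eventually_ge_atTop (R + Real.log 2 + Real.log C + Real.log 2 + 1)
  have hev3 := Filter.eventually_ge_atTop
    ((2 * (Real.log 2 + Real.log C) + |2 - η| * Real.log C) * (2 / η))
  have hev4 := Filter.eventually_ge_atTop (Real.log 2 + Real.log C + Real.log 2 + 1)
  obtain ⟨T, h1, h2, h3, h4, hT⟩ := (hev1.and (hev2.and (hev3.and (hev4.and
    (Filter.eventually_gt_atTop (0 : ℝ)))))).exists
  refine ⟨Real.exp (-T), Real.exp_pos _, ?_, ?_, ?_, ?_⟩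
  · have : Real.exp (-T) ≤ Real.exp (-Real.log 2) := Real.exp_le_exp.2 (by linarith)
    rw [Real.exp_neg (Real.log 2), Real.exp_log (by norm_num)] at this
    linarith
  · have h5 : C * Real.exp (-T) = Real.exp (Real.log C - T) := by
      rw [sub_eq_add_neg, Real.exp_add, Real.exp_log (by linarith)]
    rw [h5]
    have : Real.exp (Real.log C - T) < Real.exp (-Real.log 2) := Real.exp_lt_exp.2 (by linarith)
    rw [Real.exp_neg (Real.log 2), Real.exp_log (by norm_num)] at this
    linarith
  · have e : Real.log (1 / (2 * (C * Real.exp (-T)))) = T - Real.log 2 - Real.log C := by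
      rw [one_div, Real.log_inv, Real.log_mul (by norm_num) (by positivity),
        Real.log_mul (by positivity) (Real.exp_pos _).ne', Real.log_exp]
      ring
    rw [e]
    linarith
  · have e : Real.log (1 / (2 * (C * Real.exp (-T)))) = T - Real.log 2 - Real.log C := by
      rw [one_div, Real.log_inv, Real.log_mul (by norm_num) (by positivity),
        Real.log_mul (by positivity) (Real.exp_pos _).ne', Real.log_exp]
      ring
    have e2 : Real.log (1 / Real.exp (-T)) = T := by
      rw [one_div, Real.log_inv, Real.log_exp]; ring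
    have e3 : Real.log (C * (1 + T) / Real.exp (-T)) = Real.log C + Real.log (1 + T) + T := by
      rw [Real.log_div (by positivity) (Real.exp_pos _).ne', Real.log_mul (by positivity)
        (by positivity), Real.log_exp]
      ring
    rw [e, e2, e3]
    have h5 : Real.log (1 + T) ≤ η / (2 * (|2 - η| + 1)) * T := by
      rw [div_lt_iff₀ hT] at h1
      exact h1.le
    have h6 : 0 ≤ Real.log (1 + T) := Real.log_nonneg (by linarith)
    have h7 : (2 - η) * Real.log (1 + T) ≤ η / 2 * T := by
      calc (2 - η) * Real.log (1 + T) ≤ |2 - η| * Real.log (1 + T) :=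
            mul_le_mul_of_nonneg_right (le_abs_self _) h6
        _ ≤ (|2 - η| + 1) * (η / (2 * (|2 - η| + 1)) * T) := by
            have := abs_nonneg (2 - η)
            apply mul_le_mul (by linarith) h5 h6 (by linarith)
        _ = η / 2 * T := by
            have : |2 - η| + 1 ≠ 0 := by have := abs_nonneg (2 - η); linarith
            field_simp
    have h8 : (2 - η) * Real.log C ≤ |2 - η| * Real.log C :=
      mul_le_mul_of_nonneg_right (le_abs_self _) hlogC
    have h9 : 2 * (Real.log 2 + Real.log C) + |2 - η| * Real.log C ≤ η / 2 * T := by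
      have h10 := mul_le_mul_of_nonneg_left h3 (show (0 : ℝ) ≤ η / 2 by positivity)
      have h11 : η / 2 * ((2 * (Real.log 2 + Real.log C) + |2 - η| * Real.log C) * (2 / η)) =
          2 * (Real.log 2 + Real.log C) + |2 - η| * Real.log C := by
        field_simp
      rw [h11] at h10
      exact h10
    nlinarith

variable {g n : ℕ}

theorem dL_le (X Y : SurfaceGroup g n →* SL2) (L : ℝ) (hL : 1 ≤ L)
    (h1 : ∀ w, th (Y w) ≤ L * th (X w)) (h2 : ∀ w, th (X w) ≤ L * th (Y w)) :
    dL X Y ≤ ENNReal.ofReal (Real.log L) := by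
  unfold dL
  apply iSup₂_le
  intro w _
  apply ENNReal.ofReal_le_ofReal
  have key : ∀ a b : ℝ, 0 ≤ a → b ≤ L * a → (2 * b) / (2 * a) ≤ L := by
    intro a b ha hb
    rcases eq_or_lt_of_le ha with h | h
    · rw [← h]; simp; linarith
    · rw [div_le_iff₀ (by positivity)]
      linarith
  have hm : max (len Y w / len X w) (len X w / len Y w) ≤ L := by
    rw [len_eq, len_eq]
    exact max_le (key _ _ (th_nonneg _) (h1 w)) (key _ _ (th_nonneg _) (h2 w))
  have hm0 : 0 ≤ max (len Y w / len X w) (len X w / len Y w) := by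
    rw [len_eq, len_eq]
    have a1 := th_nonneg (X w)
    have a2 := th_nonneg (Y w)
    apply le_max_of_le_left
    positivity
  rcases eq_or_lt_of_le hm0 with h | h
  · rw [← h, Real.log_zero]
    exact Real.log_nonneg hL
  · exact Real.log_le_log h hm

theorem le_dL (X Y : SurfaceGroup g n →* SL2) (w : SurfaceGroup g n) (hw : w ∈ Simple g n)
    (r : ℝ) (hr : 0 < r)
    (h : r ≤ len Y w / len X w ∨ r ≤ len X w / len Y w) :
    ENNReal.ofReal (Real.log r) ≤ dL X Y := by
  unfold dL
  refine le_trans ?_ (le_iSup₂_of_le w hw le_rfl)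
  apply ENNReal.ofReal_le_ofReal
  apply Real.log_le_log hr
  rcases h with h | h
  · exact le_max_of_le_left h
  · exact le_max_of_le_right h

/-- an element of infinite order is not elliptic at any point of Teichmüller space -/
theorem two_le_tr (ρ : SurfaceGroup g n →* SL2) (hρ : ρ ∈ Teich g n) (x : SurfaceGroup g n)
    (hx : ∀ m : ℕ, 0 < m → x ^ m ≠ 1) : 2 ≤ |tr (ρ x)| := by
  by_contra hcon
  push Not at hcon
  obtain ⟨m, hm, h⟩ := finite_order_of_elliptic ρ hρ.2.1 x hcon
  apply hx m hm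
  apply hρ.1
  left
  rw [map_pow, h]

theorem infinite_order (ρ : SurfaceGroup g n →* SL2) (x : SurfaceGroup g n)
    (ht : 2 ≤ |tr (ρ x)|) (h1 : ρ x ≠ 1) (h2 : ρ x ≠ -1) (m : ℕ) (hm : 0 < m) : x ^ m ≠ 1 := by
  intro h
  apply pow_ne_one_of_two_le (ρ x) ht h1 h2 m hm
  rw [← map_pow, h, map_one]

theorem tr_neg_one : tr (-1 : SL2) = -2 := by
  rw [tr_eq]
  have : (-1 : SL2).1 = (-1 : M2) := by
    rw [Matrix.SpecialLinearGroup.coe_neg, Matrix.SpecialLinearGroup.coe_one]
  rw [this]
  simp; norm_num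

theorem tr_one : tr (1 : SL2) = 2 := by
  rw [tr_eq]; simp; norm_num

theorem tr_mul_comm (A B : SL2) : tr (A * B) = tr (B * A) := by
  simp only [tr, Matrix.SpecialLinearGroup.coe_mul]
  exact Matrix.trace_mul_comm _ _

theorem tr_neg (A : SL2) : tr (-A) = -tr A := by
  simp only [tr, Matrix.SpecialLinearGroup.coe_neg, Matrix.trace_neg]

theorem com_ne_neg_one (A B : SL2) (h : tr (A * B) ≠ 0) : com A B ≠ -1 := by
  intro hc
  apply h
  have h1 : A * B = -(B * A) := by
    have : com A B * (B * A) = A * B := by unfold com; group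
    rw [← this, hc, neg_mul, one_mul]
  have h2 : tr (A * B) = -tr (B * A) := by
    conv_lhs => rw [h1]
    rw [tr_neg]
  rw [tr_mul_comm B A] at h2
  linarith

theorem two_lt_of_th_pos (P : SL2) (h : 0 < th P) : 2 < |tr P| := by
  by_contra hcon
  push Not at hcon
  have : max 1 (|tr P| / 2) = 1 := max_eq_left (by linarith)
  rw [th, this] at h
  simp at h

/-- The general argument. -/
theorem assembly (α β : SurfaceGroup g n) (hα : α ∈ Simple g n) (hβ : β ∈ Simple g n)
    (fam : ℝ → (SurfaceGroup g n →* SL2)) (hT : ∀ s, fam s ∈ Teich g n)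
    (hc : ∀ w, Continuous fun s => fam s w)
    (hκ : ∀ s, tr (com (fam s α) (fam s β)) ≤ -2)
    (hz : ∀ s, tr (fam s α * fam s β) ≠ 0)
    (hα0 : ∀ s, 0 < th (fam s α)) (hβ0 : ∀ s, 0 < th (fam s β)) (C : ℝ) (hC : 1 ≤ C)
    (h4 : ∀ δ, 0 < δ → δ ≤ 1 / 2 → ∃ (sX sY : ℝ) (L : ℕ), 1 ≤ L ∧ th (fam sX α) ≤ C * δ ∧
      th (fam sY β) ≤ C * δ ∧ (∀ w, th (fam sY w) ≤ L * th (fam sX w)) ∧
      (∀ w, th (fam sX w) ≤ L * th (fam sY w)) ∧ (L : ℝ) ≤ C * (1 + Real.log (1 / δ)) / δ)
    (η : ℝ) (hη : 0 < η) (R : ℝ) :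
    ∃ X ∈ Teich g n, ∃ Y ∈ Teich g n, ENNReal.ofReal R ≤ dL X Y ∧ dL X Y < ⊤ ∧ JoinedBy X Y ∧
      (∀ Z, JoinedBy X Z → ENNReal.ofReal (1 - η) * dL X Y ≤ max (dL X Z) (dL Z Y)) ∧
      (∀ c : unitInterval → (SurfaceGroup g n →* SL2), IsPath c → c 0 = X →
        (∀ w, |tr (c 1 w)| = |tr (Y w)|) →
        ∃ s, ENNReal.ofReal (2 - η) * dL X Y ≤ dL X (c s) + dL (c s) Y) := by
  obtain ⟨δ, hδ0, hδ1, hCδ, hR, hmain⟩ := exists_scale C η R hC hη
  obtain ⟨sX, sY, L, hL1, hlX, hlY, hXY, hYX, hL⟩ := h4 δ hδ0 hδ1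
  set X := fam sX with hX
  set Y := fam sY with hY
  have hL1' : (1 : ℝ) ≤ L := by exact_mod_cast hL1
  -- infinite order elements
  have hcomX : ∀ s, (fam s (com α β)) = com (fam s α) (fam s β) := by
    intro s; simp [com]
  have ordcom : ∀ m : ℕ, 0 < m → (com α β) ^ m ≠ 1 := by
    apply infinite_order X
    · rw [hX, hcomX]
      have := hκ sX
      rw [abs_of_nonpos (by linarith)]; linarith
    · intro h
      rw [hX, hcomX] at h
      have := hκ sX
      rw [h, tr_one] at this
      norm_num at this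
    · rw [hX, hcomX]
      exact com_ne_neg_one _ _ (hz sX)
  have ordα : ∀ m : ℕ, 0 < m → α ^ m ≠ 1 := by
    have h2 := two_lt_of_th_pos _ (hα0 sX)
    apply infinite_order X _ h2.le
    · intro h
      rw [← hX, h, tr_one] at h2
      norm_num at h2
    · intro h
      rw [← hX, h, tr_neg_one] at h2
      norm_num at h2
  -- collar along paths
  have hpath : ∀ c : unitInterval → (SurfaceGroup g n →* SL2), IsPath c → c 0 = X → ∀ s,
      ¬ (th (c s α) ≤ 1 / 2 ∧ th (c s β) ≤ 1 / 2) := by
    intro c hcp hc0 s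
    have hcom : ∀ s, (c s (com α β)) = com (c s α) (c s β) := by
      intro s; simp [com]
    apply collar
    · exact two_le_tr _ (hcp.1 s) α ordα
    · rw [← hcom]
      apply path_kappa (fun s => tr (c s (com α β))) (continuous_tr.comp (hcp.2 _))
        (fun s => two_le_tr _ (hcp.1 s) _ ordcom) 0
      simp only [hc0]
      rw [hX, hcomX]
      exact hκ sX
  -- the path inside the family
  have hjoin : JoinedBy X Y := by
    refine ⟨fun t => fam (sX + t * (sY - sX)), ⟨fun s => hT _, fun w => ?_⟩, ?_, ?_⟩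
    · exact (hc w).comp (by fun_prop)
    · simp [hX]
    · simp [hY]
  have hYα : 1 / 2 < th (Y α) := by
    obtain ⟨c, hcp, h0, h1⟩ := hjoin
    have := hpath c hcp h0 1
    rw [h1] at this
    by_contra hcon
    push Not at hcon
    exact this ⟨hcon, by linarith⟩
  -- lower bounds
  have hr0 : 0 < 1 / (2 * (C * δ)) := by positivity
  have lowα : ∀ Z : SurfaceGroup g n →* SL2, 1 / 2 ≤ th (Z α) →
      ENNReal.ofReal (Real.log (1 / (2 * (C * δ)))) ≤ dL X Z := by
    intro Z hZ
    apply le_dL X Z α hα _ hr0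
    left
    rw [len_eq, len_eq, div_le_div_iff₀ (by positivity) (by have := hα0 sX; positivity)]
    nlinarith [hα0 sX]
  have lowβ : ∀ Z : SurfaceGroup g n →* SL2, 1 / 2 ≤ th (Z β) →
      ENNReal.ofReal (Real.log (1 / (2 * (C * δ)))) ≤ dL Z Y := by
    intro Z hZ
    apply le_dL Z Y β hβ _ hr0
    right
    rw [len_eq, len_eq, div_le_div_iff₀ (by positivity) (by have := hβ0 sY; positivity)]
    nlinarith [hβ0 sY]
  -- upper bound
  have hup : dL X Y ≤ ENNReal.ofReal (Real.log L) := dL_le X Y L hL1' hXY hYX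
  have hlogL : Real.log L ≤ Real.log (C * (1 + Real.log (1 / δ)) / δ) :=
    Real.log_le_log (by linarith) hL
  have hlogL0 : 0 ≤ Real.log L := Real.log_nonneg hL1'
  have hlr : 0 ≤ Real.log (1 / (2 * (C * δ))) := by
    apply Real.log_nonneg
    rw [le_div_iff₀ (by positivity)]
    linarith
  have main2 : ENNReal.ofReal (2 - η) * dL X Y ≤
      ENNReal.ofReal (2 * Real.log (1 / (2 * (C * δ)))) := by
    rcases le_total (2 - η) 0 with h | h
    · rw [ENNReal.ofReal_of_nonpos h, zero_mul]; exact bot_le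
    · calc ENNReal.ofReal (2 - η) * dL X Y ≤
            ENNReal.ofReal (2 - η) * ENNReal.ofReal (Real.log L) := by gcongr
        _ = ENNReal.ofReal ((2 - η) * Real.log L) := (ENNReal.ofReal_mul h).symm
        _ ≤ _ := by
          apply ENNReal.ofReal_le_ofReal
          exact le_trans (mul_le_mul_of_nonneg_left hlogL h) hmain
  have main1 : ENNReal.ofReal (1 - η) * dL X Y ≤
      ENNReal.ofReal (Real.log (1 / (2 * (C * δ)))) := by
    rcases le_total (1 - η) 0 with h | h
    · rw [ENNReal.ofReal_of_nonpos h, zero_mul]; exact bot_le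
    · calc ENNReal.ofReal (1 - η) * dL X Y ≤
            ENNReal.ofReal (1 - η) * ENNReal.ofReal (Real.log L) := by gcongr
        _ = ENNReal.ofReal ((1 - η) * Real.log L) := (ENNReal.ofReal_mul h).symm
        _ ≤ _ := by
          apply ENNReal.ofReal_le_ofReal
          have h1 : (2 - η) * Real.log L ≤ 2 * Real.log (1 / (2 * (C * δ))) :=
            le_trans (mul_le_mul_of_nonneg_left hlogL (by linarith)) hmain
          nlinarith
  refine ⟨X, hT sX, Y, hT sY, ?_, lt_of_le_of_lt hup ENNReal.ofReal_lt_top, hjoin, ?_, ?_⟩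
  · refine le_trans (ENNReal.ofReal_le_ofReal hR) (lowα Y hYα.le)
  · rintro Z ⟨c, hcp, h0, h1⟩
    refine le_trans main1 ?_
    have h2 := hpath c hcp h0 1
    rw [h1] at h2
    by_cases h3 : th (Z α) ≤ 1 / 2
    · have h5 : 1 / 2 < th (Z β) := by
        by_contra hcon
        push Not at hcon
        exact h2 ⟨h3, hcon⟩
      exact le_trans (lowβ Z h5.le) (le_max_right _ _)
    · push Not at h3
      exact le_trans (lowα Z h3.le) (le_max_left _ _)
  · intro c hcp h0 h1
    have hcont : Continuous fun s => th (c s α) := continuous_th.comp (hcp.2 α)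
    have e0 : th (c 0 α) ≤ 1 / 2 := by rw [h0]; linarith
    have e1 : 1 / 2 ≤ th (c 1 α) := by
      rw [th_congr _ _ (h1 α)]; exact hYα.le
    obtain ⟨s, hs⟩ := intermediate_value_univ 0 1 hcont ⟨e0, e1⟩
    refine ⟨s, le_trans main2 ?_⟩
    have h5 : 1 / 2 ≤ th (c s β) := by
      by_contra hcon
      push Not at hcon
      exact hpath c hcp h0 s ⟨hs.le, hcon.le⟩
    have h6 := lowα (c s) hs.ge
    have h7 := lowβ (c s) h5
    rw [two_mul, ENNReal.ofReal_add hlr hlr]
    exact add_le_add h6 h7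

end Pool.Agent.Lib.MP731498
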