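import Mathlib

set_option autoImplicit false

namespace Pool.Agent.Lib.MP731498

open CoxeterSystem

/-- Chebyshev polynomials of the second kind, `U c k = sinh ((k+1) d) / sinh d` for `c = cosh d`. -/
def U (c : ℝ) : ℕ → ℝ
  | 0 => 1
  | 1 => 2 * c
  | (k + 2) => 2 * c * U c (k + 1) - U c k

/-- the shifted sequence -/
def U' (c : ℝ) : ℕ → ℝ
  | 0 => 0
  | (k + 1) => U c k

theorem U_succ (c : ℝ) (k : ℕ) : U c (k + 1) = 2 * c * U c k - U' c k := by
  cases k with
  | zero => simp [U, U']
  | succ k => simp [U, U']

theorem U_nonneg_mono (c : ℝ) (hc : 1 ≤ c) (k : ℕ) : 0 ≤ U' c k ∧ U' c k ≤ U c k := by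
  induction k with
  | zero => simp [U, U']
  | succ k ih =>
    obtain ⟨h1, h2⟩ := ih
    have h3 : U' c (k + 1) = U c k := rfl
    rw [h3, U_succ]
    have h4 : 0 ≤ U c k := le_trans h1 h2
    refine ⟨h4, ?_⟩
    nlinarith

theorem U'_nonneg (c : ℝ) (hc : 1 ≤ c) (k : ℕ) : 0 ≤ U' c k := (U_nonneg_mono c hc k).1

theorem U_nonneg (c : ℝ) (hc : 1 ≤ c) (k : ℕ) : 0 ≤ U c k :=
  le_trans (U'_nonneg c hc k) (U_nonneg_mono c hc k).2

theorem U_le_pow (c : ℝ) (hc : 1 ≤ c) (k : ℕ) : U c k ≤ (2 * c) ^ k := by
  induction k with
  | zero => simp [U]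
  | succ k ih =>
    rw [U_succ, pow_succ]
    have := U'_nonneg c hc k
    nlinarith

theorem pow_le_U (c x : ℝ) (hx : 1 ≤ x) (hc : x + x⁻¹ ≤ 2 * c) (k : ℕ) :
    0 ≤ U' c k ∧ x * U' c k ≤ U c k ∧ x ^ k ≤ U c k := by
  have hx0 : 0 < x := by linarith
  induction k with
  | zero => simp [U, U']
  | succ k ih =>
    obtain ⟨h0, h1, h2⟩ := ih
    have h3 : U' c (k + 1) = U c k := rfl
    have h4 : 0 < U c k := lt_of_lt_of_le (pow_pos hx0 k) h2
    have h5 : x * U c k ≤ U c (k + 1) := by
      rw [U_succ]
      have h6 : (x + x⁻¹) * U c k ≤ 2 * c * U c k := mul_le_mul_of_nonneg_right hc h4.le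
      have h7 : U' c k ≤ x⁻¹ * U c k := by
        rw [inv_mul_eq_div, le_div_iff₀ hx0]; linarith
      linarith
    refine ⟨by rw [h3]; exact h4.le, by rw [h3]; exact h5, ?_⟩
    rw [pow_succ]
    nlinarith

section Rep

variable {I : Type*} [Fintype I] [DecidableEq I]

/-- Right-angled Coxeter data with Gram matrix `-c`. -/
structure RA (M : CoxeterMatrix I) (c : I → I → ℝ) : Prop where
  symm : ∀ i j, c i j = c j i
  diag : ∀ i, c i i = -1
  off : ∀ i j, i ≠ j → (M i j = 2 ∧ c i j = 0) ∨ (M i j = 0 ∧ 1 ≤ c i j)

/-- the reflection -/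
def refl (c : I → I → ℝ) (i : I) : Module.End ℝ (I → ℝ) where
  toFun v := v + (∑ j, 2 * c i j * v j) • (Pi.single i 1 : I → ℝ)
  map_add' v w := by
    simp only [Pi.add_apply, mul_add, Finset.sum_add_distrib, add_smul]
    abel
  map_smul' a v := by
    simp only [Pi.smul_apply, smul_eq_mul, RingHom.id_apply, smul_add, smul_smul]
    congr 2
    rw [Finset.mul_sum]
    apply Finset.sum_congr rfl
    intro j _
    ring

theorem refl_apply (c : I → I → ℝ) (i : I) (v : I → ℝ) :
    refl c i v = v + (∑ j, 2 * c i j * v j) • (Pi.single i 1 : I → ℝ) := rfl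

theorem refl_single (c : I → I → ℝ) (i j : I) :
    refl c i (Pi.single j 1) = Pi.single j 1 + (2 * c i j) • (Pi.single i 1 : I → ℝ) := by
  rw [refl_apply]
  congr 2
  simp [Pi.single_apply]

theorem refl_sq (c : I → I → ℝ) (i : I) (hc : c i i = -1) : refl c i * refl c i = 1 := by
  apply LinearMap.pi_ext'
  intro j
  apply LinearMap.ext_ring
  simp only [LinearMap.comp_apply, LinearMap.single_apply, Module.End.mul_apply, Module.End.one_apply]
  rw [refl_single, map_add, map_smul, refl_single, refl_single, hc]
  module

theorem refl_comm (c : I → I → ℝ) (i j : I) (h1 : c i j = 0) (h2 : c j i = 0) :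
    refl c i * refl c j = refl c j * refl c i := by
  apply LinearMap.pi_ext'
  intro k
  apply LinearMap.ext_ring
  simp only [LinearMap.comp_apply, LinearMap.single_apply, Module.End.mul_apply]
  rw [refl_single, refl_single, map_add, map_smul, map_add, map_smul, refl_single, refl_single,
    refl_single, refl_single, h1, h2]
  module

theorem liftable {M : CoxeterMatrix I} {c : I → I → ℝ} (h : RA M c) : M.IsLiftable (refl c) := by
  intro i j
  by_cases hij : i = j
  · subst hij
    rw [M.diagonal, pow_one, refl_sq c i (h.diag i)]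
  · rcases h.off i j hij with ⟨h1, h2⟩ | ⟨h1, _⟩
    · rw [h1, pow_two, mul_assoc, ← mul_assoc (refl c j),
        refl_comm c j i (by rw [h.symm, h2]) h2, mul_assoc (refl c i),
        refl_sq c j (h.diag j), mul_one, refl_sq c i (h.diag i)]
    · rw [h1, pow_zero]

variable {W : Type*} [Group W] {M : CoxeterMatrix I} (cs : CoxeterSystem M W)

/-- The geometric representation. -/
noncomputable def rep {c : I → I → ℝ} (h : RA M c) : W →* Module.End ℝ (I → ℝ) :=
  cs.lift ⟨refl c, liftable h⟩

theorem rep_simple {c : I → I → ℝ} (h : RA M c) (i : I) : rep cs h (cs.simple i) = refl c i :=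
  cs.lift_apply_simple (liftable h) i

/-- the root `w e_i` -/
noncomputable def root {c : I → I → ℝ} (h : RA M c) (w : W) (i : I) : I → ℝ :=
  rep cs h w (Pi.single i 1)

theorem root_one {c : I → I → ℝ} (h : RA M c) (i : I) :
    root cs h 1 i = Pi.single i 1 := by
  simp [root]

theorem root_mul_simple {c : I → I → ℝ} (h : RA M c) (w : W) (i j : I) :
    root cs h (w * cs.simple i) j = root cs h w j + (2 * c i j) • root cs h w i := by
  simp only [root]
  rw [map_mul, Module.End.mul_apply, rep_simple, refl_single, map_add, map_smul]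

theorem root_mul_simple_self {c : I → I → ℝ} (h : RA M c) (w : W) (i : I) :
    root cs h (w * cs.simple i) i = - root cs h w i := by
  rw [root_mul_simple, h.diag]
  module

/-- action of alternating words on `e_s` -/
theorem root_alt {c : I → I → ℝ} (h : RA M c) (v : W) (s t : I) (k : ℕ) :
    root cs h (v * cs.wordProd (alternatingWord s t k)) s =
      U (c s t) k • root cs h v (if Even k then s else t) +
      U' (c s t) k • root cs h v (if Even k then t else s) := by
  induction k generalizing v with
  | zero => simp [alternatingWord, U, U']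
  | succ k ih =>
    rw [alternatingWord_succ', cs.wordProd_cons, ← mul_assoc, ih]
    have hU' : U' (c s t) (k + 1) = U (c s t) k := rfl
    have hU := U_succ (c s t) k
    by_cases hk : Even k
    · have hk' : ¬ Even (k + 1) := by simpa [Nat.even_add_one] using hk
      simp only [hk, hk', if_true, if_false]
      rw [root_mul_simple, root_mul_simple_self, h.symm t s, hU', hU]
      module
    · have hk' : Even (k + 1) := by simpa [Nat.even_add_one] using hk
      simp only [hk, hk', if_true, if_false]
      rw [root_mul_simple, root_mul_simple_self, hU', hU]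
      module

theorem exists_alt_decomp (w : W) (s t : I) (ht : cs.IsRightDescent w t)
    (hs : ¬ cs.IsRightDescent w s) :
    ∃ (v : W) (k : ℕ), 1 ≤ k ∧ w = v * cs.wordProd (alternatingWord s t k) ∧
      cs.length v + k = cs.length w ∧ ¬ cs.IsRightDescent v s ∧ ¬ cs.IsRightDescent v t := by
  classical
  let P : ℕ → Prop := fun k => ∃ v, w = v * cs.wordProd (alternatingWord s t k) ∧
    cs.length v + k = cs.length w
  have hP1 : P 1 := by
    refine ⟨w * cs.simple t, ?_, (cs.isRightDescent_iff).1 ht⟩
    simp [alternatingWord]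
  have hPn : ¬ P (cs.length w + 1) := by
    rintro ⟨v, _, hv⟩
    omega
  obtain ⟨k, hk1, hPk, hPk1⟩ : ∃ k, 1 ≤ k ∧ P k ∧ ¬ P (k + 1) := by
    by_contra hcon
    push Not at hcon
    have : ∀ k, 1 ≤ k → P k := by
      intro k hk
      induction k, hk using Nat.le_induction with
      | base => exact hP1
      | succ k hk ih => exact hcon k hk ih
    exact hPn (this _ (by omega))
  obtain ⟨v, hv, hl⟩ := hPk
  have h1 : ¬ cs.IsRightDescent v (if Even k then t else s) := by
    intro hd
    apply hPk1
    refine ⟨v * cs.simple (if Even k then t else s), ?_, ?_⟩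
    · rw [alternatingWord_succ', cs.wordProd_cons, ← mul_assoc, mul_assoc v,
        cs.simple_mul_simple_self, mul_one, hv]
    · have := (cs.isRightDescent_iff).1 hd
      omega
  have h2 : ¬ cs.IsRightDescent v (if Even k then s else t) := by
    intro hd
    obtain ⟨m, rfl⟩ : ∃ m, k = m + 1 := ⟨k - 1, by omega⟩
    have he : (if Even (m + 1) then s else t) = (if Even m then t else s) := by
      by_cases hm : Even m
      · have : ¬ Even (m + 1) := by simpa [Nat.even_add_one] using hm
        simp [hm]
      · have : Even (m + 1) := by simpa [Nat.even_add_one] using hm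
        simp [hm, this]
    rw [he] at hd
    have hw : w = v * cs.simple (if Even m then t else s) *
        cs.wordProd (alternatingWord s t m) := by
      rw [hv, alternatingWord_succ', cs.wordProd_cons, mul_assoc]
    have h3 := (cs.isRightDescent_iff).1 hd
    have h4 := cs.length_mul_le (v * cs.simple (if Even m then t else s))
      (cs.wordProd (alternatingWord s t m))
    have h5 := cs.length_wordProd_le (alternatingWord s t m)
    rw [length_alternatingWord] at h5
    rw [← hw] at h4
    omega
  refine ⟨v, k, hk1, hv, hl, ?_, ?_⟩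
  · by_cases hk : Even k
    · simpa [hk] using h2
    · simpa [hk] using h1
  · by_cases hk : Even k
    · simpa [hk] using h1
    · simpa [hk] using h2

/-- Tits' positivity theorem together with the comparison of two geometric representations. -/
theorem main_ineq {c c' : I → I → ℝ} (h : RA M c) (h' : RA M c') (L : ℕ) (hL : 1 ≤ L)
    (hU : ∀ i j, i ≠ j → M i j = 0 → ∀ k, U (c' i j) k ≤ (U (c i j) k) ^ L) :
    ∀ n, ∀ w : W, cs.length w = n → ∀ s, ¬ cs.IsRightDescent w s →
      ∀ j, 0 ≤ root cs h w s j ∧ 0 ≤ root cs h' w s j ∧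
        root cs h' w s j ≤ (root cs h w s j) ^ L := by
  intro n
  induction n using Nat.strong_induction_on with
  | _ n ih =>
  intro w hw s hs j
  by_cases hn : n = 0
  · have hw1 : w = 1 := by rw [← cs.length_eq_zero_iff, hw, hn]
    subst hw1
    rw [root_one, root_one]
    by_cases hj : j = s
    · subst hj; simp
    · simp [Pi.single_apply, hj]
  · have hw1 : w ≠ 1 := by
      intro h1
      rw [h1, cs.length_one] at hw
      exact hn hw.symm
    obtain ⟨t, ht⟩ := cs.exists_rightDescent_of_ne_one hw1
    have hst : s ≠ t := by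
      rintro rfl
      exact hs ht
    rcases h.off s t hst with ⟨hM, hc⟩ | ⟨hM, hc⟩
    · -- commuting case
      have hM' : M t s = 2 := by rw [M.symmetric]; exact hM
      have hc1 : c t s = 0 := by rw [h.symm]; exact hc
      have hc1' : c' t s = 0 := by
        rcases h'.off t s hst.symm with ⟨_, h2⟩ | ⟨h1, _⟩
        · exact h2
        · rw [hM'] at h1; omega
      obtain ⟨v, hv⟩ : ∃ v, v = w * cs.simple t := ⟨_, rfl⟩
      have hwv : w = v * cs.simple t := by simp [hv]
      have hlv : cs.length v + 1 = n := by
        rw [← hw, hv]; exact (cs.isRightDescent_iff).1 ht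
      have hvs : ¬ cs.IsRightDescent v s := by
        intro hd
        have h3 := (cs.isRightDescent_iff).1 hd
        have hcomm : cs.simple s * cs.simple t = cs.simple t * cs.simple s := by
          have h4 := cs.simple_mul_simple_pow s t
          rw [hM, pow_two] at h4
          have h5 : (cs.simple s * cs.simple t)⁻¹ = cs.simple s * cs.simple t :=
            inv_eq_of_mul_eq_one_left h4
          rw [mul_inv_rev, cs.inv_simple, cs.inv_simple] at h5
          exact h5.symm
        have h6 : w * cs.simple s = v * cs.simple s * cs.simple t := by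
          rw [hwv, mul_assoc, mul_assoc, hcomm]
        have h7 := cs.length_mul_le (v * cs.simple s) (cs.simple t)
        rw [cs.length_simple, ← h6] at h7
        apply hs
        rw [IsRightDescent]
        omega
      have e1 : root cs h w s = root cs h v s := by
        rw [hwv, root_mul_simple, hc1]; simp
      have e2 : root cs h' w s = root cs h' v s := by
        rw [hwv, root_mul_simple, hc1']; simp
      rw [e1, e2]
      exact ih (n - 1) (by omega) v (by omega) s hvs j
    · -- free case
      have hc' : 1 ≤ c' s t := by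
        rcases h'.off s t hst with ⟨h1, _⟩ | ⟨_, h2⟩
        · rw [hM] at h1; omega
        · exact h2
      obtain ⟨v, k, hk1, hwv, hlv, hvs, hvt⟩ := exists_alt_decomp cs w s t ht hs
      have hx : ¬ cs.IsRightDescent v (if Even k then s else t) := by
        split_ifs
        · exact hvs
        · exact hvt
      have hx' : ¬ cs.IsRightDescent v (if Even k then t else s) := by
        split_ifs
        · exact hvt
        · exact hvs
      obtain ⟨a1, a2, a3⟩ := ih (cs.length v) (by omega) v rfl _ hx j
      obtain ⟨b1, b2, b3⟩ := ih (cs.length v) (by omega) v rfl _ hx' j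
      have e1 : root cs h w s j = U (c s t) k * root cs h v (if Even k then s else t) j +
          U' (c s t) k * root cs h v (if Even k then t else s) j := by
        rw [hwv, root_alt]; simp
      have e2 : root cs h' w s j = U (c' s t) k * root cs h' v (if Even k then s else t) j +
          U' (c' s t) k * root cs h' v (if Even k then t else s) j := by
        rw [hwv, root_alt]; simp
      have u1 := U_nonneg (c s t) hc k
      have u2 := U'_nonneg (c s t) hc k
      have u3 := U_nonneg (c' s t) hc' k
      have u4 := U'_nonneg (c' s t) hc' k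
      have u5 := hU s t hst hM k
      have u6 : U' (c' s t) k ≤ (U' (c s t) k) ^ L := by
        cases k with
        | zero => omega
        | succ k => exact hU s t hst hM k
      rw [e1, e2]
      refine ⟨by positivity, by positivity, ?_⟩
      calc _ ≤ (U (c s t) k) ^ L * (root cs h v (if Even k then s else t) j) ^ L +
            (U' (c s t) k) ^ L * (root cs h v (if Even k then t else s) j) ^ L := by
            apply add_le_add
            · exact mul_le_mul u5 a3 a2 (by positivity)
            · exact mul_le_mul u6 b3 b2 (by positivity)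
        _ = (U (c s t) k * root cs h v (if Even k then s else t) j) ^ L +
            (U' (c s t) k * root cs h v (if Even k then t else s) j) ^ L := by
            rw [mul_pow, mul_pow]
        _ ≤ _ := pow_add_pow_le (by positivity) (by positivity) (by omega)

theorem root_nonneg {c : I → I → ℝ} (h : RA M c) (w : W) (s : I)
    (hs : ¬ cs.IsRightDescent w s) (j : I) : 0 ≤ root cs h w s j :=
  (main_ineq cs h h 1 le_rfl (fun _ _ _ _ _ => by simp) _ w rfl s hs j).1

theorem root_nonpos {c : I → I → ℝ} (h : RA M c) (w : W) (s : I)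
    (hs : cs.IsRightDescent w s) (j : I) : root cs h w s j ≤ 0 := by
  have h1 := (cs.isRightDescent_iff_not_isRightDescent_mul).1 hs
  have h2 := root_nonneg cs h _ s h1 j
  rw [root_mul_simple_self] at h2
  simpa using h2

/-- comparison of the absolute values of the coefficients -/
theorem abs_root_le {c c' : I → I → ℝ} (h : RA M c) (h' : RA M c') (L : ℕ) (hL : 1 ≤ L)
    (hU : ∀ i j, i ≠ j → M i j = 0 → ∀ k, U (c' i j) k ≤ (U (c i j) k) ^ L)
    (w : W) (s j : I) : |root cs h' w s j| ≤ |root cs h w s j| ^ L := by
  by_cases hs : cs.IsRightDescent w s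
  · have h1 := (cs.isRightDescent_iff_not_isRightDescent_mul).1 hs
    obtain ⟨a1, a2, a3⟩ := main_ineq cs h h' L hL hU _ _ rfl s h1 j
    rw [root_mul_simple_self] at a1 a3
    rw [root_mul_simple_self] at a2 a3
    have b1 : root cs h w s j ≤ 0 := by simpa using a1
    have b2 : root cs h' w s j ≤ 0 := by simpa using a2
    rw [abs_of_nonpos b1, abs_of_nonpos b2]
    simpa using a3
  · obtain ⟨a1, a2, a3⟩ := main_ineq cs h h' L hL hU _ _ rfl s hs j
    rw [abs_of_nonneg a1, abs_of_nonneg a2]
    exact a3

/-- the inequality for `U` used in the comparison -/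
theorem hU_of_bounds (c c' δ : ℝ) (L : ℕ) (hL : 1 ≤ L) (hδ : 0 ≤ δ) (hc' : 1 ≤ c')
    (h : (c = 1 ∧ c' = 1) ∨ (Real.cosh δ ≤ c ∧ 2 * c' ≤ Real.exp (δ * L))) (k : ℕ) :
    U c' k ≤ (U c k) ^ L := by
  rcases h with ⟨rfl, rfl⟩ | ⟨h1, h2⟩
  · have h0 := pow_le_U 1 1 le_rfl (by norm_num) k
    have h1 : 1 ≤ U 1 k := by simpa using h0.2.2
    exact le_self_pow₀ h1 (by omega)
  · have h3 : Real.exp δ + (Real.exp δ)⁻¹ ≤ 2 * c := by
      rw [← Real.exp_neg]
      have := Real.cosh_eq δ
      linarith
    have h4 := (pow_le_U c (Real.exp δ) (Real.one_le_exp hδ) h3 k).2.2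
    calc U c' k ≤ (2 * c') ^ k := U_le_pow c' hc' k
      _ ≤ (Real.exp (δ * L)) ^ k := pow_le_pow_left₀ (by linarith) h2 k
      _ = ((Real.exp δ) ^ k) ^ L := by
          rw [← Real.exp_nat_mul, ← Real.exp_nat_mul, ← Real.exp_nat_mul]
          congr 1
          ring
      _ ≤ (U c k) ^ L := pow_le_pow_left₀ (by positivity) h4 L

end Rep

end Pool.Agent.Lib.MP731498
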