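import Mathlib
import Pool.Agent.Lib.MP731498.Tits
import Pool.Agent.Lib.MP731498.Growth

set_option autoImplicit false

namespace Pool.Agent.Lib.MP731498

open Matrix

section Datum

variable {I : Type*} [Fintype I] [DecidableEq I]

/-- Reflections in the sides of a right-angled hyperbolic polygon (ideal vertices allowed). -/
structure Datum (M : CoxeterMatrix I) where
  c : I → I → ℝ
  ra : RA M c
  R : I → M2
  trace0 : ∀ i, (R i).trace = 0
  gram : ∀ i j, (R i * R j).trace = -2 * c i j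
  v : M2
  pos : ∀ i, 0 < (v * R i).trace
  al : I → ℝ
  bt : I → ℝ
  hal : ∑ i, al i • R i = !![0, 1; 0, 0]
  hbt : ∑ i, bt i • R i = !![0, 0; 1, 0]

variable {M : CoxeterMatrix I} (D : Datum M)

/-- `XY + YX = tr(XY)` for trace zero matrices -/
theorem anti (X Y : M2) (hX : X.trace = 0) (hY : Y.trace = 0) :
    X * Y + Y * X = (X * Y).trace • (1 : M2) := by
  simp only [Matrix.trace, Matrix.diag_apply, Fin.sum_univ_two] at hX hY ⊢
  have h1 : X 1 1 = -X 0 0 := by linarith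
  have h2 : Y 1 1 = -Y 0 0 := by linarith
  ext i j
  fin_cases i <;> fin_cases j <;>
    simp [Matrix.mul_apply, Fin.sum_univ_two, h1, h2] <;> ring

theorem Datum.sq (i : I) : D.R i * D.R i = 1 := by
  have h := anti (D.R i) (D.R i) (D.trace0 i) (D.trace0 i)
  rw [D.gram, D.ra.diag] at h
  have h2 : (2 : ℝ) • (D.R i * D.R i) = (2 : ℝ) • (1 : M2) := by
    rw [two_smul, h]; norm_num
  exact smul_right_injective M2 (by norm_num : (2 : ℝ) ≠ 0) h2

theorem Datum.det (i : I) : (D.R i).det = -1 := by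
  have h1 := D.sq i
  have h0 := D.trace0 i
  simp only [Matrix.trace, Matrix.diag_apply, Fin.sum_univ_two] at h0
  have h2 := congrFun (congrFun h1 0) 0
  simp only [Matrix.mul_apply, Fin.sum_univ_two, Matrix.one_apply_eq] at h2
  rw [Matrix.det_fin_two]
  have h3 : D.R i 1 1 = -D.R i 0 0 := by linarith
  rw [h3]
  linarith

/-- linear map to matrices -/
noncomputable def Datum.pi : (I → ℝ) →ₗ[ℝ] M2 := Fintype.linearCombination ℝ D.R

theorem Datum.pi_apply (x : I → ℝ) : D.pi x = ∑ i, x i • D.R i :=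
  Fintype.linearCombination_apply ℝ D.R x

theorem Datum.pi_single (i : I) : D.pi (Pi.single i 1) = D.R i := by
  rw [D.pi_apply]
  simp [Pi.single_apply]

theorem Datum.pi_trace (x : I → ℝ) : (D.pi x).trace = 0 := by
  rw [D.pi_apply, Matrix.trace_sum]
  simp [D.trace0]

theorem Datum.pi_refl (i : I) (x : I → ℝ) :
    D.pi (refl D.c i x) = -(D.R i * D.pi x * D.R i) := by
  have h1 := anti (D.R i) (D.pi x) (D.trace0 i) (D.pi_trace x)
  have h2 : (D.R i * D.pi x).trace = -(∑ j, 2 * D.c i j * x j) := by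
    rw [D.pi_apply, Finset.mul_sum, Matrix.trace_sum, ← Finset.sum_neg_distrib]
    apply Finset.sum_congr rfl
    intro j _
    rw [mul_smul_comm, Matrix.trace_smul, D.gram, smul_eq_mul]
    ring
  have h3 : D.R i * D.pi x = (D.R i * D.pi x).trace • (1 : M2) - D.pi x * D.R i := by
    rw [← h1]; abel
  rw [h3, sub_mul, smul_mul_assoc, one_mul, mul_assoc, D.sq, mul_one, h2, refl_apply, map_add,
    map_smul, D.pi_single]
  module

variable {W : Type*} [Group W] (cs : CoxeterSystem M W) {G : Type*} [Group G]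

/-- compatibility of a representation in `SL2` with the geometric representation -/
def Compat (φ : G →* W) (ρ : G →* SL2) : Prop :=
  ∀ γ i, D.pi (root cs D.ra (φ γ) i) = (ρ γ).1 * D.R i * ((ρ γ)⁻¹ : SL2).1

/-- the functional -/
noncomputable def Datum.f (P : SL2) (i : I) : ℝ := (D.v * (P.1 * D.R i * (P⁻¹ : SL2).1)).trace

theorem Datum.trace_pi (x : I → ℝ) : (D.v * D.pi x).trace = ∑ j, x j * (D.v * D.R j).trace := by
  rw [D.pi_apply, Finset.mul_sum, Matrix.trace_sum]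
  apply Finset.sum_congr rfl
  intro j _
  rw [mul_smul_comm, Matrix.trace_smul, smul_eq_mul]

variable {φ : G →* W} {ρ : G →* SL2}

theorem eq_one_of_pos (h : Compat D cs φ ρ) (γ : G) (hγ : ∀ i, 0 < D.f (ρ γ) i) : φ γ = 1 := by
  by_contra hne
  obtain ⟨i, hi⟩ := cs.exists_rightDescent_of_ne_one hne
  have h1 := root_nonpos cs D.ra _ i hi
  have h2 := hγ i
  rw [Datum.f, ← h γ i, D.trace_pi] at h2
  have h3 : ∑ j, root cs D.ra (φ γ) i j * (D.v * D.R j).trace ≤ 0 :=
    Finset.sum_nonpos fun j _ => mul_nonpos_of_nonpos_of_nonneg (h1 j) (D.pos j).le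
  linarith

theorem f_one (i : I) : 0 < D.f 1 i := by
  simp only [Datum.f, inv_one, Matrix.SpecialLinearGroup.coe_one, one_mul, mul_one]
  exact D.pos i

theorem faithful (h : Compat D cs φ ρ) (hφ : Function.Injective φ) (γ : G)
    (hγ : ρ γ = 1 ∨ ρ γ = -1) : γ = 1 := by
  apply hφ
  rw [map_one]
  apply eq_one_of_pos D cs h
  intro i
  rcases hγ with hγ | hγ
  · rw [hγ]; exact f_one D i
  · rw [hγ]
    have h1 : ((-1 : SL2)⁻¹ : SL2).1 = (-1 : M2) := by
      rw [SL2_inv_coe]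
      ext i j
      fin_cases i <;> fin_cases j <;> simp [Matrix.SpecialLinearGroup.coe_neg]
    have h2 : (-1 : SL2).1 = (-1 : M2) := by
      rw [Matrix.SpecialLinearGroup.coe_neg, Matrix.SpecialLinearGroup.coe_one]
    rw [Datum.f, h1, h2]
    simp only [neg_mul, one_mul, mul_neg, mul_one, neg_neg]
    exact D.pos i

theorem continuous_coe : Continuous (fun P : SL2 => P.1) := continuous_subtype_val

theorem continuous_f (i : I) : Continuous (fun P : SL2 => D.f P i) := by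
  unfold Datum.f
  have h1 : Continuous (fun P : SL2 => (P⁻¹ : SL2).1) := continuous_coe.comp continuous_inv
  have h2 := continuous_coe
  exact ((continuous_const.matrix_mul ((h2.matrix_mul continuous_const).matrix_mul h1))).matrix_trace

theorem discrete (h : Compat D cs φ ρ) (hφ : Function.Injective φ) :
    DiscreteTopology ρ.range := by
  apply discreteTopology_of_isOpen_singleton_one
  have hopen : IsOpen {P : ρ.range | ∀ i, 0 < D.f P.1 i} := by
    rw [Set.ofPred_forall]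
    apply isOpen_iInter_of_finite
    intro i
    exact isOpen_lt continuous_const ((continuous_f D i).comp continuous_subtype_val)
  convert hopen using 1
  ext ⟨P, hP'⟩
  simp only [Set.mem_singleton_iff, Set.mem_ofPred_eq]
  constructor
  · intro h1 i
    have h2 : P = 1 := congrArg Subtype.val h1
    rw [h2]
    exact f_one D i
  · intro hP
    obtain ⟨γ, rfl⟩ := hP'
    have h1 := eq_one_of_pos D cs h γ hP
    have h2 : γ = 1 := hφ (by rw [h1, map_one])
    apply Subtype.ext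
    simp [h2]

theorem trace_sq_le (X : M2) : X.trace ^ 2 ≤ 2 * S X := by
  simp only [Matrix.trace, Matrix.diag_apply, Fin.sum_univ_two, S]
  nlinarith [sq_nonneg (X 0 0 - X 1 1), sq_nonneg (X 0 1), sq_nonneg (X 1 0)]

theorem f_sq_le (P : SL2) (i : I) : D.f P i ^ 2 ≤ 2 * S D.v * S (D.R i) * S P.1 ^ 2 := by
  have h1 := trace_sq_le (D.v * (P.1 * D.R i * (P⁻¹ : SL2).1))
  have h2 := S_mul_le D.v (P.1 * D.R i * (P⁻¹ : SL2).1)
  have h3 := S_mul_le (P.1 * D.R i) ((P⁻¹ : SL2).1)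
  have h4 := S_mul_le P.1 (D.R i)
  rw [S_inv] at h3
  have h5 : S (P.1 * D.R i * (P⁻¹ : SL2).1) ≤ S P.1 * S (D.R i) * S P.1 :=
    le_trans h3 (mul_le_mul_of_nonneg_right h4 (S_nonneg _))
  have h6 : S (D.v * (P.1 * D.R i * (P⁻¹ : SL2).1)) ≤ S D.v * (S P.1 * S (D.R i) * S P.1) :=
    le_trans h2 (mul_le_mul_of_nonneg_left h5 (S_nonneg _))
  calc D.f P i ^ 2 ≤ 2 * S (D.v * (P.1 * D.R i * (P⁻¹ : SL2).1)) := h1
    _ ≤ 2 * (S D.v * (S P.1 * S (D.R i) * S P.1)) := by linarith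
    _ = _ := by ring

/-- upper bound of the roots -/
theorem exists_upper (h : Compat D cs φ ρ) :
    ∃ C : ℝ, 0 ≤ C ∧ ∀ γ i j, |root cs D.ra (φ γ) i j| ≤ C * S (ρ γ).1 := by
  set K : ℝ := ∑ i, ∑ j, Real.sqrt (2 * S D.v * S (D.R i)) / (D.v * D.R j).trace with hK
  have hterm : ∀ i j, 0 ≤ Real.sqrt (2 * S D.v * S (D.R i)) / (D.v * D.R j).trace :=
    fun i j => div_nonneg (Real.sqrt_nonneg _) (D.pos j).le
  refine ⟨K, Finset.sum_nonneg fun i _ => Finset.sum_nonneg fun j _ => hterm i j, ?_⟩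
  intro γ i j
  have h1 : |D.f (ρ γ) i| ≤ Real.sqrt (2 * S D.v * S (D.R i)) * S (ρ γ).1 := by
    apply Real.abs_le_sqrt (f_sq_le D (ρ γ) i) |>.trans
    rw [Real.sqrt_mul (by have := S_nonneg D.v; have := S_nonneg (D.R i); positivity),
      Real.sqrt_sq (S_nonneg _)]
  have h2 : |root cs D.ra (φ γ) i j| * (D.v * D.R j).trace ≤ |D.f (ρ γ) i| := by
    have h3 : D.f (ρ γ) i = ∑ j, root cs D.ra (φ γ) i j * (D.v * D.R j).trace := by
      rw [Datum.f, ← h γ i, D.trace_pi]
    rw [h3]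
    by_cases hd : cs.IsRightDescent (φ γ) i
    · have h4 := root_nonpos cs D.ra _ i hd
      rw [abs_of_nonpos (h4 j), abs_of_nonpos
        (Finset.sum_nonpos fun j _ => mul_nonpos_of_nonpos_of_nonneg (h4 j) (D.pos j).le),
        ← Finset.sum_neg_distrib]
      have := Finset.single_le_sum (f := fun j => -(root cs D.ra (φ γ) i j * (D.v * D.R j).trace))
        (fun j _ => neg_nonneg.2 (mul_nonpos_of_nonpos_of_nonneg (h4 j) (D.pos j).le))
        (Finset.mem_univ j)
      simpa using this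
    · have h4 := root_nonneg cs D.ra _ i hd
      rw [abs_of_nonneg (h4 j), abs_of_nonneg
        (Finset.sum_nonneg fun j _ => mul_nonneg (h4 j) (D.pos j).le)]
      exact Finset.single_le_sum (f := fun j => root cs D.ra (φ γ) i j * (D.v * D.R j).trace)
        (fun j _ => mul_nonneg (h4 j) (D.pos j).le) (Finset.mem_univ j)
  have h5 : |root cs D.ra (φ γ) i j| ≤
      Real.sqrt (2 * S D.v * S (D.R i)) / (D.v * D.R j).trace * S (ρ γ).1 := by
    rw [div_mul_eq_mul_div, le_div_iff₀ (D.pos j)]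
    exact le_trans h2 h1
  refine le_trans h5 (mul_le_mul_of_nonneg_right ?_ (S_nonneg _))
  have h6 := Finset.single_le_sum (f := fun j => Real.sqrt (2 * S D.v * S (D.R i)) /
    (D.v * D.R j).trace) (fun j _ => hterm i j) (Finset.mem_univ j)
  have h7 := Finset.single_le_sum (f := fun i => ∑ j, Real.sqrt (2 * S D.v * S (D.R i)) /
    (D.v * D.R j).trace) (fun i _ => Finset.sum_nonneg fun j _ => hterm i j) (Finset.mem_univ i)
  exact le_trans h6 h7

theorem conj_E12 (P : SL2) : (P.1 * (!![0, 1; 0, 0] : M2) * (P⁻¹ : SL2).1) =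
    !![-(P.1 0 0 * P.1 1 0), P.1 0 0 ^ 2; -(P.1 1 0 ^ 2), P.1 0 0 * P.1 1 0] := by
  rw [SL2_inv_coe]
  ext i j
  fin_cases i <;> fin_cases j <;> simp [Matrix.mul_apply, Fin.sum_univ_two] <;> ring

theorem conj_E21 (P : SL2) : (P.1 * (!![0, 0; 1, 0] : M2) * (P⁻¹ : SL2).1) =
    !![P.1 0 1 * P.1 1 1, -(P.1 0 1 ^ 2); P.1 1 1 ^ 2, -(P.1 0 1 * P.1 1 1)] := by
  rw [SL2_inv_coe]
  ext i j
  fin_cases i <;> fin_cases j <;> simp [Matrix.mul_apply, Fin.sum_univ_two] <;> ring

/-- lower bound of the roots -/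
theorem exists_lower (h : Compat D cs φ ρ) :
    ∃ C : ℝ, 0 ≤ C ∧ ∀ γ (B : ℝ), (∀ i j, |root cs D.ra (φ γ) i j| ≤ B) → S (ρ γ).1 ≤ C * B := by
  have key : ∀ (a : I → ℝ) (k l : Fin 2), ∃ C : ℝ, 0 ≤ C ∧ ∀ γ (B : ℝ),
      (∀ i j, |root cs D.ra (φ γ) i j| ≤ B) →
      |((ρ γ).1 * (∑ i, a i • D.R i) * ((ρ γ)⁻¹ : SL2).1) k l| ≤ C * B := by
    intro a k l
    refine ⟨∑ i, ∑ j, |a i| * |D.R j k l|, by positivity, ?_⟩
    intro γ B hB
    have h1 : ((ρ γ).1 * (∑ i, a i • D.R i) * ((ρ γ)⁻¹ : SL2).1) =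
        ∑ i, a i • ∑ j, root cs D.ra (φ γ) i j • D.R j := by
      rw [Finset.mul_sum, Finset.sum_mul]
      apply Finset.sum_congr rfl
      intro i _
      rw [mul_smul_comm, smul_mul_assoc, ← h γ i, D.pi_apply]
    rw [h1, Matrix.sum_apply, Finset.sum_mul]
    refine le_trans (Finset.abs_sum_le_sum_abs _ _) (Finset.sum_le_sum fun i _ => ?_)
    rw [Matrix.smul_apply, Matrix.sum_apply, smul_eq_mul, abs_mul, Finset.sum_mul]
    have h2 : |∑ j, (root cs D.ra (φ γ) i j • D.R j) k l| ≤ ∑ j, B * |D.R j k l| := by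
      refine le_trans (Finset.abs_sum_le_sum_abs _ _) (Finset.sum_le_sum fun j _ => ?_)
      rw [Matrix.smul_apply, smul_eq_mul, abs_mul]
      exact mul_le_mul_of_nonneg_right (hB i j) (abs_nonneg _)
    calc |a i| * |∑ j, (root cs D.ra (φ γ) i j • D.R j) k l| ≤ |a i| * ∑ j, B * |D.R j k l| :=
          mul_le_mul_of_nonneg_left h2 (abs_nonneg _)
      _ = ∑ j, |a i| * |D.R j k l| * B := by
          rw [Finset.mul_sum]
          apply Finset.sum_congr rfl
          intro j _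
          ring
  obtain ⟨C1, hC1, k1⟩ := key D.al 0 1
  obtain ⟨C2, hC2, k2⟩ := key D.al 1 0
  obtain ⟨C3, hC3, k3⟩ := key D.bt 0 1
  obtain ⟨C4, hC4, k4⟩ := key D.bt 1 0
  refine ⟨C1 + C2 + C3 + C4, by positivity, ?_⟩
  intro γ B hB
  have e1 := k1 γ B hB
  have e2 := k2 γ B hB
  have e3 := k3 γ B hB
  have e4 := k4 γ B hB
  rw [D.hal, conj_E12] at e1 e2
  rw [D.hbt, conj_E21] at e3 e4
  simp only [Matrix.of_apply, Matrix.cons_val', Matrix.cons_val_zero, Matrix.cons_val_one,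
    Matrix.empty_val', Matrix.cons_val_fin_one, abs_neg, abs_pow, sq_abs] at e1 e2 e3 e4
  unfold S
  nlinarith

end Datum

section Compare

variable {I : Type*} [Fintype I] [DecidableEq I] {M : CoxeterMatrix I} (D D' : Datum M)
variable {W : Type*} [Group W] (cs : CoxeterSystem M W) {G : Type*} [Group G]
variable {φ : G →* W} {ρ ρ' : G →* SL2}

/-- Comparison of translation lengths. -/
theorem th_compare (h : Compat D cs φ ρ) (h' : Compat D' cs φ ρ') (L : ℕ) (hL : 1 ≤ L)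
    (hU : ∀ i j, i ≠ j → M i j = 0 → ∀ k, U (D'.c i j) k ≤ (U (D.c i j) k) ^ L) (γ : G) :
    th (ρ' γ) ≤ L * th (ρ γ) := by
  obtain ⟨C, hC0, hC⟩ := exists_upper D cs h
  obtain ⟨C', hC'0, hC'⟩ := exists_lower D' cs h'
  apply th_le_of_growth _ _ L (C' * C ^ L)
  intro m
  rw [← map_pow, ← map_pow]
  have h1 := hC' (γ ^ m) ((C * S (ρ (γ ^ m)).1) ^ L) (by
    intro i j
    refine le_trans (abs_root_le cs D.ra D'.ra L hL hU _ i j) ?_
    exact pow_le_pow_left₀ (abs_nonneg _) (hC _ i j) L)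
  rw [mul_pow] at h1
  linarith

end Compare

end Pool.Agent.Lib.MP731498
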