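import Mathlib
import Pool.Agent.Lib.MP731498.Defs

set_option autoImplicit false

namespace Pool.Agent.Lib.MP731498

section Seq

variable {H : Type*} [Group H]

/-- product of the first `k` terms -/
def pr (f : ℕ → H) (k : ℕ) : H := ((List.range k).map f).prod

@[simp] theorem pr_zero (f : ℕ → H) : pr f 0 = 1 := by simp [pr]

theorem pr_succ (f : ℕ → H) (k : ℕ) : pr f (k + 1) = pr f k * f k := by
  simp [pr, List.range_succ]

theorem pr_ofFn (f : ℕ → H) (k : ℕ) : (List.ofFn fun i : Fin k => f i).prod = pr f k := by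
  unfold pr
  rw [List.ofFn_eq_map]
  have : (List.range k).map f = ((List.finRange k).map Fin.val).map f := by
    rw [List.map_coe_finRange_eq_range]
  rw [this, List.map_map]
  rfl

theorem pr_congr (f f' : ℕ → H) (k : ℕ) (h : ∀ i < k, f i = f' i) : pr f k = pr f' k := by
  induction k with
  | zero => simp
  | succ k ih => rw [pr_succ, pr_succ, ih (fun i hi => h i (by omega)), h k (by omega)]

theorem map_pr {H' : Type*} [Group H'] (φ : H →* H') (f : ℕ → H) (k : ℕ) :
    φ (pr f k) = pr (fun i => φ (f i)) k := by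
  induction k with
  | zero => simp
  | succ k ih => rw [pr_succ, pr_succ, map_mul, ih]

theorem map_com {H' : Type*} [Group H'] (φ : H →* H') (x y : H) :
    φ (com x y) = com (φ x) (φ y) := by
  simp [com]

/-- partial product of commutators -/
def Pi (A B : ℕ → H) (k : ℕ) : H := pr (fun i => com (A i) (B i)) k

theorem Pi_succ (A B : ℕ → H) (k : ℕ) : Pi A B (k + 1) = Pi A B k * com (A k) (B k) := pr_succ _ _

@[simp] theorem Pi_zero (A B : ℕ → H) : Pi A B 0 = 1 := pr_zero _

theorem Pi_congr (A B A' B' : ℕ → H) (k : ℕ) (hA : ∀ i < k, A i = A' i) (hB : ∀ i < k, B i = B' i) :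
    Pi A B k = Pi A' B' k :=
  pr_congr _ _ _ fun i hi => by rw [hA i hi, hB i hi]

theorem map_Pi {H' : Type*} [Group H'] (φ : H →* H') (A B : ℕ → H) (k : ℕ) :
    φ (Pi A B k) = Pi (fun i => φ (A i)) (fun i => φ (B i)) k := by
  unfold Pi
  rw [map_pr]
  simp only [map_com]

/-- `b_{k-1} ⋯ b_0` -/
def be (B : ℕ → H) : ℕ → H
  | 0 => 1
  | (k + 1) => B k * be B k

theorem be_succ (B : ℕ → H) (k : ℕ) : be B (k + 1) = B k * be B k := rfl

@[simp] theorem be_zero (B : ℕ → H) : be B 0 = 1 := rfl

theorem be_congr (B B' : ℕ → H) (k : ℕ) (h : ∀ i < k, B i = B' i) : be B k = be B' k := by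
  induction k with
  | zero => rfl
  | succ k ih => rw [be_succ, be_succ, ih (fun i hi => h i (by omega)), h k (by omega)]

theorem map_be {H' : Type*} [Group H'] (φ : H →* H') (B : ℕ → H) (k : ℕ) :
    φ (be B k) = be (fun i => φ (B i)) k := by
  induction k with
  | zero => simp
  | succ k ih => rw [be_succ, be_succ, map_mul, ih]

end Seq

/-! ### Homomorphisms out of the surface group -/

section Hom

variable {H : Type*} [Group H] {g n : ℕ}

/-- values on the generators -/
def genVal (A B C : ℕ → H) : Gen g n → H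
  | Gen.a k => A k
  | Gen.b k => B k
  | Gen.c j => C j

theorem lift_relator (A B C : ℕ → H) :
    FreeGroup.lift (genVal (g := g) (n := n) A B C) (relator g n) = Pi A B g * pr C n := by
  unfold relator
  rw [map_mul, map_list_prod, map_list_prod, List.map_ofFn, List.map_ofFn]
  have h1 : (List.ofFn ((FreeGroup.lift (genVal (g := g) (n := n) A B C)) ∘ fun k : Fin g =>
      com (FreeGroup.of (Gen.a k)) (FreeGroup.of (Gen.b k)))) =
      List.ofFn fun k : Fin g => (fun i => com (A i) (B i)) (k : ℕ) := by
    congr 1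
    funext k
    simp [map_com, genVal]
  have h2 : (List.ofFn ((FreeGroup.lift (genVal (g := g) (n := n) A B C)) ∘ fun j : Fin n =>
      FreeGroup.of (Gen.c j))) = List.ofFn fun j : Fin n => C (j : ℕ) := by
    congr 1
    funext k
    simp [genVal]
  rw [h1, h2, pr_ofFn (fun i => com (A i) (B i)) g, pr_ofFn C n]
  rfl

/-- the homomorphism out of the surface group with prescribed values -/
def surfHom (A B C : ℕ → H) (h : Pi A B g * pr C n = 1) : SurfaceGroup g n →* H :=
  PresentedGroup.toGroup (f := genVal A B C) (rels := {relator g n}) (by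
    intro r hr
    rw [Set.mem_singleton_iff] at hr
    rw [hr, lift_relator, h])

variable (A B C : ℕ → H) (h : Pi A B g * pr C n = 1)

@[simp] theorem surfHom_a (k : Fin g) : surfHom A B C h (ga k) = A k := PresentedGroup.toGroup.of _
@[simp] theorem surfHom_b (k : Fin g) : surfHom A B C h (gb k) = B k := PresentedGroup.toGroup.of _
@[simp] theorem surfHom_c (k : Fin n) : surfHom A B C h (gc k) = C k := PresentedGroup.toGroup.of _

theorem hom_ext {H' : Type*} [Group H'] (φ ψ : SurfaceGroup g n →* H')
    (ha : ∀ k, φ (ga k) = ψ (ga k))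
    (hb : ∀ k, φ (gb k) = ψ (gb k)) (hc : ∀ k, φ (gc k) = ψ (gc k)) : φ = ψ := by
  apply PresentedGroup.ext
  intro x
  cases x with
  | a k => exact ha k
  | b k => exact hb k
  | c k => exact hc k

/-- induction for the surface group -/
theorem surf_closure (S : Subgroup (SurfaceGroup g n)) (ha : ∀ k, ga k ∈ S) (hb : ∀ k, gb k ∈ S)
    (hc : ∀ k, gc k ∈ S) (x : SurfaceGroup g n) : x ∈ S := by
  have h1 : Subgroup.closure (Set.range (PresentedGroup.of (rels := {relator g n}))) ≤ S := by
    rw [Subgroup.closure_le]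
    rintro _ ⟨y, rfl⟩
    cases y with
    | a k => exact ha k
    | b k => exact hb k
    | c k => exact hc k
  rw [PresentedGroup.closure_range_of] at h1
  exact h1 (Subgroup.mem_top x)

/-- the generators as sequences -/
def xa (g n : ℕ) (i : ℕ) : SurfaceGroup g n := if h : i < g then ga ⟨i, h⟩ else 1
def xb (g n : ℕ) (i : ℕ) : SurfaceGroup g n := if h : i < g then gb ⟨i, h⟩ else 1
def xc (g n : ℕ) (i : ℕ) : SurfaceGroup g n := if h : i < n then gc ⟨i, h⟩ else 1

theorem xa_fin (k : Fin g) : xa g n k = ga k := by simp [xa]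
theorem xb_fin (k : Fin g) : xb g n k = gb k := by simp [xb]
theorem xc_fin (k : Fin n) : xc g n k = gc k := by simp [xc]

theorem surf_relation (g n : ℕ) : Pi (xa g n) (xb g n) g * pr (xc g n) n = 1 := by
  have h1 : PresentedGroup.mk {relator g n} (relator g n) = 1 :=
    PresentedGroup.one_of_mem (Set.mem_singleton _)
  have h2 : (PresentedGroup.mk {relator g n}) =
      FreeGroup.lift (genVal (g := g) (n := n) (xa g n) (xb g n) (xc g n)) := by
    apply FreeGroup.ext_hom
    intro x
    rw [FreeGroup.lift_apply_of]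
    cases x with
    | a k => exact (xa_fin k).symm
    | b k => exact (xb_fin k).symm
    | c k => exact (xc_fin k).symm
  rw [h2, lift_relator] at h1
  exact h1

theorem map_xa (φ : SurfaceGroup g n →* H) (A : ℕ → H) (h : ∀ k : Fin g, φ (ga k) = A k) (i : ℕ)
    (hi : i < g) : φ (xa g n i) = A i := by
  simp only [xa, hi, dif_pos, h]

theorem map_xb (φ : SurfaceGroup g n →* H) (A : ℕ → H) (h : ∀ k : Fin g, φ (gb k) = A k) (i : ℕ)
    (hi : i < g) : φ (xb g n i) = A i := by
  simp only [xb, hi, dif_pos, h]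

theorem map_xc (φ : SurfaceGroup g n →* H) (A : ℕ → H) (h : ∀ k : Fin n, φ (gc k) = A k) (i : ℕ)
    (hi : i < n) : φ (xc g n i) = A i := by
  simp only [xc, hi, dif_pos, h]

end Hom

end Pool.Agent.Lib.MP731498
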