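import Mathlib
import Pool.Agent.Lib.MP731498.Grp

set_option autoImplicit false

namespace Pool.Agent.Lib.MP731498

/-! ### The homomorphism attached to reflections -/

section AH

variable {H : Type*} [Group H] (R : ℕ → H) (z : H) (g n : ℕ)

/-- odd elements `t_{2k+1}` -/
def sE (R : ℕ → H) (k : ℕ) : H := R 1 * R (2 * k + 1)
/-- even elements `t_{2k+2}` -/
def uE (R : ℕ → H) (k : ℕ) : H := R 0 * R (2 * k + 2)
/-- image of `a_k` -/
def AE (R : ℕ → H) (k : ℕ) : H := sE R k * uE R k * (sE R k)⁻¹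
/-- image of `b_k` -/
def BE (R : ℕ → H) (k : ℕ) : H := sE R (k + 1) * (sE R k)⁻¹
/-- auxiliary elements for the punctures -/
def DE (R : ℕ → H) (g n : ℕ) (i : ℕ) : H :=
  if i ≤ n / 2 then R 1 * R (2 * g + 1 + i) else R 0 * (R 1 * R (2 * g + 1 + (n - i))) * R 0
/-- image of `c_j` -/
def CE (R : ℕ → H) (g n : ℕ) (i : ℕ) : H := DE R g n i * (DE R g n (i + 1))⁻¹

/-- The relations satisfied by the reflections. -/
structure IsRefl (R : ℕ → H) (z : H) (g n : ℕ) : Prop where
  central : ∀ x, z * x = x * z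
  zz : z * z = 1
  sq : ∀ i, R i * R i = 1
  comm : ∀ i, i ≤ 2 * g → R i * R (i + 1) = z * (R (i + 1) * R i)
  last : Even n → R (2 * g + 1 + n / 2) * R 0 = z * (R 0 * R (2 * g + 1 + n / 2))

theorem key_rel {z x y p q : H} (hz : ∀ x, z * x = x * z) (hzz : z * z = 1) (hx : x * x = 1)
    (hy : y * y = 1) (hxy : x * y = z * (y * x)) (hpq : p * q = z * (q * p)) :
    x * (y * p) * x * (x * q) = y * (x * q) * y * (y * p) := by
  calc x * (y * p) * x * (x * q) = (x * y) * p * (x * x) * q := by group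
    _ = (x * y) * (p * q) := by rw [hx]; group
    _ = z * (y * x) * (z * (q * p)) := by rw [hxy, hpq]
    _ = z * ((y * x) * z) * (q * p) := by group
    _ = z * (z * (y * x)) * (q * p) := by rw [hz (y * x)]
    _ = (z * z) * (y * x * (q * p)) := by group
    _ = y * x * (q * p) := by rw [hzz, one_mul]
    _ = y * (x * q) * 1 * p := by group
    _ = y * (x * q) * (y * y) * p := by rw [hy]
    _ = _ := by group

variable {R z g n}

theorem IsRefl.rel1 (h : IsRefl R z g n) (k : ℕ) (hk : k < g) :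
    R 0 * sE R k * R 0 * uE R k = R 1 * uE R k * R 1 * sE R k :=
  key_rel h.central h.zz (h.sq 0) (h.sq 1) (h.comm 0 (by omega)) (h.comm (2 * k + 1) (by omega))

theorem IsRefl.rel2 (h : IsRefl R z g n) (k : ℕ) (hk : k < g) :
    R 1 * uE R k * R 1 * sE R (k + 1) = R 0 * sE R (k + 1) * R 0 * uE R k := by
  refine key_rel h.central h.zz (h.sq 1) (h.sq 0) ?_ ?_
  · have h1 := h.comm 0 (by omega)
    calc R 1 * R 0 = (z * z) * (R 1 * R 0) := by rw [h.zz, one_mul]
      _ = z * (z * (R 1 * R 0)) := by rw [mul_assoc]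
      _ = z * (R 0 * R 1) := by rw [← h1]
  · have := h.comm (2 * k + 2) (by omega)
    rw [show 2 * (k + 1) + 1 = 2 * k + 2 + 1 from by ring]
    exact this

theorem IsRefl.Pi_eq (h : IsRefl R z g n) (k : ℕ) (hk : k ≤ g) :
    Pi (AE R) (BE R) k = R 0 * sE R k * R 0 * (sE R k)⁻¹ := by
  induction k with
  | zero =>
    have h1 : sE R 0 = 1 := by simp [sE, h.sq 1]
    rw [h1, Pi_zero, mul_one, h.sq 0]; simp
  | succ k ih =>
    rw [Pi_succ, ih (by omega)]
    have h1 := h.rel1 k (by omega)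
    have h2 := h.rel2 k (by omega)
    have e1 : R 0 * sE R k * R 0 * (sE R k)⁻¹ * com (AE R k) (BE R k) =
        (R 0 * sE R k * R 0 * uE R k) * (sE R k)⁻¹ * sE R (k + 1) * (uE R k)⁻¹ *
          (sE R (k + 1))⁻¹ := by
      simp only [com, AE, BE]
      group
    rw [e1, h1]
    have e2 : R 1 * uE R k * R 1 * sE R k * (sE R k)⁻¹ * sE R (k + 1) * (uE R k)⁻¹ *
        (sE R (k + 1))⁻¹ = (R 1 * uE R k * R 1 * sE R (k + 1)) * (uE R k)⁻¹ *
        (sE R (k + 1))⁻¹ := by group
    rw [e2, h2]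
    group

theorem CE_prod (R : ℕ → H) (g n : ℕ) (k : ℕ) :
    pr (CE R g n) k = DE R g n 0 * (DE R g n k)⁻¹ := by
  induction k with
  | zero => simp
  | succ k ih => rw [pr_succ, ih, CE]; group

theorem IsRefl.last_rel (h : IsRefl R z g n) (hn : Even n) :
    R 0 * (R 1 * R (2 * g + 1 + n / 2)) * R 0 = R 1 * R (2 * g + 1 + n / 2) := by
  have h1 := h.last hn
  have h0 := h.comm 0 (by omega)
  rw [zero_add] at h0
  calc R 0 * (R 1 * R (2 * g + 1 + n / 2)) * R 0
      = R 0 * R 1 * (R (2 * g + 1 + n / 2) * R 0) := by group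
    _ = z * (R 1 * R 0) * (z * (R 0 * R (2 * g + 1 + n / 2))) := by rw [h0, h1]
    _ = z * ((R 1 * R 0) * z) * R 0 * R (2 * g + 1 + n / 2) := by group
    _ = z * (z * (R 1 * R 0)) * R 0 * R (2 * g + 1 + n / 2) := by rw [h.central (R 1 * R 0)]
    _ = (z * z) * R 1 * (R 0 * R 0) * R (2 * g + 1 + n / 2) := by group
    _ = _ := by rw [h.zz, h.sq 0]; group

theorem IsRefl.relation (h : IsRefl R z g n) :
    Pi (AE R) (BE R) g * pr (CE R g n) n = 1 := by
  rw [h.Pi_eq g le_rfl, CE_prod]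
  have h1 : DE R g n 0 = sE R g := by
    simp [DE, sE]
  rw [h1]
  by_cases hn : n = 0
  · subst hn
    have h2 : DE R g 0 0 = sE R g := by simp [DE, sE]
    rw [h2]
    have h3 := h.last_rel (by simp)
    simp only [Nat.zero_div, add_zero] at h3
    have h4 : R 0 * sE R g * R 0 = sE R g := h3
    rw [h4]
    group
  · have h2 : DE R g n n = R 0 * sE R g * R 0 := by
      have : ¬ n ≤ n / 2 := by omega
      simp only [DE, this, if_false, Nat.sub_self, add_zero, sE]
    rw [h2]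
    group

/-- the homomorphism attached to reflections -/
def IsRefl.hom (h : IsRefl R z g n) : SurfaceGroup g n →* H :=
  surfHom (AE R) (BE R) (CE R g n) h.relation

theorem IsRefl.hom_a (h : IsRefl R z g n) (k : Fin g) : h.hom (ga k) = AE R k := surfHom_a _ _ _ _ k
theorem IsRefl.hom_b (h : IsRefl R z g n) (k : Fin g) : h.hom (gb k) = BE R k := surfHom_b _ _ _ _ k
theorem IsRefl.hom_c (h : IsRefl R z g n) (k : Fin n) : h.hom (gc k) = CE R g n k :=
  surfHom_c _ _ _ _ k

end AH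

end Pool.Agent.Lib.MP731498
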