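import Mathlib
import Pool.Agent.Lib.MP731498.Refl

set_option autoImplicit false

namespace Pool.Agent.Lib.MP731498

section Seq2

variable {H : Type*} [Group H] (A B C : ℕ → H) (g n : ℕ)

def Ax (k : ℕ) : H := Pi A B k * (A k)⁻¹ * (Pi A B k)⁻¹
def Bx (k : ℕ) : H := Pi A B k * A k * B k * (A k)⁻¹ * (Pi A B k)⁻¹
def Cx (C : ℕ → H) (n : ℕ) (j : ℕ) : H := (C (n - 1 - j))⁻¹
def Ay (k : ℕ) : H := (be B k)⁻¹ * Pi A B k * A k * be B k
def By (B : ℕ → H) (k : ℕ) : H := (be B k)⁻¹ * (B k)⁻¹ * be B k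
def Cy (B C : ℕ → H) (g : ℕ) (j : ℕ) : H := (be B g)⁻¹ * pr C j * (C j)⁻¹ * (pr C j)⁻¹ * be B g

theorem Pi_x (k : ℕ) : Pi (Ax A B) (Bx A B) k = (Pi A B k)⁻¹ := by
  induction k with
  | zero => simp
  | succ k ih =>
    rw [Pi_succ, Pi_succ, ih]
    simp only [com, Ax, Bx]
    group

theorem be_x (k : ℕ) : be (Bx A B) k = Pi A B k * be B k := by
  induction k with
  | zero => simp
  | succ k ih =>
    rw [be_succ, be_succ, Pi_succ, ih]
    simp only [com, Bx]
    group

theorem pr_x (i : ℕ) (hi : i ≤ n) : pr (Cx C n) i = (pr C n)⁻¹ * pr C (n - i) := by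
  induction i with
  | zero => simp
  | succ i ih =>
    have h1 : n - i = (n - (i + 1)) + 1 := by omega
    have h2 : n - 1 - i = n - (i + 1) := by omega
    rw [pr_succ, ih (by omega), h1, pr_succ]
    simp only [Cx, h2]
    group

theorem be_y (k : ℕ) : be (By B) k = (be B k)⁻¹ := by
  induction k with
  | zero => simp
  | succ k ih =>
    rw [be_succ, be_succ, ih]
    simp only [By]
    group

theorem Pi_y (k : ℕ) : Pi (Ay A B) (By B) k = (be B k)⁻¹ * (Pi A B k)⁻¹ * be B k := by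
  induction k with
  | zero => simp
  | succ k ih =>
    rw [Pi_succ, Pi_succ, be_succ, ih]
    simp only [com, Ay, By]
    group

theorem pr_y (i : ℕ) : pr (Cy B C g) i = (be B g)⁻¹ * (pr C i)⁻¹ * be B g := by
  induction i with
  | zero => simp
  | succ i ih =>
    rw [pr_succ, pr_succ, ih]
    simp only [Cy]
    group

theorem rel_x (h : Pi A B g * pr C n = 1) : Pi (Ax A B) (Bx A B) g * pr (Cx C n) n = 1 := by
  rw [Pi_x, pr_x C n n le_rfl]
  have h1 : Pi A B g = (pr C n)⁻¹ := eq_inv_of_mul_eq_one_left h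
  rw [h1]
  simp

theorem rel_y (h : Pi A B g * pr C n = 1) : Pi (Ay A B) (By B) g * pr (Cy B C g) n = 1 := by
  rw [Pi_y, pr_y]
  have h1 : Pi A B g = (pr C n)⁻¹ := eq_inv_of_mul_eq_one_left h
  rw [h1]
  group

end Seq2

section Aut

variable (g n : ℕ)

/-- partial products in the surface group -/
def P (k : ℕ) : SurfaceGroup g n := Pi (xa g n) (xb g n) k
def E (k : ℕ) : SurfaceGroup g n := be (xb g n) k
def Q (k : ℕ) : SurfaceGroup g n := pr (xc g n) k

theorem P_succ (k : ℕ) : P g n (k + 1) = P g n k * com (xa g n k) (xb g n k) := Pi_succ _ _ _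
theorem E_succ (k : ℕ) : E g n (k + 1) = xb g n k * E g n k := rfl
theorem Q_succ (k : ℕ) : Q g n (k + 1) = Q g n k * xc g n k := pr_succ _ _
@[simp] theorem P_zero : P g n 0 = 1 := Pi_zero _ _
@[simp] theorem E_zero : E g n 0 = 1 := rfl
@[simp] theorem Q_zero : Q g n 0 = 1 := pr_zero _

theorem PQ : P g n g * Q g n n = 1 := surf_relation g n

theorem P_eq : P g n g = (Q g n n)⁻¹ := eq_inv_of_mul_eq_one_left (PQ g n)

/-- conjugation by the reflection `R 0` -/
def sx : SurfaceGroup g n →* SurfaceGroup g n :=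
  surfHom (Ax (xa g n) (xb g n)) (Bx (xa g n) (xb g n)) (Cx (xc g n) n)
    (rel_x _ _ _ g n (surf_relation g n))

/-- conjugation by the reflection `R 1` -/
def sy : SurfaceGroup g n →* SurfaceGroup g n :=
  surfHom (Ay (xa g n) (xb g n)) (By (xb g n)) (Cy (xb g n) (xc g n) g)
    (rel_y _ _ _ g n (surf_relation g n))

variable {g n}

theorem sx_a (k : ℕ) (hk : k < g) :
    sx g n (xa g n k) = P g n k * (xa g n k)⁻¹ * (P g n k)⁻¹ :=
  map_xa (sx g n) (Ax (xa g n) (xb g n)) (surfHom_a _ _ _ _) k hk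
theorem sx_b (k : ℕ) (hk : k < g) :
    sx g n (xb g n k) = P g n k * xa g n k * xb g n k * (xa g n k)⁻¹ * (P g n k)⁻¹ :=
  map_xb (sx g n) (Bx (xa g n) (xb g n)) (surfHom_b _ _ _ _) k hk
theorem sx_c (k : ℕ) (hk : k < n) : sx g n (xc g n k) = (xc g n (n - 1 - k))⁻¹ :=
  map_xc (sx g n) (Cx (xc g n) n) (surfHom_c _ _ _ _) k hk
theorem sy_a (k : ℕ) (hk : k < g) :
    sy g n (xa g n k) = (E g n k)⁻¹ * P g n k * xa g n k * E g n k :=
  map_xa (sy g n) (Ay (xa g n) (xb g n)) (surfHom_a _ _ _ _) k hk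
theorem sy_b (k : ℕ) (hk : k < g) :
    sy g n (xb g n k) = (E g n k)⁻¹ * (xb g n k)⁻¹ * E g n k :=
  map_xb (sy g n) (By (xb g n)) (surfHom_b _ _ _ _) k hk
theorem sy_c (k : ℕ) (hk : k < n) : sy g n (xc g n k) =
    (E g n g)⁻¹ * Q g n k * (xc g n k)⁻¹ * (Q g n k)⁻¹ * E g n g :=
  map_xc (sy g n) (Cy (xb g n) (xc g n) g) (surfHom_c _ _ _ _) k hk

theorem sx_P (k : ℕ) (hk : k ≤ g) : sx g n (P g n k) = (P g n k)⁻¹ := by
  unfold P
  rw [map_Pi, ← Pi_x]
  exact Pi_congr _ _ _ _ _ (fun i hi => sx_a i (by omega)) (fun i hi => sx_b i (by omega))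

theorem sx_E (k : ℕ) (hk : k ≤ g) : sx g n (E g n k) = P g n k * E g n k := by
  unfold P E
  rw [map_be, ← be_x]
  exact be_congr _ _ _ (fun i hi => sx_b i (by omega))

theorem sx_Q (k : ℕ) (hk : k ≤ n) : sx g n (Q g n k) = (Q g n n)⁻¹ * Q g n (n - k) := by
  unfold Q
  rw [map_pr, ← pr_x _ _ k hk]
  exact pr_congr _ _ _ (fun i hi => sx_c i (by omega))

theorem sy_P (k : ℕ) (hk : k ≤ g) : sy g n (P g n k) = (E g n k)⁻¹ * (P g n k)⁻¹ * E g n k := by
  unfold P E
  rw [map_Pi, ← Pi_y]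
  exact Pi_congr _ _ _ _ _ (fun i hi => sy_a i (by omega)) (fun i hi => sy_b i (by omega))

theorem sy_E (k : ℕ) (hk : k ≤ g) : sy g n (E g n k) = (E g n k)⁻¹ := by
  unfold E
  rw [map_be, ← be_y]
  exact be_congr _ _ _ (fun i hi => sy_b i (by omega))

theorem sy_Q (k : ℕ) (hk : k ≤ n) : sy g n (Q g n k) = (E g n g)⁻¹ * (Q g n k)⁻¹ * E g n g := by
  unfold Q E
  rw [map_pr, ← pr_y _ _ _ k]
  exact pr_congr _ _ _ (fun i hi => sy_c i (by omega))

theorem ga_eq (k : Fin g) : (ga k : SurfaceGroup g n) = xa g n k := (xa_fin k).symm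
theorem gb_eq (k : Fin g) : (gb k : SurfaceGroup g n) = xb g n k := (xb_fin k).symm
theorem gc_eq (k : Fin n) : (gc k : SurfaceGroup g n) = xc g n k := (xc_fin k).symm

theorem hom_ext' {H : Type*} [Group H] (φ ψ : SurfaceGroup g n →* H)
    (ha : ∀ k < g, φ (xa g n k) = ψ (xa g n k))
    (hb : ∀ k < g, φ (xb g n k) = ψ (xb g n k))
    (hc : ∀ k < n, φ (xc g n k) = ψ (xc g n k)) : φ = ψ := by
  apply hom_ext
  · intro k; rw [ga_eq]; exact ha k k.2
  · intro k; rw [gb_eq]; exact hb k k.2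
  · intro k; rw [gc_eq]; exact hc k k.2

theorem sx_sx : (sx g n).comp (sx g n) = MonoidHom.id _ := by
  apply hom_ext'
  · intro k hk
    simp only [MonoidHom.comp_apply, MonoidHom.id_apply]
    rw [sx_a k hk, map_mul, map_mul, map_inv, map_inv, sx_a k hk, sx_P k hk.le]
    group
  · intro k hk
    simp only [MonoidHom.comp_apply, MonoidHom.id_apply]
    rw [sx_b k hk, map_mul, map_mul, map_mul, map_mul, map_inv, map_inv, sx_a k hk, sx_b k hk,
      sx_P k hk.le]
    group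
  · intro k hk
    simp only [MonoidHom.comp_apply, MonoidHom.id_apply]
    rw [sx_c k hk, map_inv, sx_c _ (by omega), inv_inv]
    congr 1
    omega

theorem sy_sy : (sy g n).comp (sy g n) = MonoidHom.id _ := by
  apply hom_ext'
  · intro k hk
    simp only [MonoidHom.comp_apply, MonoidHom.id_apply]
    rw [sy_a k hk, map_mul, map_mul, map_mul, map_inv, sy_a k hk, sy_P k hk.le, sy_E k hk.le]
    group
  · intro k hk
    simp only [MonoidHom.comp_apply, MonoidHom.id_apply]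
    rw [sy_b k hk, map_mul, map_mul, map_inv, map_inv, sy_b k hk, sy_E k hk.le]
    group
  · intro k hk
    simp only [MonoidHom.comp_apply, MonoidHom.id_apply]
    rw [sy_c k hk, map_mul, map_mul, map_mul, map_mul, map_inv, map_inv, map_inv, sy_c k hk,
      sy_Q k hk.le, sy_E g le_rfl]
    group

theorem sx_sy : (sx g n).comp (sy g n) = (sy g n).comp (sx g n) := by
  apply hom_ext'
  · intro k hk
    simp only [MonoidHom.comp_apply]
    rw [sy_a k hk, sx_a k hk]
    simp only [map_mul, map_inv]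
    rw [sy_a k hk, sx_a k hk, sy_P k hk.le, sx_E k hk.le, sx_P k hk.le]
    group
  · intro k hk
    simp only [MonoidHom.comp_apply]
    rw [sy_b k hk, sx_b k hk]
    simp only [map_mul, map_inv]
    rw [sy_a k hk, sy_b k hk, sx_b k hk, sy_P k hk.le, sx_E k hk.le]
    group
  · intro k hk
    simp only [MonoidHom.comp_apply]
    rw [sy_c k hk, sx_c k hk]
    simp only [map_mul, map_inv]
    rw [sy_c _ (by omega), sx_c k hk, sx_Q k hk.le, sx_E g le_rfl, P_eq]
    have h1 : n - k = (n - 1 - k) + 1 := by omega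
    rw [h1, Q_succ]
    group

end Aut

end Pool.Agent.Lib.MP731498
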