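import Mathlib
import Pool.Agent.Lib.MP731498.Sym

set_option autoImplicit false

namespace Pool.Agent.Lib.MP731498

open CoxeterSystem

section K

variable (g n : ℕ)

/-- `sx` as an automorphism -/
def ax : MulAut (SurfaceGroup g n) := MonoidHom.toMulEquiv (sx g n) (sx g n) sx_sx sx_sx
/-- `sy` as an automorphism -/
def ay : MulAut (SurfaceGroup g n) := MonoidHom.toMulEquiv (sy g n) (sy g n) sy_sy sy_sy

theorem ax_apply (x : SurfaceGroup g n) : ax g n x = sx g n x := rfl
theorem ay_apply (x : SurfaceGroup g n) : ay g n x = sy g n x := rfl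

theorem ax_sq : ax g n * ax g n = 1 := by
  ext x
  exact DFunLike.congr_fun (sx_sx (g := g) (n := n)) x

theorem ay_sq : ay g n * ay g n = 1 := by
  ext x
  exact DFunLike.congr_fun (sy_sy (g := g) (n := n)) x

theorem ax_ay : ax g n * ay g n = ay g n * ax g n := by
  ext x
  exact DFunLike.congr_fun (sx_sy (g := g) (n := n)) x

/-- the holomorph -/
abbrev K : Type := SurfaceGroup g n ⋊[MonoidHom.id (MulAut (SurfaceGroup g n))]
  MulAut (SurfaceGroup g n)

/-- even elements `t_{2k}` of the surface group -/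
def tE : ℕ → SurfaceGroup g n
  | 0 => 1
  | (k + 1) => (E g n k)⁻¹ * xa g n k * E g n k

/-- odd elements beyond `2g+1` -/
def vE (j : ℕ) : SurfaceGroup g n := (Q g n j)⁻¹ * E g n g

/-- reflections in the holomorph -/
def RK (i : ℕ) : K g n :=
  if i ≤ 2 * g then (if Even i then ⟨(tE g n (i / 2))⁻¹, ax g n⟩ else ⟨(E g n (i / 2))⁻¹, ay g n⟩)
  else ⟨(vE g n (i - (2 * g + 1)))⁻¹, ay g n⟩

variable {g n}

theorem sx_tE (k : ℕ) (hk : k ≤ g) : sx g n (tE g n k) = (tE g n k)⁻¹ := by
  cases k with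
  | zero => simp [tE]
  | succ k =>
    simp only [tE, map_mul, map_inv]
    rw [sx_a k hk, sx_E k (by omega)]
    group

theorem sy_vE (j : ℕ) (hj : j ≤ n) : sy g n (vE g n j) = (vE g n j)⁻¹ := by
  simp only [vE, map_mul, map_inv]
  rw [sy_Q j hj, sy_E g le_rfl]
  group

theorem sy_tE (k : ℕ) (hk : k < g) : sy g n (tE g n (k + 1)) = P g n k * xa g n k := by
  simp only [tE, map_mul, map_inv]
  rw [sy_a k hk, sy_E k hk.le]
  group

theorem sx_vE (j : ℕ) (hj : j ≤ n) : sx g n (vE g n j) = vE g n (n - j) := by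
  simp only [vE, map_mul, map_inv]
  rw [sx_Q j hj, sx_E g le_rfl, P_eq]
  group

theorem K_sq {σ : MulAut (SurfaceGroup g n)} (hσ : σ * σ = 1) {p : SurfaceGroup g n}
    (hp : σ p = p⁻¹) : (⟨p⁻¹, σ⟩ : K g n) * ⟨p⁻¹, σ⟩ = 1 := by
  apply SemidirectProduct.ext
  · simp [hp]
  · simpa using hσ

theorem K_comm {σ τ : MulAut (SurfaceGroup g n)} (hσ : σ * τ = τ * σ) {p q : SurfaceGroup g n}
    (hp : σ q * p = τ p * q) : (⟨p⁻¹, σ⟩ : K g n) * ⟨q⁻¹, τ⟩ = ⟨q⁻¹, τ⟩ * ⟨p⁻¹, σ⟩ := by
  apply SemidirectProduct.ext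
  · simp only [SemidirectProduct.mul_left, MonoidHom.id_apply, map_inv]
    rw [← mul_inv_rev, ← mul_inv_rev, hp]
  · simpa using hσ

theorem RK_even (k : ℕ) (hk : k ≤ g) : RK g n (2 * k) = ⟨(tE g n k)⁻¹, ax g n⟩ := by
  have h1 : 2 * k ≤ 2 * g := by omega
  have h2 : 2 * k / 2 = k := by omega
  simp [RK, hk]

theorem RK_odd (k : ℕ) (hk : k < g) : RK g n (2 * k + 1) = ⟨(E g n k)⁻¹, ay g n⟩ := by
  have h1 : 2 * k + 1 ≤ 2 * g := by omega
  have h2 : (2 * k + 1) / 2 = k := by omega
  have h3 : ¬ Even (2 * k + 1) := by simp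
  simp only [RK, h1, h2, h3, if_true, if_false]

theorem RK_big (j : ℕ) : RK g n (2 * g + 1 + j) = ⟨(vE g n j)⁻¹, ay g n⟩ := by
  have h1 : ¬ 2 * g + 1 + j ≤ 2 * g := by omega
  have h2 : 2 * g + 1 + j - (2 * g + 1) = j := by omega
  simp only [RK, h1, h2, if_false]

theorem vE_zero : vE g n 0 = E g n g := by simp [vE]

theorem RK_odd' (k : ℕ) (hk : k ≤ g) : RK g n (2 * k + 1) = ⟨(E g n k)⁻¹, ay g n⟩ := by
  rcases lt_or_eq_of_le hk with h | rfl
  · exact RK_odd k h
  · have := RK_big (g := k) (n := n) 0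
    rw [vE_zero] at this
    simpa using this

theorem RK_sq (i : ℕ) (hi : i ≤ 2 * g + 1 + n / 2) : RK g n i * RK g n i = 1 := by
  by_cases h : i ≤ 2 * g
  · rcases Nat.even_or_odd' i with ⟨k, rfl | rfl⟩
    · rw [RK_even k (by omega)]
      exact K_sq (ax_sq g n) (sx_tE k (by omega))
    · rw [RK_odd k (by omega)]
      exact K_sq (ay_sq g n) (sy_E k (by omega))
  · obtain ⟨j, rfl⟩ : ∃ j, i = 2 * g + 1 + j := ⟨i - (2 * g + 1), by omega⟩
    rw [RK_big]
    exact K_sq (ay_sq g n) (sy_vE j (by omega))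

theorem RK_comm (i : ℕ) (hi : i ≤ 2 * g) :
    RK g n i * RK g n (i + 1) = RK g n (i + 1) * RK g n i := by
  rcases Nat.even_or_odd' i with ⟨k, rfl | rfl⟩
  · rw [RK_even k (by omega), RK_odd' k (by omega)]
    apply K_comm (ax_ay g n)
    cases k with
    | zero => simp [tE]
    | succ k =>
      rw [ax_apply, ay_apply, sx_E _ (by omega), sy_tE k (by omega), P_succ, E_succ]
      simp only [tE, com]
      group
  · rw [show 2 * k + 1 + 1 = 2 * (k + 1) from by ring, RK_even (k + 1) (by omega),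
      RK_odd' k (by omega)]
    symm
    apply K_comm (ax_ay g n)
    rw [ax_apply, ay_apply, sx_E _ (by omega), sy_tE k (by omega)]
    simp only [tE]
    group

theorem RK_last (hn : Even n) :
    RK g n (2 * g + 1 + n / 2) * RK g n 0 = RK g n 0 * RK g n (2 * g + 1 + n / 2) := by
  have h0 : RK g n 0 = ⟨(tE g n 0)⁻¹, ax g n⟩ := RK_even 0 (by omega)
  rw [h0, RK_big]
  symm
  apply K_comm (ax_ay g n)
  rw [ax_apply, ay_apply, sx_vE _ (by omega)]
  have h1 : n - n / 2 = n / 2 := by
    obtain ⟨m, rfl⟩ := hn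
    omega
  rw [h1]
  simp [tE]

end K

/-! ### The Coxeter group -/

section Cox

variable (g n : ℕ)

/-- number of sides of the polygon -/
abbrev NS : ℕ := 2 * g + 2 + n / 2

/-- right-angled vertices -/
def adj (i j : ℕ) : Prop :=
  (j = i + 1 ∧ i ≤ 2 * g) ∨ (i = j + 1 ∧ j ≤ 2 * g) ∨
  (Even n ∧ i = 2 * g + 1 + n / 2 ∧ j = 0) ∨ (Even n ∧ j = 2 * g + 1 + n / 2 ∧ i = 0)

theorem adj_symm (i j : ℕ) : adj g n i j ↔ adj g n j i := by
  unfold adj; tauto

open Classical in
/-- the Coxeter matrix -/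
noncomputable def MC : CoxeterMatrix (Fin (NS g n)) where
  M := Matrix.of fun i j => if i = j then 1 else if adj g n i j then 2 else 0
  isSymm := by
    ext i j
    simp only [Matrix.transpose_apply, Matrix.of_apply, adj_symm g n i j, eq_comm]
  diagonal i := by simp
  off_diagonal i j h := by
    simp only [Matrix.of_apply, h, if_false]
    split_ifs <;> simp

open Classical in
theorem MC_apply (i j : Fin (NS g n)) :
    MC g n i j = if i = j then 1 else if adj g n i j then 2 else 0 := rfl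

theorem MC_adj (i j : Fin (NS g n)) (h : i ≠ j) (h' : adj g n i j) : MC g n i j = 2 := by
  rw [MC_apply, if_neg h, if_pos h']

theorem MC_nadj (i j : Fin (NS g n)) (h : i ≠ j) (h' : ¬ adj g n i j) : MC g n i j = 0 := by
  rw [MC_apply, if_neg h, if_neg h']

/-- the Coxeter system -/
noncomputable abbrev CS : CoxeterSystem (MC g n) (MC g n).Group := (MC g n).toCoxeterSystem

/-- the simple reflections as a sequence -/
noncomputable def RW (i : ℕ) : (MC g n).Group :=
  if h : i < NS g n then (CS g n).simple ⟨i, h⟩ else 1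

theorem RW_lt (i : ℕ) (h : i < NS g n) : RW g n i = (CS g n).simple ⟨i, h⟩ := by
  simp only [RW, h, dif_pos]

theorem RW_comm (i j : ℕ) (hi : i < NS g n) (hj : j < NS g n) (hij : i ≠ j) (h : adj g n i j) :
    RW g n i * RW g n j = RW g n j * RW g n i := by
  rw [RW_lt _ _ i hi, RW_lt _ _ j hj]
  have hM : MC g n ⟨i, hi⟩ ⟨j, hj⟩ = 2 := MC_adj _ _ _ _ (by simpa using hij) h
  have h4 := (CS g n).simple_mul_simple_pow ⟨i, hi⟩ ⟨j, hj⟩
  rw [hM, pow_two] at h4
  have h5 := inv_eq_of_mul_eq_one_left h4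
  rw [mul_inv_rev, (CS g n).inv_simple, (CS g n).inv_simple] at h5
  exact h5.symm

theorem RW_isRefl : IsRefl (RW g n) 1 g n where
  central := by simp
  zz := by simp
  sq i := by
    unfold RW
    split_ifs with h
    · exact (CS g n).simple_mul_simple_self _
    · simp
  comm i hi := by
    rw [one_mul]
    exact RW_comm g n i (i + 1) (by unfold NS; omega) (by unfold NS; omega) (by omega)
      (Or.inl ⟨rfl, hi⟩)
  last hn := by
    rw [one_mul]
    exact RW_comm g n _ 0 (by unfold NS; omega) (by unfold NS; omega) (by omega)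
      (Or.inr (Or.inr (Or.inl ⟨hn, rfl, rfl⟩)))

/-- the embedding of the surface group in the Coxeter group -/
noncomputable def toW : SurfaceGroup g n →* (MC g n).Group := (RW_isRefl g n).hom

theorem RK_liftable : (MC g n).IsLiftable (fun i : Fin (NS g n) => RK g n i) := by
  intro i j
  have hsq : ∀ i : Fin (NS g n), RK g n i * RK g n i = 1 := fun i =>
    RK_sq _ (by have := i.2; unfold NS at this; omega)
  by_cases hij : i = j
  · subst hij
    rw [(MC g n).diagonal, pow_one]
    exact hsq i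
  · by_cases h : adj g n i j
    · rw [MC_adj g n i j hij h]
      have hc : RK g n i * RK g n j = RK g n j * RK g n i := by
        rcases h with ⟨h1, h2⟩ | ⟨h1, h2⟩ | ⟨h1, h2, h3⟩ | ⟨h1, h2, h3⟩
        · rw [h1]; exact RK_comm _ h2
        · rw [h1]; exact (RK_comm _ h2).symm
        · rw [h2, h3]; exact RK_last h1
        · rw [h2, h3]; exact (RK_last h1).symm
      calc (RK g n i * RK g n j) ^ 2 = RK g n i * (RK g n j * RK g n i) * RK g n j := by
            rw [pow_two]; group
        _ = (RK g n i * RK g n i) * (RK g n j * RK g n j) := by rw [← hc]; group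
        _ = 1 := by rw [hsq, hsq, one_mul]
    · rw [MC_nadj g n i j hij h, pow_zero]

/-- the map back to the holomorph -/
noncomputable def back : (MC g n).Group →* K g n := (CS g n).lift ⟨_, RK_liftable g n⟩

theorem back_RW (i : ℕ) (h : i < NS g n) : back g n (RW g n i) = RK g n i := by
  rw [RW_lt _ _ i h]
  exact (CS g n).lift_apply_simple (RK_liftable g n) ⟨i, h⟩

theorem K_mul_same {σ : MulAut (SurfaceGroup g n)} (hσ : σ * σ = 1) {p : SurfaceGroup g n}
    (hp : σ p = p⁻¹) : (⟨1, σ⟩ : K g n) * ⟨p⁻¹, σ⟩ = SemidirectProduct.inl p := by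
  apply SemidirectProduct.ext
  · simp [hp]
  · simpa using hσ

theorem RK_zero : RK g n 0 = ⟨1, ax g n⟩ := by
  have := RK_even (g := g) (n := n) 0 (by omega)
  simpa [tE] using this

theorem RK_one : RK g n 1 = ⟨1, ay g n⟩ := by
  have := RK_odd' (g := g) (n := n) 0 (by omega)
  simpa using this

theorem sE_RK (k : ℕ) (hk : k ≤ g) : sE (RK g n) k = SemidirectProduct.inl (E g n k) := by
  rw [sE, RK_one, RK_odd' k hk]
  exact K_mul_same g n (ay_sq g n) (sy_E k hk)

theorem uE_RK (k : ℕ) (hk : k < g) : uE (RK g n) k = SemidirectProduct.inl (tE g n (k + 1)) := by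
  rw [uE, RK_zero, show 2 * k + 2 = 2 * (k + 1) from by ring, RK_even (k + 1) hk]
  exact K_mul_same g n (ax_sq g n) (sx_tE (k + 1) hk)

theorem vv_RK (j : ℕ) (hj : j ≤ n) :
    RK g n 1 * RK g n (2 * g + 1 + j) = SemidirectProduct.inl (vE g n j) := by
  rw [RK_one, RK_big]
  exact K_mul_same g n (ay_sq g n) (sy_vE j hj)

theorem DE_RK (i : ℕ) (hi : i ≤ n) : DE (RK g n) g n i = SemidirectProduct.inl (vE g n i) := by
  unfold DE
  split_ifs with h
  · exact vv_RK g n i (by omega)
  · rw [vv_RK g n (n - i) (by omega), RK_zero]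
    apply SemidirectProduct.ext
    · simp only [SemidirectProduct.mul_left, SemidirectProduct.left_inl, MonoidHom.id_apply,
        SemidirectProduct.mul_right, SemidirectProduct.right_inl, map_one, mul_one, one_mul]
      rw [ax_apply, sx_vE _ (by omega)]
      congr 1
      omega
    · simpa using ax_sq g n

theorem back_toW : (back g n).comp (toW g n) = SemidirectProduct.inl := by
  have hA : ∀ k < g, back g n (AE (RW g n) k) = SemidirectProduct.inl (xa g n k) := by
    intro k hk
    have : back g n (AE (RW g n) k) = AE (RK g n) k := by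
      simp only [AE, sE, uE, map_mul, map_inv]
      rw [back_RW, back_RW, back_RW, back_RW] <;> (unfold NS; omega)
    rw [this, AE, sE_RK _ _ k hk.le, uE_RK _ _ k hk, ← map_inv, ← map_mul, ← map_mul]
    congr 1
    simp only [tE]
    group
  have hB : ∀ k < g, back g n (BE (RW g n) k) = SemidirectProduct.inl (xb g n k) := by
    intro k hk
    have : back g n (BE (RW g n) k) = BE (RK g n) k := by
      simp only [BE, sE, map_mul, map_inv]
      rw [back_RW, back_RW, back_RW] <;> (unfold NS; omega)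
    rw [this, BE, sE_RK _ _ k hk.le, sE_RK _ _ (k + 1) hk, ← map_inv, ← map_mul, E_succ]
    congr 1
    group
  have hD : ∀ k ≤ n, back g n (DE (RW g n) g n k) = DE (RK g n) g n k := by
    intro k hk
    unfold DE
    split_ifs with h
    · rw [map_mul, back_RW, back_RW] <;> (unfold NS; omega)
    · simp only [map_mul]
      rw [back_RW, back_RW, back_RW] <;> (unfold NS; omega)
  have hC : ∀ k < n, back g n (CE (RW g n) g n k) = SemidirectProduct.inl (xc g n k) := by
    intro k hk
    rw [CE, map_mul, map_inv, hD k hk.le, hD (k + 1) hk, DE_RK _ _ k hk.le, DE_RK _ _ (k + 1) hk,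
      ← map_inv, ← map_mul]
    congr 1
    simp only [vE, Q_succ]
    group
  apply hom_ext
  · intro k
    rw [MonoidHom.comp_apply, toW, IsRefl.hom_a, hA k k.2, ga_eq]
  · intro k
    rw [MonoidHom.comp_apply, toW, IsRefl.hom_b, hB k k.2, gb_eq]
  · intro k
    rw [MonoidHom.comp_apply, toW, IsRefl.hom_c, hC k k.2, gc_eq]

theorem toW_injective : Function.Injective (toW g n) := by
  intro x y hxy
  have h1 := DFunLike.congr_fun (back_toW g n) x
  have h2 := DFunLike.congr_fun (back_toW g n) y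
  rw [MonoidHom.comp_apply] at h1 h2
  apply SemidirectProduct.inl_injective (φ := MonoidHom.id (MulAut (SurfaceGroup g n)))
  rw [← h1, ← h2, hxy]

end Cox

end Pool.Agent.Lib.MP731498
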