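import Mathlib
import Pool.Agent.Lib.MP731498.Datum
import Pool.Agent.Lib.MP731498.Retr

set_option autoImplicit false

namespace Pool.Agent.Lib.MP731498

open Matrix

section Maps

variable {H H' : Type*} [Group H] [Group H'] (f : H →* H') (R : ℕ → H) (g n : ℕ)

theorem map_AE (k : ℕ) : f (AE R k) = AE (fun i => f (R i)) k := by
  simp [AE, sE, uE]

theorem map_BE (k : ℕ) : f (BE R k) = BE (fun i => f (R i)) k := by
  simp [BE, sE]

theorem map_DE (k : ℕ) : f (DE R g n k) = DE (fun i => f (R i)) g n k := by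
  unfold DE
  split_ifs <;> simp

theorem map_CE (k : ℕ) : f (CE R g n k) = CE (fun i => f (R i)) g n k := by
  simp [CE, map_DE]

end Maps

section Rep

variable {g n : ℕ} (D : Datum (MC g n))

/-- the reflection as a unit -/
def uR (i : Fin (NS g n)) : M2ˣ := ⟨D.R i, D.R i, D.sq i, D.sq i⟩

/-- the pair group -/
abbrev HH (g n : ℕ) : Type := (MC g n).Group × M2ˣ

/-- reflections in the pair group -/
noncomputable def RH (i : ℕ) : HH g n :=
  if h : i < NS g n then ((CS g n).simple ⟨i, h⟩, uR D ⟨i, h⟩) else 1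

theorem RH_lt (i : ℕ) (h : i < NS g n) : RH D i = ((CS g n).simple ⟨i, h⟩, uR D ⟨i, h⟩) := by
  simp only [RH, h, dif_pos]

theorem RH_fst (i : ℕ) : (RH D i).1 = RW g n i := by
  unfold RH RW
  split_ifs <;> rfl

theorem c_zero_of_adj (i j : Fin (NS g n)) (hij : i ≠ j) (h : adj g n i j) : D.c i j = 0 := by
  rcases D.ra.off i j hij with ⟨_, h2⟩ | ⟨h1, _⟩
  · exact h2
  · rw [MC_adj g n i j hij h] at h1; omega

theorem RH_comm (i j : ℕ) (hi : i < NS g n) (hj : j < NS g n) (hij : i ≠ j) (h : adj g n i j) :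
    RH D i * RH D j = (1, -1) * (RH D j * RH D i) := by
  have h1 := RW_comm g n i j hi hj hij h
  rw [RW_lt _ _ i hi, RW_lt _ _ j hj] at h1
  rw [RH_lt D i hi, RH_lt D j hj]
  apply Prod.ext
  · simpa using h1
  · apply Units.ext
    have h2 := anti (D.R ⟨i, hi⟩) (D.R ⟨j, hj⟩) (D.trace0 _) (D.trace0 _)
    rw [D.gram, c_zero_of_adj D _ _ (by simpa using hij) h] at h2
    simp only [uR, Prod.mk_mul_mk, neg_mul, one_mul, Units.val_mul, Units.val_neg]
    simp only [mul_zero, zero_smul] at h2
    exact eq_neg_of_add_eq_zero_left h2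

theorem RH_isRefl : IsRefl (RH D) ((1, -1) : HH g n) g n where
  central x := by
    apply Prod.ext
    · simp
    · simp
  zz := by
    apply Prod.ext
    · simp
    · simp
  sq i := by
    unfold RH
    split_ifs with h
    · apply Prod.ext
      · exact (CS g n).simple_mul_simple_self _
      · apply Units.ext
        exact D.sq _
    · simp
  comm i hi :=
    RH_comm D i (i + 1) (by unfold NS; omega) (by unfold NS; omega) (by omega) (Or.inl ⟨rfl, hi⟩)
  last hn :=
    RH_comm D _ 0 (by unfold NS; omega) (by unfold NS; omega) (by omega)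
      (Or.inr (Or.inr (Or.inl ⟨hn, rfl, rfl⟩)))

/-- the homomorphism to the pair group -/
noncomputable def Phi : SurfaceGroup g n →* HH g n := (RH_isRefl D).hom

theorem Phi_fst (γ : SurfaceGroup g n) : (Phi D γ).1 = toW g n γ := by
  have h : (MonoidHom.fst (MC g n).Group M2ˣ).comp (Phi D) = toW g n := by
    have hR : (fun i => (MonoidHom.fst (MC g n).Group M2ˣ) (RH D i)) = RW g n := by
      funext i
      exact RH_fst D i
    apply hom_ext
    · intro k
      rw [MonoidHom.comp_apply, Phi, toW, IsRefl.hom_a, IsRefl.hom_a, map_AE, hR]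
    · intro k
      rw [MonoidHom.comp_apply, Phi, toW, IsRefl.hom_b, IsRefl.hom_b, map_BE, hR]
    · intro k
      rw [MonoidHom.comp_apply, Phi, toW, IsRefl.hom_c, IsRefl.hom_c, map_CE, hR]
  exact DFunLike.congr_fun h γ

/-- determinant -/
noncomputable def dd : HH g n →* ℝˣ :=
  (Units.map (Matrix.detMonoidHom (n := Fin 2) (R := ℝ))).comp (MonoidHom.snd _ _)

theorem dd_apply (h : HH g n) : ((dd h : ℝˣ) : ℝ) = (h.2 : M2).det := rfl

theorem dd_RH (i : ℕ) (h : i < NS g n) : dd (RH D i) = -1 := by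
  apply Units.ext
  rw [dd_apply, RH_lt D i h]
  simpa [uR] using D.det ⟨i, h⟩

theorem dd_Phi (γ : SurfaceGroup g n) : dd (Phi D γ) = 1 := by
  have h : (dd.comp (Phi D)) = 1 := by
    apply hom_ext
    · intro k
      have hk := k.2
      rw [MonoidHom.comp_apply, Phi, IsRefl.hom_a, MonoidHom.one_apply]
      simp only [AE, sE, uE, map_mul, map_inv]
      rw [dd_RH D _ (by unfold NS; omega), dd_RH D _ (by unfold NS; omega),
        dd_RH D _ (by unfold NS; omega), dd_RH D _ (by unfold NS; omega)]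
      simp
    · intro k
      have hk := k.2
      rw [MonoidHom.comp_apply, Phi, IsRefl.hom_b, MonoidHom.one_apply]
      simp only [BE, sE, map_mul, map_inv]
      rw [dd_RH D _ (by unfold NS; omega), dd_RH D _ (by unfold NS; omega),
        dd_RH D _ (by unfold NS; omega)]
      simp
    · intro k
      have hk := k.2
      have hDE : ∀ i ≤ n, dd (DE (RH D) g n i) = 1 := by
        intro i hi
        unfold DE
        split_ifs with h
        · rw [map_mul, dd_RH D _ (by unfold NS; omega), dd_RH D _ (by unfold NS; omega)]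
          simp
        · simp only [map_mul]
          rw [dd_RH D _ (by unfold NS; omega), dd_RH D _ (by unfold NS; omega),
            dd_RH D _ (by unfold NS; omega)]
          simp
      rw [MonoidHom.comp_apply, Phi, IsRefl.hom_c, MonoidHom.one_apply, CE, map_mul, map_inv,
        hDE _ (by omega), hDE _ (by omega)]
      simp
  exact DFunLike.congr_fun h γ

/-- the representation in `SL(2, ℝ)` -/
noncomputable def rho : SurfaceGroup g n →* SL2 where
  toFun γ := ⟨((Phi D γ).2 : M2), by rw [← dd_apply, dd_Phi]; simp⟩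
  map_one' := by
    apply Subtype.ext
    simp
  map_mul' x y := by
    apply Subtype.ext
    change ((Phi D (x * y)).2 : M2) = ((Phi D x).2 : M2) * ((Phi D y).2 : M2)
    rw [map_mul, Prod.snd_mul, Units.val_mul]

theorem rho_coe (γ : SurfaceGroup g n) : (rho D γ).1 = ((Phi D γ).2 : M2) := rfl

/-- pairs compatible with the geometric representation -/
noncomputable def goodS : Subgroup (HH g n) where
  carrier := {h | ∀ x, D.pi (rep (CS g n) D.ra h.1 x) =
    ((dd h : ℝˣ) : ℝ) • ((h.2 : M2) * D.pi x * ((h.2⁻¹ : M2ˣ) : M2))}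
  one_mem' := by
    intro x
    simp
  mul_mem' := by
    intro a b ha hb x
    rw [Prod.fst_mul, map_mul, Module.End.mul_apply, ha, hb, map_mul, Units.val_mul, Prod.snd_mul,
      _root_.mul_inv_rev, Units.val_mul, Units.val_mul, mul_smul_comm, smul_mul_assoc, smul_smul]
    simp only [mul_assoc]
  inv_mem' := by
    intro a ha x
    have h1 := ha (rep (CS g n) D.ra (a.1)⁻¹ x)
    rw [← Module.End.mul_apply, ← map_mul, mul_inv_cancel, map_one, Module.End.one_apply] at h1
    have hdd : ((dd a⁻¹ : ℝˣ) : ℝ) = ((dd a : ℝˣ) : ℝ)⁻¹ := by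
      rw [map_inv, Units.val_inv_eq_inv_val]
    rw [Prod.fst_inv, Prod.snd_inv, inv_inv, hdd, h1]
    rw [mul_smul_comm, smul_mul_assoc, smul_smul]
    have h2 : ((a.2⁻¹ : M2ˣ) : M2) * ((a.2 : M2) * D.pi (rep (CS g n) D.ra (a.1)⁻¹ x) *
        ((a.2⁻¹ : M2ˣ) : M2)) * (a.2 : M2) = D.pi (rep (CS g n) D.ra (a.1)⁻¹ x) := by
      calc _ = (((a.2⁻¹ : M2ˣ) : M2) * (a.2 : M2)) * D.pi (rep (CS g n) D.ra (a.1)⁻¹ x) *
            ((((a.2⁻¹ : M2ˣ) : M2)) * (a.2 : M2)) := by simp only [mul_assoc]
        _ = _ := by rw [Units.inv_mul]; simp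
    rw [h2, inv_mul_cancel₀ (Units.ne_zero _), one_smul]

theorem RH_good (i : ℕ) (h : i < NS g n) : RH D i ∈ goodS D := by
  intro x
  rw [dd_RH D i h, RH_lt D i h]
  simp only [rep_simple, D.pi_refl, uR]
  simp

theorem Phi_good (γ : SurfaceGroup g n) : Phi D γ ∈ goodS D := by
  have h : ∀ γ, γ ∈ (goodS D).comap (Phi D) := by
    apply surf_closure
    · intro k
      have hk := k.2
      rw [Subgroup.mem_comap, Phi, IsRefl.hom_a, AE, sE, uE]
      have h0 := RH_good D 0 (by unfold NS; omega)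
      have h1 := RH_good D 1 (by unfold NS; omega)
      have h2 := RH_good D (2 * k + 1) (by unfold NS; omega)
      have h3 := RH_good D (2 * k + 2) (by unfold NS; omega)
      exact mul_mem (mul_mem (mul_mem h1 h2) (mul_mem h0 h3)) (inv_mem (mul_mem h1 h2))
    · intro k
      have hk := k.2
      rw [Subgroup.mem_comap, Phi, IsRefl.hom_b, BE, sE, sE]
      have h1 := RH_good D 1 (by unfold NS; omega)
      have h2 := RH_good D (2 * k + 1) (by unfold NS; omega)
      have h3 := RH_good D (2 * (k + 1) + 1) (by unfold NS; omega)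
      exact mul_mem (mul_mem h1 h3) (inv_mem (mul_mem h1 h2))
    · intro k
      have hk := k.2
      have hDE : ∀ i ≤ n, DE (RH D) g n i ∈ goodS D := by
        intro i hi
        have h0 := RH_good D 0 (by unfold NS; omega)
        have h1 := RH_good D 1 (by unfold NS; omega)
        unfold DE
        split_ifs with h
        · exact mul_mem h1 (RH_good D _ (by unfold NS; omega))
        · exact mul_mem (mul_mem h0 (mul_mem h1 (RH_good D _ (by unfold NS; omega)))) h0
      rw [Subgroup.mem_comap, Phi, IsRefl.hom_c, CE]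
      exact mul_mem (hDE _ (by omega)) (inv_mem (hDE _ (by omega)))
  exact h γ

theorem rho_inv_coe (γ : SurfaceGroup g n) :
    ((rho D γ)⁻¹ : SL2).1 = (((Phi D γ).2⁻¹ : M2ˣ) : M2) := by
  rw [← map_inv, rho_coe, map_inv, Prod.snd_inv]

theorem compat : Compat D (CS g n) (toW g n) (rho D) := by
  intro γ i
  have h := Phi_good D γ (Pi.single i 1)
  rw [dd_Phi, Phi_fst, D.pi_single] at h
  rw [root, h, rho_inv_coe, rho_coe]
  simp

/-- conditions at the ideal vertices -/
structure Ideal (D : Datum (MC g n)) : Prop where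
  mid : ∀ (p : ℕ) (h1 : p < NS g n) (h2 : p + 1 < NS g n), 2 * g + 1 ≤ p →
    D.c ⟨p, h1⟩ ⟨p + 1, h2⟩ = 1
  last : ∀ (h1 : 2 * g + 1 + n / 2 < NS g n) (h2 : 0 < NS g n), ¬ Even n →
    D.c ⟨2 * g + 1 + n / 2, h1⟩ ⟨0, h2⟩ = 1

/-- trace of a unit -/
def tu (x : M2ˣ) : ℝ := (x : M2).trace

theorem tu_conj (x y : M2ˣ) : tu (x * y * x⁻¹) = tu y := by
  unfold tu
  rw [Units.val_mul, Matrix.trace_mul_comm, ← Units.val_mul, ← mul_assoc, inv_mul_cancel, one_mul]

theorem tu_RH (i j : ℕ) (hi : i < NS g n) (hj : j < NS g n) :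
    tu ((RH D i).2 * (RH D j).2) = -2 * D.c ⟨i, hi⟩ ⟨j, hj⟩ := by
  rw [RH_lt D i hi, RH_lt D j hj, ← D.gram]
  rfl

theorem RH_sq (i : ℕ) : RH D i * RH D i = 1 := (RH_isRefl D).sq i

theorem RH2_sq (i : ℕ) : (RH D i).2 * (RH D i).2 = 1 := by
  have := congrArg Prod.snd (RH_sq D i)
  simpa using this

theorem RH2_inv (i : ℕ) : ((RH D i).2)⁻¹ = (RH D i).2 :=
  inv_eq_of_mul_eq_one_left (RH2_sq D i)

theorem tu_neg (x : M2ˣ) : tu (-x) = -tu x := by
  unfold tu
  rw [Units.val_neg, Matrix.trace_neg]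

theorem tu_sq (x : M2ˣ) (h : (x : M2).det = 1) : tu (x * x) = tu x ^ 2 - 2 := by
  unfold tu
  rw [Matrix.det_fin_two] at h
  simp only [Units.val_mul, Matrix.trace, Matrix.diag_apply, Fin.sum_univ_two, Matrix.mul_apply]
  linear_combination (-2 : ℝ) * h

theorem RH01 : (RH D 0).2 * (RH D 1).2 = -((RH D 1).2 * (RH D 0).2) := by
  have h := (RH_isRefl D).comm 0 (by omega)
  have := congrArg Prod.snd h
  simpa using this

theorem tr_c (hI : Ideal D) (j : Fin n) : |tr (rho D (gc j))| = 2 := by
  have hj := j.2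
  have h1 : tr (rho D (gc j)) = tu ((CE (RH D) g n j).2) := by
    unfold tr tu
    rw [← IsRefl.hom_c (RH_isRefl D) j]
    rfl
  rw [h1]
  have e0 : (CE (RH D) g n j).2 = (DE (RH D) g n j).2 * ((DE (RH D) g n (j + 1)).2)⁻¹ := rfl
  rw [e0]
  have hA : ∀ i, i ≤ n / 2 → (DE (RH D) g n i).2 = (RH D 1).2 * (RH D (2 * g + 1 + i)).2 := by
    intro i hi
    simp only [DE, hi, if_true]
    rfl
  have hB : ∀ i, ¬ i ≤ n / 2 → (DE (RH D) g n i).2 =
      (RH D 0).2 * ((RH D 1).2 * (RH D (2 * g + 1 + (n - i))).2) * (RH D 0).2 := by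
    intro i hi
    simp only [DE, hi, if_false]
    rfl
  have inv0 := RH2_inv D 0
  have inv1 := RH2_inv D 1
  -- conjugation by an involution
  have conj1 : ∀ y : M2ˣ, tu ((RH D 1).2 * y * (RH D 1).2) = tu y := by
    intro y
    have := tu_conj (RH D 1).2 y
    rwa [inv1] at this
  have conj0 : ∀ y : M2ˣ, tu ((RH D 0).2 * y * (RH D 0).2) = tu y := by
    intro y
    have := tu_conj (RH D 0).2 y
    rwa [inv0] at this
  by_cases c1 : (j : ℕ) + 1 ≤ n / 2
  · rw [hA j (by omega), hA (j + 1) c1, _root_.mul_inv_rev, RH2_inv, RH2_inv]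
    have e1 : (RH D 1).2 * (RH D (2 * g + 1 + j)).2 *
        ((RH D (2 * g + 1 + (j + 1))).2 * (RH D 1).2) =
        (RH D 1).2 * ((RH D (2 * g + 1 + j)).2 * (RH D (2 * g + 1 + j + 1)).2) * (RH D 1).2 := by
      simp only [mul_assoc, add_assoc]
    rw [e1, conj1, tu_RH D _ _ (by unfold NS; omega) (by unfold NS; omega),
      hI.mid _ _ _ (by omega)]
    norm_num
  · by_cases c2 : (j : ℕ) ≤ n / 2
    · have hjn : (j : ℕ) = n / 2 := by omega
      rw [hA j c2, hB (j + 1) c1, hjn]
      by_cases hn : Even n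
      · obtain ⟨m, hm⟩ := hn
        have hm1 : 1 ≤ m := by omega
        have hnm : n / 2 = m := by omega
        have hlast := congrArg Prod.snd ((RH_isRefl D).last_rel (by exact ⟨m, hm⟩))
        simp only [Prod.snd_mul] at hlast
        rw [hnm] at hlast ⊢
        have e2 : n - (m + 1) = m - 1 := by omega
        rw [e2, ← hlast, _root_.mul_inv_rev, _root_.mul_inv_rev, _root_.mul_inv_rev, RH2_inv, RH2_inv, RH2_inv]
        have e1 : (RH D 0).2 * ((RH D 1).2 * (RH D (2 * g + 1 + m)).2) * (RH D 0).2 *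
            ((RH D 0).2 * ((RH D (2 * g + 1 + (m - 1))).2 * (RH D 1).2 * (RH D 0).2)) =
            (RH D 0).2 * ((RH D 1).2 * ((RH D (2 * g + 1 + m)).2 *
            (RH D (2 * g + 1 + (m - 1))).2) * (RH D 1).2) * (RH D 0).2 := by
          calc _ = (RH D 0).2 * ((RH D 1).2 * (RH D (2 * g + 1 + m)).2) *
                ((RH D 0).2 * (RH D 0).2) *
                ((RH D (2 * g + 1 + (m - 1))).2 * (RH D 1).2 * (RH D 0).2) := by
                simp only [mul_assoc]
            _ = _ := by rw [RH2_sq]; simp only [mul_assoc, one_mul]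
        rw [e1, conj0, conj1, tu_RH D _ _ (by unfold NS; omega) (by unfold NS; omega)]
        rw [D.ra.symm]
        have e3 : 2 * g + 1 + m = 2 * g + 1 + (m - 1) + 1 := by omega
        have h5 := hI.mid (2 * g + 1 + (m - 1)) (by unfold NS; omega) (by unfold NS; omega)
          (by omega)
        have h6 : D.c ⟨2 * g + 1 + (m - 1), by unfold NS; omega⟩
          ⟨2 * g + 1 + m, by unfold NS; omega⟩ = 1 := by
          convert h5 using 3
        rw [h6]
        norm_num
      · have e2 : n - (n / 2 + 1) = n / 2 := by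
          rw [Nat.not_even_iff_odd] at hn
          obtain ⟨m, hm⟩ := hn
          omega
        rw [e2, _root_.mul_inv_rev, _root_.mul_inv_rev, _root_.mul_inv_rev, RH2_inv, RH2_inv, RH2_inv]
        set L := 2 * g + 1 + n / 2 with hL
        -- R1 RL R0 RL R1 R0
        have e1 : (RH D 1).2 * (RH D L).2 * ((RH D 0).2 * ((RH D L).2 * (RH D 1).2 * (RH D 0).2)) =
            -((RH D 1).2 * (((RH D L).2 * (RH D 0).2) * ((RH D L).2 * (RH D 0).2)) *
              (RH D 1).2) := by
          have := RH01 D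
          calc _ = (RH D 1).2 * (RH D L).2 * (RH D 0).2 * (RH D L).2 *
                ((RH D 1).2 * (RH D 0).2) := by simp only [mul_assoc]
            _ = (RH D 1).2 * (RH D L).2 * (RH D 0).2 * (RH D L).2 *
                (-((RH D 0).2 * (RH D 1).2)) := by rw [this, neg_neg]
            _ = _ := by simp only [mul_neg, mul_assoc]
        rw [e1, tu_neg, conj1, tu_sq, tu_RH D _ _ (by unfold NS; omega) (by unfold NS; omega),
          hI.last _ _ hn]
        · norm_num
        · rw [Units.val_mul, Matrix.det_mul, RH_lt D L (by unfold NS; omega),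
            RH_lt D 0 (by unfold NS; omega)]
          simp only [uR]
          rw [D.det, D.det]
          norm_num
    · rw [hB j c2, hB (j + 1) c1]
      obtain ⟨p, hp⟩ : ∃ p, n - j = p + 1 := ⟨n - j - 1, by omega⟩
      have hp' : n - (j + 1) = p := by omega
      rw [hp, hp', _root_.mul_inv_rev, _root_.mul_inv_rev, _root_.mul_inv_rev, RH2_inv, RH2_inv, RH2_inv]
      have e1 : (RH D 0).2 * ((RH D 1).2 * (RH D (2 * g + 1 + (p + 1))).2) * (RH D 0).2 *
          ((RH D 0).2 * ((RH D (2 * g + 1 + p)).2 * (RH D 1).2 * (RH D 0).2)) =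
          (RH D 0).2 * ((RH D 1).2 * ((RH D (2 * g + 1 + p + 1)).2 *
          (RH D (2 * g + 1 + p)).2) * (RH D 1).2) * (RH D 0).2 := by
        calc _ = (RH D 0).2 * ((RH D 1).2 * (RH D (2 * g + 1 + (p + 1))).2) *
              ((RH D 0).2 * (RH D 0).2) *
              ((RH D (2 * g + 1 + p)).2 * (RH D 1).2 * (RH D 0).2) := by
              simp only [mul_assoc]
          _ = _ := by rw [RH2_sq]; simp only [mul_assoc, one_mul, add_assoc]
      rw [e1, conj0, conj1, tu_RH D _ _ (by unfold NS; omega) (by unfold NS; omega), D.ra.symm,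
        hI.mid _ _ _ (by omega)]
      norm_num

/-- the representation is a point of Teichmüller space -/
theorem rho_mem (hI : Ideal D) : rho D ∈ Teich g n :=
  ⟨fun γ hγ => faithful D (CS g n) (compat D) (toW_injective g n) γ hγ,
    discrete D (CS g n) (compat D) (toW_injective g n), tr_c D hI⟩

end Rep

end Pool.Agent.Lib.MP731498
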