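import Mathlib
import Pool.Agent.Lib.MP731498.Rep

set_option autoImplicit false

namespace Pool.Agent.Lib.MP731498

open Matrix

section Mats

/-- reflection in the imaginary axis -/
def Bm : M2 := !![-1, 0; 0, 1]
/-- reflection in the circle `|z| = e^x` -/
noncomputable def Em (x : ℝ) : M2 := !![0, Real.exp x; Real.exp (-x), 0]
/-- reflection in the geodesic with endpoints `e^(x-u)`, `e^(x+u)` -/
noncomputable def Tm (u x : ℝ) : M2 :=
  !![Real.cosh u / Real.sinh u, -Real.exp x / Real.sinh u;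
    Real.exp (-x) / Real.sinh u, -Real.cosh u / Real.sinh u]

theorem tr_Bm : Bm.trace = 0 := by simp [Bm, Matrix.trace, Fin.sum_univ_two]
theorem tr_Em (x : ℝ) : (Em x).trace = 0 := by simp [Em, Matrix.trace, Fin.sum_univ_two]
theorem tr_Tm (u x : ℝ) : (Tm u x).trace = 0 := by
  simp [Tm, Matrix.trace, Fin.sum_univ_two]; ring

theorem tr_BB : (Bm * Bm).trace = 2 := by
  simp [Bm, Matrix.trace, Fin.sum_univ_two, Matrix.mul_apply]; norm_num

theorem tr_BE (x : ℝ) : (Bm * Em x).trace = 0 := by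
  simp [Bm, Em, Matrix.trace, Fin.sum_univ_two, Matrix.mul_apply]

theorem tr_BT (u x : ℝ) : (Bm * Tm u x).trace = -2 * (Real.cosh u / Real.sinh u) := by
  simp [Bm, Tm, Matrix.trace, Fin.sum_univ_two, Matrix.mul_apply]; ring

theorem tr_EE (x y : ℝ) : (Em x * Em y).trace = 2 * Real.cosh (x - y) := by
  simp [Em, Matrix.trace, Fin.sum_univ_two, Matrix.mul_apply, Real.cosh_eq, ← Real.exp_add]
  ring_nf

theorem tr_ET (u x y : ℝ) : (Em x * Tm u y).trace = 2 * (Real.sinh (x - y) / Real.sinh u) := by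
  simp [Em, Tm, Matrix.trace, Fin.sum_univ_two, Matrix.mul_apply, Real.sinh_eq (x - y)]
  rw [Real.exp_sub, Real.exp_sub, Real.exp_neg, Real.exp_neg]
  field_simp
  ring

theorem tr_TT (u x y : ℝ) : (Tm u x * Tm u y).trace =
    2 * ((Real.cosh u ^ 2 - Real.cosh (x - y)) / Real.sinh u ^ 2) := by
  simp [Tm, Matrix.trace, Fin.sum_univ_two, Matrix.mul_apply, Real.cosh_eq (x - y)]
  rw [Real.exp_sub, Real.exp_sub, Real.exp_neg, Real.exp_neg]
  field_simp
  ring

end Mats

section Steps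

/-- distance between consecutive sides meeting at a right angle -/
noncomputable def dR (u : ℝ) : ℝ := Real.arcosh (Real.cosh u ^ 2)

theorem one_le_cosh_sq (u : ℝ) : 1 ≤ Real.cosh u ^ 2 := by
  nlinarith [Real.one_le_cosh u]

theorem cosh_dR (u : ℝ) : Real.cosh (dR u) = Real.cosh u ^ 2 := Real.cosh_arcosh (one_le_cosh_sq u)

theorem dR_nonneg (u : ℝ) : 0 ≤ dR u := Real.arcosh_nonneg (one_le_cosh_sq u)

theorem dR_ge (u : ℝ) (hu : 0 ≤ u) : u ≤ dR u := by
  have h : Real.cosh u ≤ Real.cosh (dR u) := by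
    rw [cosh_dR]; nlinarith [Real.one_le_cosh u]
  rw [Real.cosh_le_cosh, abs_of_nonneg hu, abs_of_nonneg (dR_nonneg u)] at h
  exact h

theorem dR_le (u : ℝ) (hu : 0 ≤ u) : dR u ≤ 2 * u := by
  have h : Real.cosh (dR u) ≤ Real.cosh (2 * u) := by
    rw [cosh_dR, Real.cosh_two_mul]; nlinarith [sq_nonneg (Real.sinh u)]
  rw [Real.cosh_le_cosh, abs_of_nonneg (by linarith : (0 : ℝ) ≤ 2 * u),
    abs_of_nonneg (dR_nonneg u)] at h
  exact h

theorem sinh_dR_sq (u : ℝ) : Real.sinh (dR u) ^ 2 = Real.sinh u ^ 2 * (Real.cosh u ^ 2 + 1) := by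
  have h := Real.cosh_sq (dR u)
  rw [cosh_dR] at h
  have h2 := Real.cosh_sq u
  nlinarith

theorem le_sinh_dR (u δ : ℝ) (hu : 0 ≤ u) (hδ : Real.cosh δ ^ 2 ≤ 2) :
    Real.cosh δ * Real.sinh u ≤ Real.sinh (dR u) := by
  have h1 := sinh_dR_sq u
  have h2 : 0 ≤ Real.sinh u := Real.sinh_nonneg_iff.2 hu
  have h3 : 0 ≤ Real.sinh (dR u) := Real.sinh_nonneg_iff.2 (dR_nonneg u)
  have h4 := one_le_cosh_sq u
  apply abs_le_of_sq_le_sq' _ h3 |>.2
  rw [h1, mul_pow]
  nlinarith [sq_nonneg (Real.sinh u)]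

variable (g n : ℕ) (u : ℝ)

/-- distance between consecutive `T` sides -/
noncomputable def stp (i : ℕ) : ℝ := if 3 + i ≤ 2 * g then dR u else 2 * u

/-- positions of the `T` sides -/
noncomputable def xs : ℕ → ℝ
  | 0 => 0
  | (i + 1) => xs i + stp g u i

/-- number of the last `T` side -/
def kk : ℕ := 2 * g + 1 + n / 2 - 3

open Classical in
/-- position of the last side -/
noncomputable def xp : ℝ := xs g u (kk g n) + if Even n then 0 else u

variable {g n u}

theorem stp_ge (hu : 0 ≤ u) (i : ℕ) : dR u ≤ stp g u i := by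
  unfold stp
  split_ifs
  · exact le_rfl
  · exact dR_le u hu

theorem stp_le (hu : 0 ≤ u) (i : ℕ) : stp g u i ≤ 2 * u := by
  unfold stp
  split_ifs
  · exact dR_le u hu
  · exact le_rfl

theorem xs_sub_ge (hu : 0 ≤ u) (a m : ℕ) : m * dR u ≤ xs g u (a + m) - xs g u a := by
  induction m with
  | zero => simp
  | succ m ih =>
    have h : xs g u (a + (m + 1)) = xs g u (a + m) + stp g u (a + m) := rfl
    rw [h]
    have := stp_ge (g := g) hu (a + m)
    push_cast
    linarith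

theorem xs_le (hu : 0 ≤ u) (m : ℕ) : xs g u m ≤ 2 * m * u := by
  induction m with
  | zero => simp [xs]
  | succ m ih =>
    have h : xs g u (m + 1) = xs g u m + stp g u m := rfl
    rw [h]
    have := stp_le (g := g) hu m
    push_cast
    linarith

theorem xs_nonneg (hu : 0 ≤ u) (m : ℕ) : 0 ≤ xs g u m := by
  have h := xs_sub_ge (g := g) hu 0 m
  have h0 : xs g u 0 = 0 := rfl
  rw [zero_add, h0, sub_zero] at h
  have := mul_nonneg (Nat.cast_nonneg (α := ℝ) m) (dR_nonneg u)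
  linarith

theorem xs_mono (hu : 0 ≤ u) {a b : ℕ} (hab : a ≤ b) : xs g u a ≤ xs g u b := by
  obtain ⟨m, rfl⟩ : ∃ m, b = a + m := ⟨b - a, by omega⟩
  have h := xs_sub_ge (g := g) hu a m
  have := mul_nonneg (Nat.cast_nonneg (α := ℝ) m) (dR_nonneg u)
  linarith

theorem xs_sub_ge' (hu : 0 ≤ u) {a b : ℕ} (hab : a < b) : dR u ≤ xs g u b - xs g u a := by
  obtain ⟨m, rfl⟩ : ∃ m, b = a + m := ⟨b - a, by omega⟩
  have h := xs_sub_ge (g := g) hu a m
  have hm : (1 : ℝ) ≤ m := by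
    have : 1 ≤ m := by omega
    exact_mod_cast this
  have := dR_nonneg u
  nlinarith

theorem xs_le_xp (hu : 0 ≤ u) {b : ℕ} (hb : b ≤ kk g n) : xs g u b ≤ xp g n u := by
  have := xs_mono (g := g) hu hb
  unfold xp
  split_ifs <;> linarith

theorem xp_le (hu : 0 ≤ u) : xp g n u ≤ 2 * (kk g n + 1) * u := by
  have := xs_le (g := g) hu (kk g n)
  unfold xp
  split_ifs <;> linarith

theorem xp_ge (hg : 1 ≤ g) (hgn : 3 < 3 * g + n) (hu : 0 ≤ u) : u ≤ xp g n u := by
  unfold xp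
  split_ifs with h
  · have hk : 0 < kk g n := by
      obtain ⟨m, hm⟩ := h
      unfold kk
      omega
    have h1 := xs_sub_ge' (g := g) hu hk
    have h0 : xs g u 0 = 0 := rfl
    have := dR_ge u hu
    linarith
  · have := xs_nonneg (g := g) hu (kk g n)
    linarith

theorem xp_sub_ge (hu : 0 ≤ u) {b : ℕ} (hb : b < kk g n) : dR u ≤ xp g n u - xs g u b := by
  have := xs_sub_ge' (g := g) hu hb
  unfold xp
  split_ifs <;> linarith

end Steps

end Pool.Agent.Lib.MP731498
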