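import Mathlib
import Pool.Agent.Lib.MP731498.Geom

set_option autoImplicit false

namespace Pool.Agent.Lib.MP731498

open Matrix

section Fam

variable (g n : ℕ) (u : ℝ)

/-- reflections in the sides of the polygon -/
noncomputable def RR : ℕ → M2
  | 0 => -Em (xp g n u)
  | 1 => Bm
  | 2 => Em 0
  | (j + 3) => Tm u (xs g u j)

/-- negative Gram matrix -/
noncomputable def cc (i j : ℕ) : ℝ := -(1 / 2) * (RR g n u i * RR g n u j).trace

theorem cc_symm (i j : ℕ) : cc g n u i j = cc g n u j i := by
  unfold cc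
  rw [Matrix.trace_mul_comm]

theorem cc_gram (i j : ℕ) : (RR g n u i * RR g n u j).trace = -2 * cc g n u i j := by
  unfold cc; ring

theorem RR_trace (i : ℕ) : (RR g n u i).trace = 0 := by
  match i with
  | 0 => simp [RR, tr_Em]
  | 1 => exact tr_Bm
  | 2 => exact tr_Em 0
  | (j + 3) => exact tr_Tm _ _

variable {u}

theorem cc_diag (hu : 0 < u) (i : ℕ) : cc g n u i i = -1 := by
  have hS : 0 < Real.sinh u := Real.sinh_pos_iff.2 hu
  unfold cc
  match i with
  | 0 => simp [RR, tr_EE]
  | 1 => simp only [RR, tr_BB]; norm_num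
  | 2 => simp [RR, tr_EE]
  | (j + 3) =>
    simp only [RR, tr_TT, sub_self, Real.cosh_zero]
    rw [Real.cosh_sq]
    field_simp
    ring

theorem cc01 : cc g n u 0 1 = 0 := by
  unfold cc
  simp only [RR, neg_mul, Matrix.trace_neg]
  rw [Matrix.trace_mul_comm, tr_BE]; simp

theorem cc02 : cc g n u 0 2 = Real.cosh (xp g n u) := by
  unfold cc
  simp only [RR, neg_mul, Matrix.trace_neg, tr_EE]
  simp

theorem cc0T (b : ℕ) : cc g n u 0 (b + 3) =
    Real.sinh (xp g n u - xs g u b) / Real.sinh u := by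
  unfold cc
  simp only [RR, neg_mul, Matrix.trace_neg, tr_ET]
  ring

theorem cc12 : cc g n u 1 2 = 0 := by
  unfold cc
  simp only [RR, tr_BE]; simp

theorem cc1T (b : ℕ) : cc g n u 1 (b + 3) = Real.cosh u / Real.sinh u := by
  unfold cc
  simp only [RR, tr_BT]
  ring

theorem cc2T (b : ℕ) : cc g n u 2 (b + 3) = Real.sinh (xs g u b) / Real.sinh u := by
  unfold cc
  simp only [RR, tr_ET, zero_sub, Real.sinh_neg]
  ring

theorem ccTT (a b : ℕ) : cc g n u (a + 3) (b + 3) =
    (Real.cosh (xs g u b - xs g u a) - Real.cosh u ^ 2) / Real.sinh u ^ 2 := by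
  unfold cc
  simp only [RR, tr_TT]
  rw [← Real.cosh_neg (xs g u a - xs g u b), neg_sub]
  ring

/-- pairs of asymptotic sides -/
def idl (i j : ℕ) : Prop := (2 * g + 1 ≤ i ∧ j = i + 1) ∨ (i = 0 ∧ j = 2 * g + 1 + n / 2 ∧ ¬ Even n)

/-- uniform upper bound -/
noncomputable def KK (g n : ℕ) (u : ℝ) : ℝ :=
  Real.cosh (2 * (kk g n + 1) * u) * (1 + 1 / Real.sinh u ^ 2)

theorem cosh_le_of_le {x y : ℝ} (hx : 0 ≤ x) (hxy : x ≤ y) : Real.cosh x ≤ Real.cosh y := by
  rw [Real.cosh_le_cosh, abs_of_nonneg hx, abs_of_nonneg (le_trans hx hxy)]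
  exact hxy

theorem gram_lt (hg : 1 ≤ g) (hgn : 3 < 3 * g + n) (hu : 0 < u) (i j : ℕ) (hij : i < j)
    (hj : j < NS g n) :
    (adj g n i j ∧ cc g n u i j = 0) ∨ (¬ adj g n i j ∧ idl g n i j ∧ cc g n u i j = 1) ∨
    (¬ adj g n i j ∧ ¬ idl g n i j ∧
      (∀ δ, 0 ≤ δ → δ ≤ u → Real.cosh δ ^ 2 ≤ 2 → Real.cosh δ * Real.sinh u ≤ Real.cosh u →
        Real.cosh δ ≤ cc g n u i j) ∧ cc g n u i j ≤ KK g n u) := by
  have hS : 0 < Real.sinh u := Real.sinh_pos_iff.2 hu
  have hu0 := hu.le
  have hx := xp_ge (n := n) hg hgn hu0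
  have hxl := xp_le (g := g) (n := n) hu0
  have hx0 : 0 ≤ xp g n u := le_trans hu0 hx
  have hK1 : Real.cosh (xp g n u) ≤ Real.cosh (2 * (kk g n + 1) * u) := cosh_le_of_le hx0 hxl
  set Q := Real.cosh (2 * (kk g n + 1) * u) with hQ
  have hQ1 : 1 ≤ Q := Real.one_le_cosh _
  have hSinv : 1 / Real.sinh u ≤ 1 + 1 / Real.sinh u ^ 2 := by
    have h1 : 0 < 1 / Real.sinh u := by positivity
    have h2 : 1 / Real.sinh u ^ 2 = (1 / Real.sinh u) ^ 2 := by
      rw [div_pow, one_pow]
    rw [h2]; nlinarith [sq_nonneg (1 / Real.sinh u - 1)]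
  have hS2 : 0 < 1 / Real.sinh u ^ 2 := by positivity
  have hKQ : Q ≤ KK g n u := by
    unfold KK; rw [← hQ]; nlinarith
  have hKQS : Q / Real.sinh u ≤ KK g n u := by
    unfold KK; rw [← hQ, div_eq_mul_one_div]
    exact mul_le_mul_of_nonneg_left hSinv (by linarith)
  have hKQS2 : Q / Real.sinh u ^ 2 ≤ KK g n u := by
    unfold KK; rw [← hQ, div_eq_mul_one_div]
    exact mul_le_mul_of_nonneg_left (by linarith) (by linarith)
  have sinh_le_Q : ∀ y, y ≤ xp g n u → Real.sinh y ≤ Q := by
    intro y hy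
    have h1 : Real.sinh y ≤ Real.sinh (xp g n u) := Real.sinh_le_sinh.2 hy
    have h2 : Real.sinh (xp g n u) ≤ Real.cosh (xp g n u) := (Real.sinh_lt_cosh _).le
    linarith
  match i, j, hij with
  | 0, 1, _ =>
    left
    exact ⟨Or.inl ⟨rfl, by omega⟩, cc01 g n⟩
  | 0, 2, _ =>
    right; right
    refine ⟨?_, ?_, ?_, ?_⟩
    · unfold adj; omega
    · unfold idl; omega
    · intro δ hδ hδu _ _
      rw [cc02]
      exact cosh_le_of_le hδ (le_trans hδu hx)
    · rw [cc02]; exact le_trans hK1 hKQ
  | 0, (b + 3), _ =>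
    have hb : b ≤ kk g n := by unfold NS at hj; unfold kk; omega
    rcases lt_or_eq_of_le hb with hb' | hb'
    · right; right
      have hbL : b + 3 ≠ 2 * g + 1 + n / 2 := by unfold kk at hb'; omega
      refine ⟨?_, ?_, ?_, ?_⟩
      · unfold adj; omega
      · unfold idl; omega
      · intro δ hδ _ h2 _
        rw [cc0T, le_div_iff₀ hS]
        exact le_trans (le_sinh_dR u δ hu0 h2) (Real.sinh_le_sinh.2 (xp_sub_ge hu0 hb'))
      · rw [cc0T]
        refine le_trans ?_ hKQS
        apply div_le_div_of_nonneg_right _ hS.le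
        exact sinh_le_Q _ (by have := xs_nonneg (g := g) hu0 b; linarith)
    · have hbL : b + 3 = 2 * g + 1 + n / 2 := by unfold kk at hb'; omega
      by_cases hn : Even n
      · left
        refine ⟨Or.inr (Or.inr (Or.inr ⟨hn, hbL, rfl⟩)), ?_⟩
        rw [cc0T, hb', xp, if_pos hn]
        simp
      · right; left
        refine ⟨?_, Or.inr ⟨rfl, hbL, hn⟩, ?_⟩
        · unfold adj
          rintro (h | h | h | h)
          · omega
          · omega
          · exact hn h.1
          · exact hn h.1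
        · rw [cc0T, hb', xp, if_neg hn]
          have : xs g u (kk g n) + u - xs g u (kk g n) = u := by ring
          rw [this, div_self hS.ne']
  | 1, 2, _ =>
    left
    exact ⟨Or.inl ⟨rfl, by omega⟩, cc12 g n⟩
  | 1, (b + 3), _ =>
    right; right
    refine ⟨?_, ?_, ?_, ?_⟩
    · unfold adj; omega
    · unfold idl; omega
    · intro δ _ _ _ h3
      rw [cc1T, le_div_iff₀ hS]
      exact h3
    · rw [cc1T]
      refine le_trans ?_ hKQS
      apply div_le_div_of_nonneg_right _ hS.le
      exact le_trans (cosh_le_of_le hu0 hx) hK1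
  | 2, (b + 3), _ =>
    rcases Nat.eq_zero_or_pos b with hb | hb
    · subst hb
      left
      refine ⟨Or.inl ⟨rfl, by omega⟩, ?_⟩
      rw [cc2T]
      simp [xs]
    · right; right
      have hbk : b ≤ kk g n := by unfold NS at hj; unfold kk; omega
      refine ⟨?_, ?_, ?_, ?_⟩
      · unfold adj; omega
      · unfold idl; omega
      · intro δ hδ _ h2 _
        rw [cc2T, le_div_iff₀ hS]
        have h4 := xs_sub_ge' (g := g) hu0 hb
        have h0 : xs g u 0 = 0 := rfl
        rw [h0, sub_zero] at h4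
        exact le_trans (le_sinh_dR u δ hu0 h2) (Real.sinh_le_sinh.2 h4)
      · rw [cc2T]
        refine le_trans ?_ hKQS
        apply div_le_div_of_nonneg_right _ hS.le
        exact sinh_le_Q _ (xs_le_xp hu0 hbk)
  | (a + 3), (b + 3), hab =>
    have hab' : a < b := by omega
    by_cases h1 : b = a + 1
    · subst h1
      have hstep : xs g u (a + 1) - xs g u a = stp g u a := by
        have : xs g u (a + 1) = xs g u a + stp g u a := rfl
        rw [this]; ring
      by_cases h2 : 3 + a ≤ 2 * g
      · left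
        refine ⟨Or.inl ⟨by omega, by omega⟩, ?_⟩
        rw [ccTT, hstep, stp, if_pos h2, cosh_dR]
        simp
      · right; left
        refine ⟨?_, Or.inl ⟨by omega, by omega⟩, ?_⟩
        · unfold adj; omega
        · rw [ccTT, hstep, stp, if_neg h2, Real.cosh_two_mul]
          have : Real.cosh u ^ 2 + Real.sinh u ^ 2 - Real.cosh u ^ 2 = Real.sinh u ^ 2 := by ring
          rw [this, div_self (by positivity)]
    · right; right
      have hbk : b ≤ kk g n := by unfold NS at hj; unfold kk; omega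
      refine ⟨?_, ?_, ?_, ?_⟩
      · unfold adj; omega
      · unfold idl; omega
      · intro δ hδ _ h2 _
        rw [ccTT, le_div_iff₀ (by positivity)]
        have hd0 := dR_nonneg u
        have h3 : 2 * dR u ≤ xs g u b - xs g u a := by
          have h4 := xs_sub_ge (g := g) hu0 a (b - a)
          have h5 : a + (b - a) = b := by omega
          rw [h5] at h4
          have h6 : (2 : ℝ) ≤ ((b - a : ℕ) : ℝ) := by
            have : 2 ≤ b - a := by omega
            exact_mod_cast this
          nlinarith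
        have h7 : Real.cosh (2 * dR u) ≤ Real.cosh (xs g u b - xs g u a) :=
          cosh_le_of_le (by linarith) h3
        rw [Real.cosh_two_mul, sinh_dR_sq, cosh_dR] at h7
        have h8 := Real.cosh_sq u
        have h9 : Real.cosh δ ≤ 3 := by nlinarith [Real.one_le_cosh δ]
        have h10 := one_le_cosh_sq u
        have h11 : 0 < Real.sinh u ^ 2 := by positivity
        nlinarith
      · rw [ccTT]
        refine le_trans ?_ hKQS2
        apply div_le_div_of_nonneg_right _ (by positivity)
        have h3 : 0 ≤ xs g u b - xs g u a := by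
          have := xs_mono (g := g) hu0 hab'.le
          linarith
        have h4 : xs g u b - xs g u a ≤ xp g n u := by
          have h5 := xs_le_xp hu0 hbk
          have := xs_nonneg (g := g) hu0 a
          linarith
        have h6 := cosh_le_of_le h3 h4
        have := one_le_cosh_sq u
        linarith

end Fam

end Pool.Agent.Lib.MP731498
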