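import Mathlib
import Pool.Agent.Lib.MP731498.Fam

set_option autoImplicit false

namespace Pool.Agent.Lib.MP731498

open Matrix

section FamD

variable (g n : ℕ)

theorem cc_off (hg : 1 ≤ g) (hgn : 3 < 3 * g + n) (u : ℝ) (hu : 0 < u) (i j : Fin (NS g n))
    (hij : i ≠ j) :
    (MC g n i j = 2 ∧ cc g n u i j = 0) ∨ (MC g n i j = 0 ∧ 1 ≤ cc g n u i j) := by
  have key : ∀ i j : Fin (NS g n), (i : ℕ) < j →
      (MC g n i j = 2 ∧ cc g n u i j = 0) ∨ (MC g n i j = 0 ∧ 1 ≤ cc g n u i j) := by
    intro i j h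
    have hne : i ≠ j := by
      rintro rfl
      exact lt_irrefl _ h
    rcases gram_lt g n hg hgn hu i j h j.2 with ⟨h1, h2⟩ | ⟨h1, _, h2⟩ | ⟨h1, _, h2, _⟩
    · exact Or.inl ⟨MC_adj g n i j hne h1, h2⟩
    · exact Or.inr ⟨MC_nadj g n i j hne h1, h2.ge⟩
    · refine Or.inr ⟨MC_nadj g n i j hne h1, ?_⟩
      have := h2 0 le_rfl hu.le (by simp) (by
        rw [Real.cosh_zero, one_mul]; exact (Real.sinh_lt_cosh u).le)
      simpa using this
  rcases lt_or_gt_of_ne (Fin.val_ne_of_ne hij) with h | h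
  · exact key i j h
  · have h1 := key j i h
    rw [cc_symm, (MC g n).symmetric]
    exact h1

/-- the polygon data -/
noncomputable def famD (hg : 1 ≤ g) (hgn : 3 < 3 * g + n) (u : ℝ) (hu : 0 < u) :
    Datum (MC g n) where
  c i j := cc g n u i j
  ra :=
    { symm := fun i j => cc_symm g n u i j
      diag := fun i => cc_diag g n hu i
      off := cc_off g n hg hgn u hu }
  R i := RR g n u i
  trace0 i := RR_trace g n u i
  gram i j := cc_gram g n u i j
  v := !![-(Real.exp (xp g n u / 2) / (2 * Real.cosh u)), Real.exp (xp g n u);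
    -1, Real.exp (xp g n u / 2) / (2 * Real.cosh u)]
  pos i := by
    have hx := xp_ge (n := n) hg hgn hu.le
    have hx0 : 0 < xp g n u := lt_of_lt_of_le hu hx
    have hC := Real.cosh_pos u
    have hS : 0 < Real.sinh u := Real.sinh_pos_iff.2 hu
    have hr : Real.exp (xp g n u) = Real.exp (xp g n u / 2) ^ 2 := by
      rw [← Real.exp_nat_mul]; congr 1; push_cast; ring
    have hr1 : 1 < Real.exp (xp g n u) := Real.one_lt_exp_iff.2 hx0
    obtain ⟨i, hi⟩ := i
    match i, hi with
    | 0, _ =>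
      simp only [RR, Em, Matrix.trace, Matrix.diag_apply, Fin.sum_univ_two, Matrix.mul_apply,
        Matrix.neg_apply, Matrix.of_apply, Matrix.cons_val', Matrix.cons_val_zero,
        Matrix.cons_val_one, Matrix.empty_val', Matrix.cons_val_fin_one]
      have h1 : Real.exp (xp g n u) * Real.exp (-(xp g n u)) = 1 := by
        rw [← Real.exp_add]; simp
      nlinarith
    | 1, _ =>
      simp only [RR, Bm, Matrix.trace, Matrix.diag_apply, Fin.sum_univ_two, Matrix.mul_apply,
        Matrix.neg_apply, Matrix.of_apply, Matrix.cons_val', Matrix.cons_val_zero,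
        Matrix.cons_val_one, Matrix.empty_val', Matrix.cons_val_fin_one]
      have : 0 < Real.exp (xp g n u / 2) / (2 * Real.cosh u) := by positivity
      linarith
    | 2, _ =>
      simp only [RR, Em, Matrix.trace, Matrix.diag_apply, Fin.sum_univ_two, Matrix.mul_apply,
        Matrix.neg_apply, Matrix.of_apply, Matrix.cons_val', Matrix.cons_val_zero,
        Matrix.cons_val_one, Matrix.empty_val', Matrix.cons_val_fin_one, neg_zero, Real.exp_zero]
      linarith
    | (j + 3), _ =>
      simp only [RR, Tm, Matrix.trace, Matrix.diag_apply, Fin.sum_univ_two, Matrix.mul_apply,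
        Matrix.neg_apply, Matrix.of_apply, Matrix.cons_val', Matrix.cons_val_zero,
        Matrix.cons_val_one, Matrix.empty_val', Matrix.cons_val_fin_one]
      set r := Real.exp (xp g n u / 2) with hrdef
      set p := Real.exp (xs g u j) with hp
      have hp0 : 0 < p := Real.exp_pos _
      have hr0 : 0 < r := Real.exp_pos _
      have hpn : Real.exp (-xs g u j) = p⁻¹ := by rw [Real.exp_neg]
      rw [hpn, hr]
      have e : -(r / (2 * Real.cosh u)) * (Real.cosh u / Real.sinh u) +
          r ^ 2 * (p⁻¹ / Real.sinh u) +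
          (-1 * (-p / Real.sinh u) +
            r / (2 * Real.cosh u) * (-Real.cosh u / Real.sinh u)) =
          (r ^ 2 + p ^ 2 - r * p) / (p * Real.sinh u) := by
        field_simp
        ring
      rw [e]
      apply div_pos _ (by positivity)
      nlinarith [sq_nonneg (r - p), mul_pos hr0 hp0]
  al i := if (i : ℕ) = 0 then -1 / (2 * Real.sinh (xp g n u)) else
    if (i : ℕ) = 2 then -Real.exp (-(xp g n u)) / (2 * Real.sinh (xp g n u)) else 0
  bt i := if (i : ℕ) = 0 then 1 / (2 * Real.sinh (xp g n u)) else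
    if (i : ℕ) = 2 then Real.exp (xp g n u) / (2 * Real.sinh (xp g n u)) else 0
  hal := by
    have hx := xp_ge (n := n) hg hgn hu.le
    have hx0 : 0 < xp g n u := lt_of_lt_of_le hu hx
    have hS : 0 < Real.sinh (xp g n u) := Real.sinh_pos_iff.2 hx0
    have h0 : 0 < NS g n := by unfold NS; omega
    have h2 : 2 < NS g n := by unfold NS; omega
    rw [Finset.sum_eq_add (⟨0, h0⟩ : Fin (NS g n)) ⟨2, h2⟩ (by simp)]
    · simp only [if_true, RR]
      have hs := Real.sinh_eq (xp g n u)
      have h1 : Real.exp (xp g n u) * Real.exp (-(xp g n u)) = 1 := by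
        rw [← Real.exp_add]; simp
      ext i j
      fin_cases i <;> fin_cases j <;> simp [Em]
      · field_simp
        linarith
      · field_simp
        ring
    · intro c _ hc
      have hc0 : (c : ℕ) ≠ 0 := fun h => hc.1 (Fin.ext h)
      have hc2 : (c : ℕ) ≠ 2 := fun h => hc.2 (Fin.ext h)
      simp [hc0, hc2]
    · simp
    · simp
  hbt := by
    have hx := xp_ge (n := n) hg hgn hu.le
    have hx0 : 0 < xp g n u := lt_of_lt_of_le hu hx
    have hS : 0 < Real.sinh (xp g n u) := Real.sinh_pos_iff.2 hx0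
    have h0 : 0 < NS g n := by unfold NS; omega
    have h2 : 2 < NS g n := by unfold NS; omega
    rw [Finset.sum_eq_add (⟨0, h0⟩ : Fin (NS g n)) ⟨2, h2⟩ (by simp)]
    · simp only [if_true, RR]
      have hs := Real.sinh_eq (xp g n u)
      have h1 : Real.exp (xp g n u) * Real.exp (-(xp g n u)) = 1 := by
        rw [← Real.exp_add]; simp
      ext i j
      fin_cases i <;> fin_cases j <;> simp [Em]
      · field_simp
        ring
      · field_simp
        linarith
    · intro c _ hc
      have hc0 : (c : ℕ) ≠ 0 := fun h => hc.1 (Fin.ext h)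
      have hc2 : (c : ℕ) ≠ 2 := fun h => hc.2 (Fin.ext h)
      simp [hc0, hc2]
    · simp
    · simp

variable {g n}

theorem famD_c (hg : 1 ≤ g) (hgn : 3 < 3 * g + n) (u : ℝ) (hu : 0 < u) (i j : Fin (NS g n)) :
    (famD g n hg hgn u hu).c i j = cc g n u i j := rfl

theorem famD_R (hg : 1 ≤ g) (hgn : 3 < 3 * g + n) (u : ℝ) (hu : 0 < u) (i : Fin (NS g n)) :
    (famD g n hg hgn u hu).R i = RR g n u i := rfl

theorem famD_ideal (hg : 1 ≤ g) (hgn : 3 < 3 * g + n) (u : ℝ) (hu : 0 < u) :
    Ideal (famD g n hg hgn u hu) where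
  mid p h1 h2 hp := by
    rw [famD_c]
    have hi : idl g n p (p + 1) := Or.inl ⟨hp, rfl⟩
    have ha : ¬ adj g n p (p + 1) := by unfold adj; omega
    rcases gram_lt g n hg hgn hu p (p + 1) (by omega) h2 with ⟨h1, _⟩ | ⟨_, _, h2⟩ | ⟨_, h1, _, _⟩
    · exact absurd h1 ha
    · exact h2
    · exact absurd hi h1
  last h1 h2 hn := by
    rw [famD_c, cc_symm]
    have hi : idl g n 0 (2 * g + 1 + n / 2) := Or.inr ⟨rfl, rfl, hn⟩
    have ha : ¬ adj g n 0 (2 * g + 1 + n / 2) := by
      unfold adj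
      rintro (h | h | h | h)
      · omega
      · omega
      · exact hn h.1
      · exact hn h.1
    rcases gram_lt g n hg hgn hu 0 (2 * g + 1 + n / 2) (by omega) h1 with
      ⟨h1, _⟩ | ⟨_, _, h2⟩ | ⟨_, h1, _, _⟩
    · exact absurd h1 ha
    · exact h2
    · exact absurd hi h1

/-- comparison hypothesis for two members of the family -/
theorem fam_hU (hg : 1 ≤ g) (hgn : 3 < 3 * g + n) (u u' : ℝ) (hu : 0 < u) (hu' : 0 < u') (δ : ℝ)
    (hδ : 0 ≤ δ) (hδu : δ ≤ u) (hδ2 : Real.cosh δ ^ 2 ≤ 2)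
    (hδ3 : Real.cosh δ * Real.sinh u ≤ Real.cosh u) (L : ℕ) (hL : 1 ≤ L)
    (hLK : 2 * KK g n u' ≤ Real.exp (δ * L)) (i j : Fin (NS g n)) (hij : i ≠ j)
    (hM : MC g n i j = 0) (k : ℕ) :
    U ((famD g n hg hgn u' hu').c i j) k ≤ (U ((famD g n hg hgn u hu).c i j) k) ^ L := by
  rw [famD_c, famD_c]
  have key : ∀ i j : Fin (NS g n), (i : ℕ) < j → MC g n i j = 0 →
      U (cc g n u' i j) k ≤ (U (cc g n u i j) k) ^ L := by
    intro i j h hM
    have hne : i ≠ j := by
      rintro rfl
      exact lt_irrefl _ h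
    apply hU_of_bounds _ _ δ L hL hδ
    · rcases cc_off g n hg hgn u' hu' i j hne with ⟨h1, _⟩ | ⟨_, h1⟩
      · rw [hM] at h1; omega
      · exact h1
    · rcases gram_lt g n hg hgn hu i j h j.2 with ⟨h1, _⟩ | ⟨_, h1, h2⟩ | ⟨h0, h1, h2, _⟩
      · rw [MC_adj g n i j hne h1] at hM; omega
      · left
        refine ⟨h2, ?_⟩
        rcases gram_lt g n hg hgn hu' i j h j.2 with ⟨h3, _⟩ | ⟨_, _, h3⟩ | ⟨_, h3, _, _⟩
        · rw [MC_adj g n i j hne h3] at hM; omega
        · exact h3
        · exact absurd h1 h3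
      · right
        refine ⟨h2 δ hδ hδu hδ2 hδ3, ?_⟩
        rcases gram_lt g n hg hgn hu' i j h j.2 with ⟨h3, _⟩ | ⟨_, h3, _⟩ | ⟨_, _, _, h3⟩
        · exact absurd h3 h0
        · exact absurd h3 h1
        · linarith
  rcases lt_or_gt_of_ne (Fin.val_ne_of_ne hij) with h | h
  · exact key i j h hM
  · have h1 := key j i h (by rw [(MC g n).symmetric]; exact hM)
    rw [cc_symm g n u' i j, cc_symm g n u i j]
    exact h1

end FamD

end Pool.Agent.Lib.MP731498
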