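import Mathlib
import Pool.Agent.Lib.MP731498.FamD

set_option autoImplicit false

namespace Pool.Agent.Lib.MP731498

open Matrix

section Fam0

variable (n : ℕ) (u : ℝ)

/-- number of `T` sides in genus zero -/
def mz (n : ℕ) : ℕ := n / 2 - 1

/-- position of the last side -/
noncomputable def xz : ℝ := 2 * mz n * u

open Classical in
/-- reflection in the last side -/
noncomputable def Ez : M2 :=
  if Even n then -Em (xz n u) else !![1, -2 * Real.exp (xz n u); 0, -1]

/-- reflections in the sides of the polygon (genus zero) -/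
noncomputable def RZ : ℕ → M2
  | 0 => Bm
  | 1 => Em 0
  | (j + 2) => if j < mz n then Tm u ((2 * j + 1) * u) else Ez n u

/-- negative Gram matrix -/
noncomputable def cz (i j : ℕ) : ℝ := -(1 / 2) * (RZ n u i * RZ n u j).trace

theorem cz_symm (i j : ℕ) : cz n u i j = cz n u j i := by
  unfold cz
  rw [Matrix.trace_mul_comm]

theorem cz_gram (i j : ℕ) : (RZ n u i * RZ n u j).trace = -2 * cz n u i j := by
  unfold cz; ring

theorem Ez_trace : (Ez n u).trace = 0 := by
  unfold Ez
  split_ifs
  · simp [tr_Em]
  · simp [Matrix.trace, Fin.sum_univ_two]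

theorem RZ_trace (i : ℕ) : (RZ n u i).trace = 0 := by
  match i with
  | 0 => exact tr_Bm
  | 1 => exact tr_Em 0
  | (j + 2) =>
    simp only [RZ]
    split_ifs
    · exact tr_Tm _ _
    · exact Ez_trace n u

open Classical in
/-- product of the trace of `E` and the last side -/
noncomputable def cE (n : ℕ) (u : ℝ) : ℝ :=
  if Even n then Real.cosh (xz n u) else Real.exp (xz n u)

theorem tr_EzEz : (Ez n u * Ez n u).trace = 2 := by
  unfold Ez
  split_ifs
  · rw [neg_mul_neg, tr_EE, sub_self, Real.cosh_zero]; norm_num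
  · simp [Matrix.trace, Fin.sum_univ_two, Matrix.mul_apply]; norm_num

open Classical in
theorem tr_BEz : (Bm * Ez n u).trace = if Even n then 0 else -2 := by
  unfold Ez
  split_ifs
  · rw [mul_neg, Matrix.trace_neg, tr_BE, neg_zero]
  · simp [Bm, Matrix.trace, Fin.sum_univ_two, Matrix.mul_apply]; norm_num

theorem tr_EEz : (Em 0 * Ez n u).trace = -2 * cE n u := by
  unfold Ez cE
  split_ifs
  · rw [mul_neg, Matrix.trace_neg, tr_EE, zero_sub, Real.cosh_neg]; ring
  · simp [Em, Matrix.trace, Fin.sum_univ_two, Matrix.mul_apply]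

open Classical in
theorem tr_TEz (x : ℝ) : (Tm u x * Ez n u).trace =
    -2 * ((if Even n then Real.sinh (xz n u - x) else Real.exp (xz n u - x) - Real.cosh u) /
      Real.sinh u) := by
  unfold Ez
  split_ifs
  · rw [mul_neg, Matrix.trace_neg, Matrix.trace_mul_comm, tr_ET]; ring
  · simp [Tm, Matrix.trace, Fin.sum_univ_two, Matrix.mul_apply]
    rw [Real.exp_sub, Real.exp_neg]
    have := Real.exp_pos x
    field_simp
    ring

variable {u}

theorem cz_diag (hu : 0 < u) (i : ℕ) : cz n u i i = -1 := by
  have hS : 0 < Real.sinh u := Real.sinh_pos_iff.2 hu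
  unfold cz
  match i with
  | 0 => simp only [RZ, tr_BB]; norm_num
  | 1 => simp [RZ, tr_EE]
  | (j + 2) =>
    simp only [RZ]
    split_ifs
    · rw [tr_TT, sub_self, Real.cosh_zero, Real.cosh_sq]
      field_simp
      ring
    · rw [tr_EzEz]; norm_num

theorem cz01 : cz n u 0 1 = 0 := by
  unfold cz
  simp only [RZ, tr_BE]; simp

theorem cz0T (b : ℕ) (hb : b < mz n) : cz n u 0 (b + 2) = Real.cosh u / Real.sinh u := by
  unfold cz
  simp only [RZ, hb, if_true, tr_BT]
  ring

open Classical in
theorem cz0E : cz n u 0 (mz n + 2) = if Even n then 0 else 1 := by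
  unfold cz
  simp only [RZ, lt_irrefl, if_false, tr_BEz]
  split_ifs <;> norm_num

theorem cz1T (b : ℕ) (hb : b < mz n) : cz n u 1 (b + 2) =
    Real.sinh ((2 * b + 1) * u) / Real.sinh u := by
  unfold cz
  simp only [RZ, hb, if_true, tr_ET, zero_sub, Real.sinh_neg]
  ring

theorem cz1E : cz n u 1 (mz n + 2) = cE n u := by
  unfold cz
  simp only [RZ, lt_irrefl, if_false, tr_EEz]
  ring

theorem czTT (a b : ℕ) (ha : a < mz n) (hb : b < mz n) : cz n u (a + 2) (b + 2) =
    (Real.cosh ((2 * b + 1) * u - (2 * a + 1) * u) - Real.cosh u ^ 2) / Real.sinh u ^ 2 := by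
  unfold cz
  simp only [RZ, ha, hb, if_true, tr_TT]
  rw [← Real.cosh_neg ((2 * (a : ℝ) + 1) * u - (2 * b + 1) * u), neg_sub]
  ring

open Classical in
theorem czTE (a : ℕ) (ha : a < mz n) : cz n u (a + 2) (mz n + 2) =
    (if Even n then Real.sinh (xz n u - (2 * a + 1) * u) else
      Real.exp (xz n u - (2 * a + 1) * u) - Real.cosh u) / Real.sinh u := by
  unfold cz
  simp only [RZ, ha, lt_irrefl, if_true, if_false, tr_TEz]
  split_ifs <;> ring

/-- uniform upper bound -/
noncomputable def KZ (n : ℕ) (u : ℝ) : ℝ := Real.exp (xz n u) * (1 + 1 / Real.sinh u ^ 2)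

theorem sinh_three_ge (u y : ℝ) (hu : 0 < u) (hy : 3 * u ≤ y) : 3 * Real.sinh u ≤ Real.sinh y := by
  have h1 := Real.sinh_le_sinh.2 hy
  rw [Real.sinh_three_mul] at h1
  have hS : 0 < Real.sinh u := Real.sinh_pos_iff.2 hu
  have : 0 < Real.sinh u ^ 3 := by positivity
  linarith

theorem sinh_le_exp (y : ℝ) : Real.sinh y ≤ Real.exp y := by
  rw [Real.sinh_eq]
  have h1 := Real.exp_pos y
  have h2 := Real.exp_pos (-y)
  linarith

theorem cosh_le_exp (y : ℝ) (hy : 0 ≤ y) : Real.cosh y ≤ Real.exp y := by
  rw [Real.cosh_eq]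
  have h1 : Real.exp (-y) ≤ Real.exp y := Real.exp_le_exp.2 (by linarith)
  linarith

theorem exp_three_ge (u y : ℝ) (hu : 0 < u) (hy : 3 * u ≤ y) :
    3 * Real.sinh u ≤ Real.exp y - Real.cosh u := by
  have h1 : Real.exp (3 * u) ≤ Real.exp y := Real.exp_le_exp.2 hy
  have h2 : Real.exp (3 * u) = Real.cosh (3 * u) + Real.sinh (3 * u) := (Real.cosh_add_sinh _).symm
  have h3 := sinh_three_ge u (3 * u) hu le_rfl
  have h4 := cosh_le_of_le hu.le (show u ≤ 3 * u by linarith)
  linarith

theorem gram_ltz (hn : 4 ≤ n) (hu : 0 < u) (i j : ℕ) (hij : i < j) (hj : j < NS 0 n) :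
    (adj 0 n i j ∧ cz n u i j = 0) ∨ (¬ adj 0 n i j ∧ idl 0 n i j ∧ cz n u i j = 1) ∨
    (¬ adj 0 n i j ∧ ¬ idl 0 n i j ∧
      (∀ δ, Real.cosh δ ^ 2 ≤ 2 → Real.cosh δ * Real.sinh u ≤ Real.cosh u →
        Real.cosh δ ≤ cE n u → Real.cosh δ ≤ cz n u i j) ∧ cz n u i j ≤ KZ n u) := by
  have hS : 0 < Real.sinh u := Real.sinh_pos_iff.2 hu
  have hu0 := hu.le
  have hm1 : 1 ≤ mz n := by unfold mz; omega
  have hm1' : (1 : ℝ) ≤ mz n := by exact_mod_cast hm1
  have hx : u ≤ xz n u := by unfold xz; nlinarith
  have hx0 : 0 ≤ xz n u := le_trans hu0 hx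
  set Q := Real.exp (xz n u) with hQ
  have hQ1 : 1 ≤ Q := Real.one_le_exp hx0
  have hSinv : 1 / Real.sinh u ≤ 1 + 1 / Real.sinh u ^ 2 := by
    have h1 : 0 < 1 / Real.sinh u := by positivity
    have h2 : 1 / Real.sinh u ^ 2 = (1 / Real.sinh u) ^ 2 := by
      rw [div_pow, one_pow]
    rw [h2]; nlinarith [sq_nonneg (1 / Real.sinh u - 1)]
  have hS2 : 0 < 1 / Real.sinh u ^ 2 := by positivity
  have hKQ : Q ≤ KZ n u := by
    unfold KZ; rw [← hQ]; nlinarith
  have hKQS : Q / Real.sinh u ≤ KZ n u := by
    unfold KZ; rw [← hQ, div_eq_mul_one_div]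
    exact mul_le_mul_of_nonneg_left hSinv (by linarith)
  have hKQS2 : Q / Real.sinh u ^ 2 ≤ KZ n u := by
    unfold KZ; rw [← hQ, div_eq_mul_one_div]
    exact mul_le_mul_of_nonneg_left (by linarith) (by linarith)
  have hcosh3 : ∀ δ, Real.cosh δ ^ 2 ≤ 2 → Real.cosh δ ≤ 3 := by
    intro δ hδ; nlinarith [Real.one_le_cosh δ]
  match i, j, hij with
  | 0, 1, _ =>
    left
    exact ⟨Or.inl ⟨rfl, by omega⟩, cz01 n⟩
  | 0, (b + 2), _ =>
    have hb : b ≤ mz n := by unfold NS at hj; unfold mz; omega
    rcases lt_or_eq_of_le hb with hb' | hb'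
    · right; right
      have hbL : b + 2 ≠ 2 * 0 + 1 + n / 2 := by unfold mz at hb'; omega
      refine ⟨?_, ?_, ?_, ?_⟩
      · unfold adj; omega
      · unfold idl; omega
      · intro δ _ h3 _
        rw [cz0T n b hb', le_div_iff₀ hS]
        exact h3
      · rw [cz0T n b hb']
        refine le_trans ?_ hKQS
        apply div_le_div_of_nonneg_right _ hS.le
        exact le_trans (cosh_le_exp u hu0) (Real.exp_le_exp.2 hx)
    · have hbL : b + 2 = 2 * 0 + 1 + n / 2 := by unfold mz at hb'; omega
      by_cases hne : Even n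
      · left
        refine ⟨Or.inr (Or.inr (Or.inr ⟨hne, hbL, rfl⟩)), ?_⟩
        rw [hb', cz0E, if_pos hne]
      · right; left
        refine ⟨?_, Or.inr ⟨rfl, hbL, hne⟩, ?_⟩
        · unfold adj
          rintro (h | h | h | h)
          · omega
          · omega
          · exact hne h.1
          · exact hne h.1
        · rw [hb', cz0E, if_neg hne]
  | 1, (b + 2), _ =>
    have hb : b ≤ mz n := by unfold NS at hj; unfold mz; omega
    rcases lt_or_eq_of_le hb with hb' | hb'
    · rcases Nat.eq_zero_or_pos b with h0 | h0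
      · subst h0
        right; left
        refine ⟨?_, Or.inl ⟨by omega, by omega⟩, ?_⟩
        · unfold adj; omega
        · rw [cz1T n 0 hb']
          simp [hS.ne']
      · right; right
        have h0' : (1 : ℝ) ≤ b := by exact_mod_cast h0
        refine ⟨?_, ?_, ?_, ?_⟩
        · unfold adj; omega
        · unfold idl; omega
        · intro δ h2 _ _
          rw [cz1T n b hb', le_div_iff₀ hS]
          have := sinh_three_ge u ((2 * b + 1) * u) hu (by nlinarith)
          have := hcosh3 δ h2
          nlinarith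
        · rw [cz1T n b hb']
          refine le_trans ?_ hKQS
          apply div_le_div_of_nonneg_right _ hS.le
          refine le_trans (sinh_le_exp _) (Real.exp_le_exp.2 ?_)
          have : (b : ℝ) + 1 ≤ mz n := by exact_mod_cast hb'
          unfold xz
          nlinarith
    · right; right
      have hbL : b + 2 = 2 * 0 + 1 + n / 2 := by unfold mz at hb'; omega
      refine ⟨?_, ?_, ?_, ?_⟩
      · unfold adj; omega
      · unfold idl; omega
      · intro δ _ _ h4
        rw [hb', cz1E]
        exact h4
      · rw [hb', cz1E]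
        refine le_trans ?_ hKQ
        unfold cE
        split_ifs
        · exact cosh_le_exp _ hx0
        · exact le_rfl
  | (a + 2), (b + 2), hab =>
    have hab' : a < b := by omega
    have hb : b ≤ mz n := by unfold NS at hj; unfold mz; omega
    have ha : a < mz n := by omega
    rcases lt_or_eq_of_le hb with hb' | hb'
    · by_cases h1 : b = a + 1
      · right; left
        refine ⟨?_, Or.inl ⟨by omega, by omega⟩, ?_⟩
        · unfold adj; omega
        · rw [czTT n a b ha hb', h1]
          have e : (2 * ((a + 1 : ℕ) : ℝ) + 1) * u - (2 * a + 1) * u = 2 * u := by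
            push_cast; ring
          rw [e, Real.cosh_two_mul]
          have : Real.cosh u ^ 2 + Real.sinh u ^ 2 - Real.cosh u ^ 2 = Real.sinh u ^ 2 := by ring
          rw [this, div_self (by positivity)]
      · right; right
        have hba : (a : ℝ) + 2 ≤ b := by
          have : a + 2 ≤ b := by omega
          exact_mod_cast this
        refine ⟨?_, ?_, ?_, ?_⟩
        · unfold adj; omega
        · unfold idl; omega
        · intro δ h2 _ _
          rw [czTT n a b ha hb', le_div_iff₀ (by positivity)]
          have h7 : Real.cosh (2 * (2 * u)) ≤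
              Real.cosh ((2 * (b : ℝ) + 1) * u - (2 * a + 1) * u) := by
            apply cosh_le_of_le (by linarith)
            nlinarith
          rw [Real.cosh_two_mul, Real.cosh_two_mul, Real.sinh_two_mul] at h7
          have h8 := Real.cosh_sq u
          have h9 := hcosh3 δ h2
          have h11 : 0 < Real.sinh u ^ 2 := by positivity
          rw [h8] at h7 ⊢
          nlinarith [sq_nonneg (Real.sinh u ^ 2)]
        · rw [czTT n a b ha hb']
          refine le_trans ?_ hKQS2
          apply div_le_div_of_nonneg_right _ (by positivity)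
          have h3 : 0 ≤ (2 * (b : ℝ) + 1) * u - (2 * a + 1) * u := by nlinarith
          have h4 : (2 * (b : ℝ) + 1) * u - (2 * a + 1) * u ≤ xz n u := by
            have : (b : ℝ) + 1 ≤ mz n := by exact_mod_cast hb'
            have ha0 : (0 : ℝ) ≤ a := Nat.cast_nonneg a
            unfold xz
            nlinarith
          have h6 := le_trans (cosh_le_exp _ h3) (Real.exp_le_exp.2 h4)
          have := one_le_cosh_sq u
          linarith
    · have hbL : b + 2 = 2 * 0 + 1 + n / 2 := by unfold mz at hb'; omega
      have ha0 : (0 : ℝ) ≤ a := Nat.cast_nonneg a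
      by_cases h1 : b = a + 1
      · right; left
        refine ⟨?_, Or.inl ⟨by omega, by omega⟩, ?_⟩
        · unfold adj; omega
        · have e : xz n u - (2 * a + 1) * u = u := by
            unfold xz; rw [← hb', h1]; push_cast; ring
          rw [hb', czTE n a ha, e]
          split_ifs
          · exact div_self hS.ne'
          · rw [← Real.cosh_add_sinh]
            have : Real.cosh u + Real.sinh u - Real.cosh u = Real.sinh u := by ring
            rw [this, div_self hS.ne']
      · right; right
        have h2 : a + 2 ≤ mz n := by omega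
        have h2' : (a : ℝ) + 2 ≤ mz n := by exact_mod_cast h2
        have hy : 3 * u ≤ xz n u - (2 * a + 1) * u := by unfold xz; nlinarith
        have hy2 : xz n u - (2 * a + 1) * u ≤ xz n u := by nlinarith
        refine ⟨?_, ?_, ?_, ?_⟩
        · unfold adj; omega
        · unfold idl; omega
        · intro δ h2 _ _
          have h9 := hcosh3 δ h2
          rw [hb', czTE n a ha, le_div_iff₀ hS]
          split_ifs
          · have := sinh_three_ge u _ hu hy
            nlinarith
          · have := exp_three_ge u _ hu hy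
            nlinarith
        · rw [hb', czTE n a ha]
          refine le_trans ?_ hKQS
          apply div_le_div_of_nonneg_right _ hS.le
          split_ifs
          · exact le_trans (sinh_le_exp _) (Real.exp_le_exp.2 hy2)
          · have h5 : Real.exp (xz n u - (2 * a + 1) * u) ≤ Q := Real.exp_le_exp.2 hy2
            have := Real.cosh_pos u
            linarith

end Fam0

end Pool.Agent.Lib.MP731498
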