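import Mathlib
import Pool.Agent.Lib.MP731498.Fam0

set_option autoImplicit false

namespace Pool.Agent.Lib.MP731498

open Matrix

section FamD0

variable (n : ℕ)

theorem one_le_mz (hn : 4 ≤ n) : 1 ≤ mz n := by unfold mz; omega

theorem xz_ge (hn : 4 ≤ n) {u : ℝ} (hu : 0 ≤ u) : 2 * u ≤ xz n u := by
  have h := one_le_mz n hn
  have h' : (1 : ℝ) ≤ mz n := by exact_mod_cast h
  unfold xz
  nlinarith

theorem one_lt_cE (hn : 4 ≤ n) {u : ℝ} (hu : 0 < u) : 1 < cE n u := by
  have h := xz_ge n hn hu.le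
  unfold cE
  split_ifs
  · rw [Real.one_lt_cosh]; linarith
  · rw [Real.one_lt_exp_iff]; linarith

theorem cz_off (hn : 4 ≤ n) (u : ℝ) (hu : 0 < u) (i j : Fin (NS 0 n)) (hij : i ≠ j) :
    (MC 0 n i j = 2 ∧ cz n u i j = 0) ∨ (MC 0 n i j = 0 ∧ 1 ≤ cz n u i j) := by
  have key : ∀ i j : Fin (NS 0 n), (i : ℕ) < j →
      (MC 0 n i j = 2 ∧ cz n u i j = 0) ∨ (MC 0 n i j = 0 ∧ 1 ≤ cz n u i j) := by
    intro i j h
    have hne : i ≠ j := by
      rintro rfl
      exact lt_irrefl _ h
    rcases gram_ltz n hn hu i j h j.2 with ⟨h1, h2⟩ | ⟨h1, _, h2⟩ | ⟨h1, _, h2, _⟩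
    · exact Or.inl ⟨MC_adj 0 n i j hne h1, h2⟩
    · exact Or.inr ⟨MC_nadj 0 n i j hne h1, h2.ge⟩
    · refine Or.inr ⟨MC_nadj 0 n i j hne h1, ?_⟩
      have := h2 0 (by simp) (by
        rw [Real.cosh_zero, one_mul]; exact (Real.sinh_lt_cosh u).le) (by
        rw [Real.cosh_zero]; exact (one_lt_cE n hn hu).le)
      simpa using this
  rcases lt_or_gt_of_ne (Fin.val_ne_of_ne hij) with h | h
  · exact key i j h
  · have h1 := key j i h
    rw [cz_symm, (MC 0 n).symmetric]
    exact h1

variable {n}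

theorem RZ_last (u : ℝ) : RZ n u (mz n + 2) = Ez n u := by
  simp [RZ]

theorem mem_span_RZ (u : ℝ) (i : ℕ) (h : i < NS 0 n) :
    RZ n u i ∈ Submodule.span ℝ (Set.range fun i : Fin (NS 0 n) => RZ n u i) :=
  Submodule.subset_span ⟨⟨i, h⟩, rfl⟩

theorem span_E (hn : 4 ≤ n) (u : ℝ) (hu : 0 < u) :
    (!![0, 1; 0, 0] : M2) ∈ Submodule.span ℝ (Set.range fun i : Fin (NS 0 n) => RZ n u i) ∧
    (!![0, 0; 1, 0] : M2) ∈ Submodule.span ℝ (Set.range fun i : Fin (NS 0 n) => RZ n u i) := by
  have h0 := mem_span_RZ (n := n) u 0 (by unfold NS; omega)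
  have h1 := mem_span_RZ (n := n) u 1 (by unfold NS; omega)
  have hL := mem_span_RZ (n := n) u (mz n + 2) (by unfold NS mz; omega)
  rw [RZ_last] at hL
  have hx := xz_ge n hn hu.le
  have hx0 : 0 < xz n u := by linarith
  have hS : 0 < Real.sinh (xz n u) := Real.sinh_pos_iff.2 hx0
  by_cases hne : Even n
  · have hs := Real.sinh_eq (xz n u)
    have he : Real.exp (xz n u) * Real.exp (-(xz n u)) = 1 := by
      rw [← Real.exp_add]; simp
    have hEz : Ez n u = -Em (xz n u) := by unfold Ez; rw [if_pos hne]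
    rw [hEz] at hL
    constructor
    · have h2 := Submodule.add_mem _ (Submodule.smul_mem _ (-1 / (2 * Real.sinh (xz n u))) hL)
        (Submodule.smul_mem _ (-Real.exp (-(xz n u)) / (2 * Real.sinh (xz n u))) h1)
      convert h2 using 1
      ext i j
      fin_cases i <;> fin_cases j <;> simp [Em, RZ]
      · field_simp
        linarith
      · field_simp
        ring
    · have h2 := Submodule.add_mem _ (Submodule.smul_mem _ (1 / (2 * Real.sinh (xz n u))) hL)
        (Submodule.smul_mem _ (Real.exp (xz n u) / (2 * Real.sinh (xz n u))) h1)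
      convert h2 using 1
      ext i j
      fin_cases i <;> fin_cases j <;> simp [Em, RZ]
      · field_simp
        ring
      · field_simp
        linarith
  · have hEz : Ez n u = !![1, -2 * Real.exp (xz n u); 0, -1] := by unfold Ez; rw [if_neg hne]
    rw [hEz] at hL
    have hQ := Real.exp_pos (xz n u)
    have hA : (!![0, 1; 0, 0] : M2) ∈
        Submodule.span ℝ (Set.range fun i : Fin (NS 0 n) => RZ n u i) := by
      have h2 := Submodule.smul_mem _ (-1 / (2 * Real.exp (xz n u))) (Submodule.add_mem _ h0 hL)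
      convert h2 using 1
      ext i j
      fin_cases i <;> fin_cases j <;> simp [Bm, RZ]
    refine ⟨hA, ?_⟩
    have h2 := Submodule.sub_mem _ h1 hA
    convert h2 using 1
    ext i j
    fin_cases i <;> fin_cases j <;> simp [Em, RZ]

/-- the polygon data in genus zero -/
noncomputable def famZ (n : ℕ) (hn : 4 ≤ n) (u : ℝ) (hu : 0 < u) : Datum (MC 0 n) where
  c i j := cz n u i j
  ra :=
    { symm := fun i j => cz_symm n u i j
      diag := fun i => cz_diag n hu i
      off := cz_off n hn u hu }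
  R i := RZ n u i
  trace0 i := RZ_trace n u i
  gram i j := cz_gram n u i j
  v := !![-(Real.exp (xz n u / 2) / (2 * Real.cosh u)), Real.exp (xz n u);
    -1, Real.exp (xz n u / 2) / (2 * Real.cosh u)]
  pos i := by
    have hx := xz_ge n hn hu.le
    have hx0 : 0 < xz n u := by linarith
    have hC := Real.cosh_pos u
    have hS : 0 < Real.sinh u := Real.sinh_pos_iff.2 hu
    have hr : Real.exp (xz n u) = Real.exp (xz n u / 2) ^ 2 := by
      rw [← Real.exp_nat_mul]; congr 1; push_cast; ring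
    have hr1 : 1 < Real.exp (xz n u) := Real.one_lt_exp_iff.2 hx0
    obtain ⟨i, hi⟩ := i
    match i, hi with
    | 0, _ =>
      simp only [RZ, Bm, Matrix.trace, Matrix.diag_apply, Fin.sum_univ_two, Matrix.mul_apply,
        Matrix.neg_apply, Matrix.of_apply, Matrix.cons_val', Matrix.cons_val_zero,
        Matrix.cons_val_one, Matrix.empty_val', Matrix.cons_val_fin_one]
      have : 0 < Real.exp (xz n u / 2) / (2 * Real.cosh u) := by positivity
      linarith
    | 1, _ =>
      simp only [RZ, Em, Matrix.trace, Matrix.diag_apply, Fin.sum_univ_two, Matrix.mul_apply,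
        Matrix.neg_apply, Matrix.of_apply, Matrix.cons_val', Matrix.cons_val_zero,
        Matrix.cons_val_one, Matrix.empty_val', Matrix.cons_val_fin_one, neg_zero, Real.exp_zero]
      linarith
    | (j + 2), _ =>
      simp only [RZ]
      split_ifs with hj
      · simp only [Tm, Matrix.trace, Matrix.diag_apply, Fin.sum_univ_two, Matrix.mul_apply,
          Matrix.neg_apply, Matrix.of_apply, Matrix.cons_val', Matrix.cons_val_zero,
          Matrix.cons_val_one, Matrix.empty_val', Matrix.cons_val_fin_one]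
        set r := Real.exp (xz n u / 2) with hrdef
        set p := Real.exp ((2 * (j : ℝ) + 1) * u) with hp
        have hp0 : 0 < p := Real.exp_pos _
        have hr0 : 0 < r := Real.exp_pos _
        have hpn : Real.exp (-((2 * (j : ℝ) + 1) * u)) = p⁻¹ := by rw [Real.exp_neg]
        rw [hpn, hr]
        have e : -(r / (2 * Real.cosh u)) * (Real.cosh u / Real.sinh u) +
            r ^ 2 * (p⁻¹ / Real.sinh u) +
            (-1 * (-p / Real.sinh u) +
              r / (2 * Real.cosh u) * (-Real.cosh u / Real.sinh u)) =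
            (r ^ 2 + p ^ 2 - r * p) / (p * Real.sinh u) := by
          field_simp
          ring
        rw [e]
        apply div_pos _ (by positivity)
        nlinarith [sq_nonneg (r - p), mul_pos hr0 hp0]
      · unfold Ez
        split_ifs
        · simp only [Em, Matrix.trace, Matrix.diag_apply, Fin.sum_univ_two, Matrix.mul_apply,
            Matrix.neg_apply, Matrix.of_apply, Matrix.cons_val', Matrix.cons_val_zero,
            Matrix.cons_val_one, Matrix.empty_val', Matrix.cons_val_fin_one]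
          have h1 : Real.exp (xz n u) * Real.exp (-(xz n u)) = 1 := by
            rw [← Real.exp_add]; simp
          nlinarith
        · simp only [Matrix.trace, Matrix.diag_apply, Fin.sum_univ_two, Matrix.mul_apply,
            Matrix.neg_apply, Matrix.of_apply, Matrix.cons_val', Matrix.cons_val_zero,
            Matrix.cons_val_one, Matrix.empty_val', Matrix.cons_val_fin_one]
          set r := Real.exp (xz n u / 2) with hrdef
          have hr0 : 1 ≤ r := Real.one_le_exp (by linarith)
          have hC1 := Real.one_le_cosh u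
          have h2 : r / (2 * Real.cosh u) ≤ r / 2 := by
            apply div_le_div_of_nonneg_left (by linarith) (by norm_num) (by linarith)
          rw [hr]
          nlinarith
  al := Classical.choose (Submodule.mem_span_range_iff_exists_fun ℝ |>.1 (span_E hn u hu).1)
  bt := Classical.choose (Submodule.mem_span_range_iff_exists_fun ℝ |>.1 (span_E hn u hu).2)
  hal := Classical.choose_spec
    (Submodule.mem_span_range_iff_exists_fun ℝ |>.1 (span_E hn u hu).1)
  hbt := Classical.choose_spec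
    (Submodule.mem_span_range_iff_exists_fun ℝ |>.1 (span_E hn u hu).2)

theorem famZ_c (hn : 4 ≤ n) (u : ℝ) (hu : 0 < u) (i j : Fin (NS 0 n)) :
    (famZ n hn u hu).c i j = cz n u i j := rfl

theorem famZ_R (hn : 4 ≤ n) (u : ℝ) (hu : 0 < u) (i : Fin (NS 0 n)) :
    (famZ n hn u hu).R i = RZ n u i := rfl

theorem famZ_ideal (hn : 4 ≤ n) (u : ℝ) (hu : 0 < u) : Ideal (famZ n hn u hu) where
  mid p h1 h2 hp := by
    rw [famZ_c]
    have hi : idl 0 n p (p + 1) := Or.inl ⟨hp, rfl⟩
    have ha : ¬ adj 0 n p (p + 1) := by unfold adj; omega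
    rcases gram_ltz n hn hu p (p + 1) (by omega) h2 with ⟨h1, _⟩ | ⟨_, _, h2⟩ | ⟨_, h1, _, _⟩
    · exact absurd h1 ha
    · exact h2
    · exact absurd hi h1
  last h1 h2 hne := by
    rw [famZ_c, cz_symm]
    have hi : idl 0 n 0 (2 * 0 + 1 + n / 2) := Or.inr ⟨rfl, rfl, hne⟩
    have ha : ¬ adj 0 n 0 (2 * 0 + 1 + n / 2) := by
      unfold adj
      rintro (h | h | h | h)
      · omega
      · omega
      · exact hne h.1
      · exact hne h.1
    rcases gram_ltz n hn hu 0 (2 * 0 + 1 + n / 2) (by omega) h1 with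
      ⟨h1, _⟩ | ⟨_, _, h2⟩ | ⟨_, h1, _, _⟩
    · exact absurd h1 ha
    · exact h2
    · exact absurd hi h1

/-- comparison hypothesis for two members of the family -/
theorem famZ_hU (hn : 4 ≤ n) (u u' : ℝ) (hu : 0 < u) (hu' : 0 < u') (δ : ℝ)
    (hδ : 0 ≤ δ) (hδ2 : Real.cosh δ ^ 2 ≤ 2)
    (hδ3 : Real.cosh δ * Real.sinh u ≤ Real.cosh u) (hδ4 : Real.cosh δ ≤ cE n u)
    (L : ℕ) (hL : 1 ≤ L)
    (hLK : 2 * KZ n u' ≤ Real.exp (δ * L)) (i j : Fin (NS 0 n)) (hij : i ≠ j)
    (hM : MC 0 n i j = 0) (k : ℕ) :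
    U ((famZ n hn u' hu').c i j) k ≤ (U ((famZ n hn u hu).c i j) k) ^ L := by
  rw [famZ_c, famZ_c]
  have key : ∀ i j : Fin (NS 0 n), (i : ℕ) < j → MC 0 n i j = 0 →
      U (cz n u' i j) k ≤ (U (cz n u i j) k) ^ L := by
    intro i j h hM
    have hne : i ≠ j := by
      rintro rfl
      exact lt_irrefl _ h
    apply hU_of_bounds _ _ δ L hL hδ
    · rcases cz_off n hn u' hu' i j hne with ⟨h1, _⟩ | ⟨_, h1⟩
      · rw [hM] at h1; omega
      · exact h1
    · rcases gram_ltz n hn hu i j h j.2 with ⟨h1, _⟩ | ⟨_, h1, h2⟩ | ⟨h0, h1, h2, _⟩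
      · rw [MC_adj 0 n i j hne h1] at hM; omega
      · left
        refine ⟨h2, ?_⟩
        rcases gram_ltz n hn hu' i j h j.2 with ⟨h3, _⟩ | ⟨_, _, h3⟩ | ⟨_, h3, _, _⟩
        · rw [MC_adj 0 n i j hne h3] at hM; omega
        · exact h3
        · exact absurd h1 h3
      · right
        refine ⟨h2 δ hδ2 hδ3 hδ4, ?_⟩
        rcases gram_ltz n hn hu' i j h j.2 with ⟨h3, _⟩ | ⟨_, h3, _⟩ | ⟨_, _, _, h3⟩
        · exact absurd h3 h0
        · exact absurd h3 h1
        · linarith
  rcases lt_or_gt_of_ne (Fin.val_ne_of_ne hij) with h | h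
  · exact key i j h hM
  · have h1 := key j i h (by rw [(MC 0 n).symmetric]; exact hM)
    rw [cz_symm n u' i j, cz_symm n u i j]
    exact h1

end FamD0

end Pool.Agent.Lib.MP731498
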