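import Mathlib
import Pool.Agent.Lib.MP731498.Assembly
import Pool.Agent.Lib.MP731498.FamD

set_option autoImplicit false

namespace Pool.Agent.Lib.MP731498

open scoped ENNReal

section Cont

variable {g n : ℕ}

theorem continuous_rho (D : ℝ → Datum (MC g n)) (hD : ∀ i, Continuous fun s => (D s).R i)
    (γ : SurfaceGroup g n) : Continuous fun s => rho (D s) γ := by
  have hf : ∀ i, Continuous fun s => (RH (D s) i).2 := by
    intro i
    by_cases h : i < NS g n
    · have e : (fun s => (RH (D s) i).2) = fun s => uR (D s) ⟨i, h⟩ := by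
        funext s
        rw [RH_lt (D s) i h]
      rw [e, Units.continuous_iff]
      exact ⟨hD ⟨i, h⟩, hD ⟨i, h⟩⟩
    · have e : (fun s => (RH (D s) i).2) = fun _ => 1 := by
        funext s
        simp [RH, h]
      rw [e]
      exact continuous_const
  let SS : Subgroup (SurfaceGroup g n) :=
    { carrier := {γ | Continuous fun s => (Phi (D s) γ).2}
      one_mem' := by
        change Continuous fun s => (Phi (D s) 1).2
        simp only [map_one, Prod.snd_one]
        exact continuous_const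
      mul_mem' := by
        intro a b ha hb
        change Continuous fun s => (Phi (D s) (a * b)).2
        simp only [map_mul, Prod.snd_mul]
        exact Continuous.mul ha hb
      inv_mem' := by
        intro a ha
        change Continuous fun s => (Phi (D s) a⁻¹).2
        simp only [map_inv, Prod.snd_inv]
        exact Continuous.inv ha }
  have hmem : γ ∈ SS := by
    apply surf_closure
    · intro k
      change Continuous fun s => (Phi (D s) (ga k)).2
      have e : (fun s => (Phi (D s) (ga k)).2) =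
          fun s => AE (fun i => (RH (D s) i).2) k := by
        funext s
        rw [Phi, IsRefl.hom_a]
        exact map_AE (MonoidHom.snd _ _) (RH (D s)) k
      rw [e]
      simp only [AE, sE, uE]
      have h1 := hf 1
      have h0 := hf 0
      have h2 := hf (2 * k + 1)
      have h3 := hf (2 * k + 2)
      exact ((h1.mul h2).mul (h0.mul h3)).mul (h1.mul h2).inv
    · intro k
      change Continuous fun s => (Phi (D s) (gb k)).2
      have e : (fun s => (Phi (D s) (gb k)).2) =
          fun s => BE (fun i => (RH (D s) i).2) k := by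
        funext s
        rw [Phi, IsRefl.hom_b]
        exact map_BE (MonoidHom.snd _ _) (RH (D s)) k
      rw [e]
      simp only [BE, sE]
      have h1 := hf 1
      have h2 := hf (2 * k + 1)
      have h3 := hf (2 * (k + 1) + 1)
      exact (h1.mul h3).mul (h1.mul h2).inv
    · intro k
      change Continuous fun s => (Phi (D s) (gc k)).2
      have e : (fun s => (Phi (D s) (gc k)).2) =
          fun s => CE (fun i => (RH (D s) i).2) g n k := by
        funext s
        rw [Phi, IsRefl.hom_c]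
        exact map_CE (MonoidHom.snd _ _) (RH (D s)) g n k
      rw [e]
      have hDE : ∀ j, Continuous fun s => DE (fun i => (RH (D s) i).2) g n j := by
        intro j
        unfold DE
        split_ifs
        · exact (hf _).mul (hf _)
        · exact ((hf _).mul ((hf _).mul (hf _))).mul (hf _)
      exact (hDE _).mul (hDE _).inv
  have h1 : Continuous fun s => (Phi (D s) γ).2 := hmem
  have h2 : Continuous fun s => (rho (D s) γ).1 := by
    have := Units.continuous_val.comp h1
    exact this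
  exact continuous_induced_rng.2 h2

end Cont

section Simple1

variable {g n : ℕ}

theorem one_preserves (w : SurfaceGroup g n) (hw : w ∈ Standard g n) : w ∈ Simple g n :=
  ⟨1, fun j => ⟨j, Or.inl (IsConj.refl (gc j : SurfaceGroup g n))⟩, w, hw, rfl⟩

/-- images under the rotation of the first handle -/
def At (g n : ℕ) (i : ℕ) : SurfaceGroup g n :=
  if i = 0 then xa g n 0 * xb g n 0 * (xa g n 0)⁻¹ else xa g n i
def Bt (g n : ℕ) (i : ℕ) : SurfaceGroup g n := if i = 0 then (xa g n 0)⁻¹ else xb g n i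
def At' (g n : ℕ) (i : ℕ) : SurfaceGroup g n := if i = 0 then (xb g n 0)⁻¹ else xa g n i
def Bt' (g n : ℕ) (i : ℕ) : SurfaceGroup g n :=
  if i = 0 then xb g n 0 * xa g n 0 * (xb g n 0)⁻¹ else xb g n i

theorem com_t (i : ℕ) : com (At g n i) (Bt g n i) = com (xa g n i) (xb g n i) := by
  unfold At Bt
  by_cases h : i = 0
  · subst h
    simp only [if_true, com]
    group
  · simp only [h, if_false]

theorem com_t' (i : ℕ) : com (At' g n i) (Bt' g n i) = com (xa g n i) (xb g n i) := by
  unfold At' Bt'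
  by_cases h : i = 0
  · subst h
    simp only [if_true, com]
    group
  · simp only [h, if_false]

theorem rel_t : Pi (At g n) (Bt g n) g * pr (xc g n) n = 1 := by
  rw [← surf_relation g n]
  congr 1
  exact pr_congr _ _ _ fun i _ => com_t i

theorem rel_t' : Pi (At' g n) (Bt' g n) g * pr (xc g n) n = 1 := by
  rw [← surf_relation g n]
  congr 1
  exact pr_congr _ _ _ fun i _ => com_t' i

/-- the rotation of the first handle -/
def rot (g n : ℕ) : SurfaceGroup g n →* SurfaceGroup g n := surfHom (At g n) (Bt g n) (xc g n) rel_t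
def rot' (g n : ℕ) : SurfaceGroup g n →* SurfaceGroup g n :=
  surfHom (At' g n) (Bt' g n) (xc g n) rel_t'

theorem rot_a (k : ℕ) (hk : k < g) : rot g n (xa g n k) = At g n k :=
  map_xa (rot g n) (At g n) (surfHom_a _ _ _ _) k hk
theorem rot_b (k : ℕ) (hk : k < g) : rot g n (xb g n k) = Bt g n k :=
  map_xb (rot g n) (Bt g n) (surfHom_b _ _ _ _) k hk
theorem rot_c (k : ℕ) (hk : k < n) : rot g n (xc g n k) = xc g n k :=
  map_xc (rot g n) (xc g n) (surfHom_c _ _ _ _) k hk
theorem rot'_a (k : ℕ) (hk : k < g) : rot' g n (xa g n k) = At' g n k :=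
  map_xa (rot' g n) (At' g n) (surfHom_a _ _ _ _) k hk
theorem rot'_b (k : ℕ) (hk : k < g) : rot' g n (xb g n k) = Bt' g n k :=
  map_xb (rot' g n) (Bt' g n) (surfHom_b _ _ _ _) k hk
theorem rot'_c (k : ℕ) (hk : k < n) : rot' g n (xc g n k) = xc g n k :=
  map_xc (rot' g n) (xc g n) (surfHom_c _ _ _ _) k hk

theorem rot_rot' : (rot' g n).comp (rot g n) = MonoidHom.id _ := by
  apply hom_ext'
  · intro k hk
    simp only [MonoidHom.comp_apply, MonoidHom.id_apply]
    rw [rot_a k hk, At]
    split_ifs with h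
    · subst h
      simp only [map_mul, map_inv]
      rw [rot'_a 0 hk, rot'_b 0 hk]
      simp only [At', Bt', if_true]
      group
    · rw [rot'_a k hk, At', if_neg h]
  · intro k hk
    simp only [MonoidHom.comp_apply, MonoidHom.id_apply]
    rw [rot_b k hk, Bt]
    split_ifs with h
    · subst h
      simp only [map_inv]
      rw [rot'_a 0 hk]
      simp only [At', if_true, inv_inv]
    · rw [rot'_b k hk, Bt', if_neg h]
  · intro k hk
    simp only [MonoidHom.comp_apply, MonoidHom.id_apply]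
    rw [rot_c k hk, rot'_c k hk]

theorem rot'_rot : (rot g n).comp (rot' g n) = MonoidHom.id _ := by
  apply hom_ext'
  · intro k hk
    simp only [MonoidHom.comp_apply, MonoidHom.id_apply]
    rw [rot'_a k hk, At']
    split_ifs with h
    · subst h
      simp only [map_inv]
      rw [rot_b 0 hk]
      simp only [Bt, if_true, inv_inv]
    · rw [rot_a k hk, At, if_neg h]
  · intro k hk
    simp only [MonoidHom.comp_apply, MonoidHom.id_apply]
    rw [rot'_b k hk, Bt']
    split_ifs with h
    · subst h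
      simp only [map_mul, map_inv]
      rw [rot_a 0 hk, rot_b 0 hk]
      simp only [At, Bt, if_true]
      group
    · rw [rot_b k hk, Bt, if_neg h]
  · intro k hk
    simp only [MonoidHom.comp_apply, MonoidHom.id_apply]
    rw [rot'_c k hk, rot_c k hk]

/-- the rotation as an automorphism -/
def rotE (g n : ℕ) : MulAut (SurfaceGroup g n) :=
  MonoidHom.toMulEquiv (rot g n) (rot' g n) rot_rot' rot'_rot

theorem rotE_apply (x : SurfaceGroup g n) : rotE g n x = rot g n x := rfl

theorem alpha_simple (hg : 0 < g) : xa g n 0 ∈ Simple g n := by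
  apply one_preserves
  left
  exact ⟨⟨0, hg⟩, xa_fin ⟨0, hg⟩⟩

theorem beta_simple (hg : 0 < g) : xa g n 0 * xb g n 0 * (xa g n 0)⁻¹ ∈ Simple g n := by
  refine ⟨rotE g n, fun j => ⟨j, Or.inl ?_⟩, ga ⟨0, hg⟩, Or.inl ⟨_, rfl⟩, ?_⟩
  · rw [rotE_apply, gc_eq, rot_c _ j.2]
  · rw [rotE_apply, ga_eq]
    have := rot_a (g := g) (n := n) 0 hg
    rw [At, if_pos rfl] at this
    exact this.symm

end Simple1

section Lens

variable {g n : ℕ} (D : Datum (MC g n))

theorem tr_rho (γ : SurfaceGroup g n) : tr (rho D γ) = tu (Phi D γ).2 := rfl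

theorem Phi_a0 (hg : 0 < g) : (Phi D (xa g n 0)).2 = (RH D 0).2 * (RH D 2).2 := by
  have h : Phi D (xa g n 0) = AE (RH D) 0 := by
    have := IsRefl.hom_a (RH_isRefl D) ⟨0, hg⟩
    rw [ga_eq] at this
    exact this
  have h1 : sE (RH D) 0 = 1 := by
    simp only [sE]; exact RH_sq D 1
  rw [h, AE, h1]
  simp [uE]

theorem Phi_b0 (hg : 0 < g) : (Phi D (xb g n 0)).2 = (RH D 1).2 * (RH D 3).2 := by
  have h : Phi D (xb g n 0) = BE (RH D) 0 := by
    have := IsRefl.hom_b (RH_isRefl D) ⟨0, hg⟩
    rw [gb_eq] at this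
    exact this
  have h1 : sE (RH D) 0 = 1 := by
    simp only [sE]; exact RH_sq D 1
  rw [h, BE, h1]
  simp [sE]

theorem tr_a0 (hg : 1 ≤ g) (hgn : 3 < 3 * g + n) (u : ℝ) (hu : 0 < u) :
    tr (rho (famD g n hg hgn u hu) (xa g n 0)) = -2 * Real.cosh (xp g n u) := by
  rw [tr_rho, Phi_a0 _ hg, tu_RH _ 0 2 (by unfold NS; omega) (by unfold NS; omega), famD_c]
  simp only [cc02]

theorem tr_b0 (hg : 1 ≤ g) (hgn : 3 < 3 * g + n) (u : ℝ) (hu : 0 < u) :
    tr (rho (famD g n hg hgn u hu) (xb g n 0)) = -2 * (Real.cosh u / Real.sinh u) := by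
  rw [tr_rho, Phi_b0 _ hg, tu_RH _ 1 3 (by unfold NS; omega) (by unfold NS; omega), famD_c]
  have := cc1T g n (u := u) 0
  simp only [zero_add] at this
  simp only [this]

theorem tr_ab0 (hg : 1 ≤ g) (hgn : 3 < 3 * g + n) (u : ℝ) (hu : 0 < u) :
    tr (rho (famD g n hg hgn u hu) (xa g n 0) * rho (famD g n hg hgn u hu) (xb g n 0)) =
      2 * (Real.cosh (xp g n u) * (Real.cosh u / Real.sinh u)) := by
  rw [← map_mul, tr_rho, map_mul, Prod.snd_mul, Phi_a0 _ hg, Phi_b0 _ hg]
  rw [RH_lt _ 0 (by unfold NS; omega), RH_lt _ 1 (by unfold NS; omega),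
    RH_lt _ 2 (by unfold NS; omega), RH_lt _ 3 (by unfold NS; omega)]
  unfold tu
  simp only [uR, Units.val_mul, famD_R]
  have h3 : RR g n u 3 = Tm u 0 := rfl
  simp only [h3, RR, Em, Bm, Tm, Matrix.trace, Matrix.diag_apply, Fin.sum_univ_two,
    Matrix.mul_apply, Matrix.neg_apply, Matrix.of_apply, Matrix.cons_val', Matrix.cons_val_zero,
    Matrix.cons_val_one, Matrix.empty_val', Matrix.cons_val_fin_one, neg_zero, Real.exp_zero]
  rw [Real.cosh_eq (xp g n u)]
  ring

theorem th_of_tr (P : SL2) (x : ℝ) (hx : 0 ≤ x) (h : |tr P| = 2 * Real.cosh x) : th P = x := by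
  unfold th
  rw [h]
  have : 2 * Real.cosh x / 2 = Real.cosh x := by ring
  rw [this, max_eq_right (Real.one_le_cosh x), Real.arcosh_cosh hx]

theorem th_a0 (hg : 1 ≤ g) (hgn : 3 < 3 * g + n) (u : ℝ) (hu : 0 < u) :
    th (rho (famD g n hg hgn u hu) (xa g n 0)) = xp g n u := by
  apply th_of_tr _ _ (le_trans hu.le (xp_ge hg hgn hu.le))
  rw [tr_a0, abs_mul, abs_of_pos (Real.cosh_pos _)]
  norm_num

theorem tr_conj (A B : SL2) : tr (A * B * A⁻¹) = tr B := by
  rw [tr_mul_comm, ← mul_assoc, inv_mul_cancel, one_mul]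

theorem th_conj (A B : SL2) : th (A * B * A⁻¹) = th B := th_congr _ _ (by rw [tr_conj])

/-- the conjugate of `b_0` used as second curve -/
def bet (g n : ℕ) : SurfaceGroup g n := xa g n 0 * xb g n 0 * (xa g n 0)⁻¹

theorem th_bet (hg : 1 ≤ g) (hgn : 3 < 3 * g + n) (u : ℝ) (hu : 0 < u) :
    Real.cosh (th (rho (famD g n hg hgn u hu) (bet g n))) = Real.cosh u / Real.sinh u := by
  have hS : 0 < Real.sinh u := Real.sinh_pos_iff.2 hu
  rw [bet, map_mul, map_mul, map_inv, th_conj, cosh_th, tr_b0, abs_mul,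
    abs_of_pos (div_pos (Real.cosh_pos u) hS)]
  have : |(-2 : ℝ)| = 2 := by norm_num
  rw [this]
  have h2 : 2 * (Real.cosh u / Real.sinh u) / 2 = Real.cosh u / Real.sinh u := by ring
  rw [h2, max_eq_right]
  rw [le_div_iff₀ hS, one_mul]
  exact (Real.sinh_lt_cosh u).le

theorem th_bet_pos (hg : 1 ≤ g) (hgn : 3 < 3 * g + n) (u : ℝ) (hu : 0 < u) :
    0 < th (rho (famD g n hg hgn u hu) (bet g n)) := by
  have hS : 0 < Real.sinh u := Real.sinh_pos_iff.2 hu
  have h := th_bet hg hgn u hu
  rcases eq_or_lt_of_le (th_nonneg (rho (famD g n hg hgn u hu) (bet g n))) with h0 | h0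
  · rw [← h0, Real.cosh_zero, eq_div_iff hS.ne', one_mul] at h
    have := Real.sinh_lt_cosh u
    linarith
  · exact h0

theorem kappa_le (hg : 1 ≤ g) (hgn : 3 < 3 * g + n) (u : ℝ) (hu : 0 < u) :
    tr (com (rho (famD g n hg hgn u hu) (xa g n 0)) (rho (famD g n hg hgn u hu) (bet g n))) ≤
      -2 := by
  have hS : 0 < Real.sinh u := Real.sinh_pos_iff.2 hu
  rw [bet, map_mul, map_mul, map_inv]
  set A := rho (famD g n hg hgn u hu) (xa g n 0) with hA
  set B := rho (famD g n hg hgn u hu) (xb g n 0) with hB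
  have e : com A (A * B * A⁻¹) = A * com A B * A⁻¹ := by unfold com; group
  rw [e, tr_conj, fricke, hA, hB, tr_a0, tr_b0, tr_ab0]
  have hx := xp_ge (n := n) hg hgn hu.le
  have h1 : Real.sinh u ≤ Real.sinh (xp g n u) := Real.sinh_le_sinh.2 hx
  have h2 : 1 ≤ Real.sinh (xp g n u) ^ 2 / Real.sinh u ^ 2 := by
    rw [one_le_div (by positivity)]
    exact pow_le_pow_left₀ hS.le h1 2
  have h3 := Real.cosh_sq (xp g n u)
  have h4 := Real.cosh_sq u
  have e2 : (-2 * Real.cosh (xp g n u)) ^ 2 + (-2 * (Real.cosh u / Real.sinh u)) ^ 2 +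
      (2 * (Real.cosh (xp g n u) * (Real.cosh u / Real.sinh u))) ^ 2 -
      -2 * Real.cosh (xp g n u) * (-2 * (Real.cosh u / Real.sinh u)) *
      (2 * (Real.cosh (xp g n u) * (Real.cosh u / Real.sinh u))) - 2 =
      4 * Real.cosh (xp g n u) ^ 2 * (1 - Real.cosh u ^ 2 / Real.sinh u ^ 2) +
        4 * (Real.cosh u ^ 2 / Real.sinh u ^ 2) - 2 := by
    ring
  rw [e2, h3, h4]
  have e3 : (Real.sinh u ^ 2 + 1) / Real.sinh u ^ 2 = 1 + 1 / Real.sinh u ^ 2 := by
    field_simp
  rw [e3]
  have e4 : 4 * (Real.sinh (xp g n u) ^ 2 + 1) * (1 - (1 + 1 / Real.sinh u ^ 2)) +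
      4 * (1 + 1 / Real.sinh u ^ 2) - 2 = 2 - 4 * (Real.sinh (xp g n u) ^ 2 / Real.sinh u ^ 2) := by
    ring
  rw [e4]
  linarith

theorem trab_ne (hg : 1 ≤ g) (hgn : 3 < 3 * g + n) (u : ℝ) (hu : 0 < u) :
    tr (rho (famD g n hg hgn u hu) (xa g n 0) * rho (famD g n hg hgn u hu) (bet g n)) ≠ 0 := by
  have hS : 0 < Real.sinh u := Real.sinh_pos_iff.2 hu
  rw [bet, map_mul, map_mul, map_inv]
  have e : ∀ A B : SL2, A * (A * B * A⁻¹) = A * (A * B) * A⁻¹ := by intro A B; group
  rw [e, tr_conj, tr_ab0]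
  have := Real.cosh_pos (xp g n u)
  have := Real.cosh_pos u
  positivity

end Lens

end Pool.Agent.Lib.MP731498
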