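import Mathlib
import Pool.Agent.Lib.MP731498.Inst1

set_option autoImplicit false

namespace Pool.Agent.Lib.MP731498

open scoped ENNReal

section Cont2

variable (g n : ℕ)

theorem cont_dR : Continuous fun s : ℝ => dR (Real.exp s) := by
  unfold dR
  apply Real.continuousOn_arcosh.comp_continuous
  · exact (Real.continuous_cosh.comp Real.continuous_exp).pow 2
  · intro s
    exact one_le_cosh_sq _

theorem cont_xs (m : ℕ) : Continuous fun s : ℝ => xs g (Real.exp s) m := by
  induction m with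
  | zero => exact continuous_const
  | succ m ih =>
    have e : (fun s : ℝ => xs g (Real.exp s) (m + 1)) =
        fun s => xs g (Real.exp s) m + stp g (Real.exp s) m := rfl
    rw [e]
    apply ih.add
    unfold stp
    split_ifs
    · exact cont_dR
    · exact continuous_const.mul Real.continuous_exp

theorem cont_xp : Continuous fun s : ℝ => xp g n (Real.exp s) := by
  unfold xp
  apply (cont_xs g (kk g n)).add
  split_ifs
  · exact continuous_const
  · exact Real.continuous_exp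

theorem cont_RR (i : ℕ) : Continuous fun s : ℝ => RR g n (Real.exp s) i := by
  have hx := cont_xp g n
  have hS : Continuous fun s : ℝ => Real.sinh (Real.exp s) :=
    Real.continuous_sinh.comp Real.continuous_exp
  have hS0 : ∀ s : ℝ, Real.sinh (Real.exp s) ≠ 0 := fun s =>
    (Real.sinh_pos_iff.2 (Real.exp_pos s)).ne'
  have hC : Continuous fun s : ℝ => Real.cosh (Real.exp s) :=
    Real.continuous_cosh.comp Real.continuous_exp
  match i with
  | 0 =>
    apply continuous_matrix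
    intro a b
    fin_cases a <;> fin_cases b <;> simp [RR, Em]
    · exact continuous_const
    · exact (Real.continuous_exp.comp hx).neg
    · exact (Real.continuous_exp.comp hx.neg).neg
    · exact continuous_const
  | 1 => exact continuous_const
  | 2 => exact continuous_const
  | (j + 3) =>
    have hxj := cont_xs g j
    apply continuous_matrix
    intro a b
    fin_cases a <;> fin_cases b <;> simp [RR, Tm]
    · exact hC.div hS hS0
    · exact (Real.continuous_exp.comp hxj).neg.div hS hS0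
    · exact (Real.continuous_exp.comp hxj.neg).div hS hS0
    · exact hC.neg.div hS hS0

end Cont2

section H4

variable {g n : ℕ}

/-- bound for `K` at small parameter -/
theorem KK_small (δ : ℝ) (h0 : 0 < δ) (h1 : δ ≤ 1 / 2) :
    2 * KK g n δ ≤ Real.exp ((4 * (kk g n + 1) + 2) * (1 + Real.log (1 / δ))) := by
  have hT0 : 0 < Real.log (1 / δ) := by
    apply Real.log_pos
    rw [lt_div_iff₀ h0]; linarith
  have hTe : Real.exp (Real.log (1 / δ)) = 1 / δ := Real.exp_log (by positivity)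
  set T := Real.log (1 / δ) with hT
  have hk : (0 : ℝ) ≤ kk g n := by positivity
  have hs : δ ≤ Real.sinh δ := Real.self_le_sinh_iff.2 h0.le
  have a1 : Real.cosh (2 * (kk g n + 1) * δ) ≤ Real.exp (kk g n + 1) := by
    have b1 : 0 ≤ 2 * ((kk g n : ℝ) + 1) * δ := by positivity
    have b2 : Real.cosh (2 * (kk g n + 1) * δ) ≤ Real.exp (2 * (kk g n + 1) * δ) := by
      rw [Real.cosh_eq]
      have : Real.exp (-(2 * ((kk g n : ℝ) + 1) * δ)) ≤ Real.exp (2 * (kk g n + 1) * δ) :=
        Real.exp_le_exp.2 (by linarith)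
      linarith
    refine le_trans b2 (Real.exp_le_exp.2 ?_)
    nlinarith
  have a2 : 1 + 1 / Real.sinh δ ^ 2 ≤ 2 * Real.exp (2 * T) := by
    have b1 : Real.exp (2 * T) = (1 / δ) ^ 2 := by
      rw [← hTe, ← Real.exp_nat_mul]; norm_num
    have b2 : 1 / Real.sinh δ ^ 2 ≤ (1 / δ) ^ 2 := by
      rw [div_pow, one_pow]
      apply one_div_le_one_div_of_le (by positivity)
      exact pow_le_pow_left₀ h0.le hs 2
    have b3 : 1 ≤ (1 / δ) ^ 2 := by
      apply one_le_pow₀
      rw [le_div_iff₀ h0]; linarith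
    rw [b1]; linarith
  have a3 : (4 : ℝ) ≤ Real.exp 2 := by
    have := Real.exp_one_gt_d9
    have e : Real.exp 2 = Real.exp 1 * Real.exp 1 := by rw [← Real.exp_add]; norm_num
    rw [e]; nlinarith
  calc 2 * KK g n δ = 2 * (Real.cosh (2 * (kk g n + 1) * δ) * (1 + 1 / Real.sinh δ ^ 2)) := rfl
    _ ≤ 2 * (Real.exp (kk g n + 1) * (2 * Real.exp (2 * T))) := by
      have : 0 ≤ 1 + 1 / Real.sinh δ ^ 2 := by positivity
      have := mul_le_mul a1 a2 this (Real.exp_pos _).le
      linarith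
    _ = 4 * (Real.exp (kk g n + 1) * Real.exp (2 * T)) := by ring
    _ ≤ Real.exp 2 * (Real.exp (kk g n + 1) * Real.exp (2 * T)) :=
      mul_le_mul_of_nonneg_right a3 (by positivity)
    _ = Real.exp (2 + (kk g n + 1) + 2 * T) := by rw [← Real.exp_add, ← Real.exp_add]; ring_nf
    _ ≤ _ := by
      apply Real.exp_le_exp.2
      nlinarith

/-- the dual parameter -/
noncomputable def dual (δ : ℝ) : ℝ := Real.arsinh (1 / Real.sinh δ)

theorem sinh_dual (δ : ℝ) : Real.sinh (dual δ) = 1 / Real.sinh δ := Real.sinh_arsinh _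

theorem dual_pos (δ : ℝ) (h0 : 0 < δ) : 0 < dual δ := by
  have : 0 < Real.sinh δ := Real.sinh_pos_iff.2 h0
  exact Real.arsinh_pos_iff.2 (by positivity)

theorem sinh_le_one (δ : ℝ) (h1 : δ ≤ 1 / 2) : Real.sinh δ ≤ 1 :=
  le_trans (Real.sinh_le_sinh.2 h1) sinh_half_lt.le

theorem cosh_dual (δ : ℝ) (h0 : 0 < δ) : Real.cosh (dual δ) = Real.cosh δ / Real.sinh δ := by
  have hs : 0 < Real.sinh δ := Real.sinh_pos_iff.2 h0
  have h : Real.cosh (dual δ) ^ 2 = (Real.cosh δ / Real.sinh δ) ^ 2 := by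
    rw [Real.cosh_sq, sinh_dual, div_pow, div_pow, Real.cosh_sq δ]
    field_simp
    ring
  have h2 : 0 < Real.cosh δ / Real.sinh δ := div_pos (Real.cosh_pos _) hs
  exact (pow_left_inj₀ (Real.cosh_pos _).le h2.le (by norm_num)).1 h

theorem exp_dual_le (δ : ℝ) (h0 : 0 < δ) (h1 : δ ≤ 1 / 2) : Real.exp (dual δ) ≤ 3 / δ := by
  have hs : 0 < Real.sinh δ := Real.sinh_pos_iff.2 h0
  have hs1 := sinh_le_one δ h1
  have hds : δ ≤ Real.sinh δ := Real.self_le_sinh_iff.2 h0.le
  have e : Real.exp (dual δ) = Real.cosh (dual δ) + Real.sinh (dual δ) :=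
    (Real.cosh_add_sinh _).symm
  rw [e, cosh_dual δ h0, sinh_dual]
  have hc : Real.cosh δ ≤ 2 := by
    have := Real.cosh_sq δ
    nlinarith [Real.one_le_cosh δ]
  calc Real.cosh δ / Real.sinh δ + 1 / Real.sinh δ = (Real.cosh δ + 1) / Real.sinh δ := by ring
    _ ≤ 3 / Real.sinh δ := by
      apply div_le_div_of_nonneg_right _ hs.le
      linarith
    _ ≤ 3 / δ := by
      apply div_le_div_of_nonneg_left (by norm_num) h0 hds

theorem dual_le (δ : ℝ) (h0 : 0 < δ) (h1 : δ ≤ 1 / 2) : dual δ ≤ 2 + Real.log (1 / δ) := by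
  have h := exp_dual_le δ h0 h1
  have h3 : (3 : ℝ) ≤ Real.exp 2 := by
    have := Real.exp_one_gt_d9
    have e : Real.exp 2 = Real.exp 1 * Real.exp 1 := by rw [← Real.exp_add]; norm_num
    rw [e]; nlinarith
  have h2 : 3 / δ ≤ Real.exp (2 + Real.log (1 / δ)) := by
    rw [Real.exp_add, Real.exp_log (by positivity)]
    calc 3 / δ = 3 * (1 / δ) := by ring
      _ ≤ Real.exp 2 * (1 / δ) := mul_le_mul_of_nonneg_right h3 (by positivity)
  exact Real.exp_le_exp.1 (le_trans h h2)

theorem KK_dual (δ : ℝ) (h0 : 0 < δ) (h1 : δ ≤ 1 / 2) :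
    2 * KK g n (dual δ) ≤ Real.exp ((4 * (kk g n + 1) + 2) * (1 + Real.log (1 / δ))) := by
  have hT0 : 0 < Real.log (1 / δ) := by
    apply Real.log_pos
    rw [lt_div_iff₀ h0]; linarith
  have hd := dual_le δ h0 h1
  have hd0 := dual_pos δ h0
  set T := Real.log (1 / δ) with hT
  have hk : (0 : ℝ) ≤ kk g n := by positivity
  have hs : 0 < Real.sinh δ := Real.sinh_pos_iff.2 h0
  have hs1 := sinh_le_one δ h1
  have a1 : Real.cosh (2 * (kk g n + 1) * dual δ) ≤ Real.exp (2 * (kk g n + 1) * (2 + T)) := by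
    have b1 : 0 ≤ 2 * ((kk g n : ℝ) + 1) * dual δ := by positivity
    have b2 : Real.cosh (2 * (kk g n + 1) * dual δ) ≤ Real.exp (2 * (kk g n + 1) * dual δ) := by
      rw [Real.cosh_eq]
      have : Real.exp (-(2 * ((kk g n : ℝ) + 1) * dual δ)) ≤
        Real.exp (2 * (kk g n + 1) * dual δ) := Real.exp_le_exp.2 (by linarith)
      linarith
    refine le_trans b2 (Real.exp_le_exp.2 ?_)
    nlinarith
  have a2 : 1 + 1 / Real.sinh (dual δ) ^ 2 ≤ 2 := by
    rw [sinh_dual, div_pow, one_pow, one_div_one_div]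
    nlinarith
  have a3 : (4 : ℝ) ≤ Real.exp 2 := by
    have := Real.exp_one_gt_d9
    have e : Real.exp 2 = Real.exp 1 * Real.exp 1 := by rw [← Real.exp_add]; norm_num
    rw [e]; nlinarith
  calc 2 * KK g n (dual δ) = 2 * (Real.cosh (2 * (kk g n + 1) * dual δ) *
        (1 + 1 / Real.sinh (dual δ) ^ 2)) := rfl
    _ ≤ 2 * (Real.exp (2 * (kk g n + 1) * (2 + T)) * 2) := by
      have : 0 ≤ 1 + 1 / Real.sinh (dual δ) ^ 2 := by positivity
      have := mul_le_mul a1 a2 this (Real.exp_pos _).le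
      linarith
    _ = 4 * Real.exp (2 * (kk g n + 1) * (2 + T)) := by ring
    _ ≤ Real.exp 2 * Real.exp (2 * (kk g n + 1) * (2 + T)) :=
      mul_le_mul_of_nonneg_right a3 (by positivity)
    _ = Real.exp (2 + 2 * (kk g n + 1) * (2 + T)) := by rw [← Real.exp_add]
    _ ≤ _ := by
      apply Real.exp_le_exp.2
      nlinarith

theorem cosh_sq_le_two (δ : ℝ) (h0 : 0 < δ) (h1 : δ ≤ 1 / 2) : Real.cosh δ ^ 2 ≤ 2 := by
  have hs : 0 < Real.sinh δ := Real.sinh_pos_iff.2 h0
  have hs1 := sinh_le_one δ h1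
  have := Real.cosh_sq δ
  nlinarith

/-- the theorem for positive genus -/
theorem main_pos (hg : 1 ≤ g) (hgn : 3 < 3 * g + n) (η : ℝ) (hη : 0 < η) (R : ℝ) :
    ∃ X ∈ Teich g n, ∃ Y ∈ Teich g n, ENNReal.ofReal R ≤ dL X Y ∧ dL X Y < ⊤ ∧ JoinedBy X Y ∧
      (∀ Z, JoinedBy X Z → ENNReal.ofReal (1 - η) * dL X Y ≤ max (dL X Z) (dL Z Y)) ∧
      (∀ c : unitInterval → (SurfaceGroup g n →* SL2), IsPath c → c 0 = X →
        (∀ w, |tr (c 1 w)| = |tr (Y w)|) →
        ∃ s, ENNReal.ofReal (2 - η) * dL X Y ≤ dL X (c s) + dL (c s) Y) := by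
  have hk : (0 : ℝ) ≤ kk g n := by positivity
  apply assembly (xa g n 0) (bet g n) (alpha_simple hg) (beta_simple hg)
    (fun s => rho (famD g n hg hgn (Real.exp s) (Real.exp_pos s)))
    (fun s => rho_mem _ (famD_ideal hg hgn _ _))
    (fun w => continuous_rho _ (fun i => cont_RR g n i) w)
    (fun s => kappa_le hg hgn _ _) (fun s => trab_ne hg hgn _ _)
    (fun s => by
      rw [th_a0]
      exact lt_of_lt_of_le (Real.exp_pos s) (xp_ge hg hgn (Real.exp_pos s).le))
    (fun s => th_bet_pos hg hgn _ _) (4 * kk g n + 7) (by linarith) ?_ η hη R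
  intro δ h0 h1
  have hT0 : 0 < Real.log (1 / δ) := by
    apply Real.log_pos
    rw [lt_div_iff₀ h0]; linarith
  set T := Real.log (1 / δ) with hT
  set Mc : ℝ := 4 * (kk g n + 1) + 2 with hMc
  have hMc0 : 0 < Mc := by rw [hMc]; linarith
  have hs : 0 < Real.sinh δ := Real.sinh_pos_iff.2 h0
  have hs1 := sinh_le_one δ h1
  have hd0 := dual_pos δ h0
  have hposM : 0 < Mc * (1 + T) / δ := by positivity
  have eX : Real.exp (Real.log δ) = δ := Real.exp_log h0
  have eY : Real.exp (Real.log (dual δ)) = dual δ := Real.exp_log hd0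
  have hLδ : Mc * (1 + T) ≤ δ * (⌈Mc * (1 + T) / δ⌉₊ : ℝ) := by
    have h := Nat.le_ceil (Mc * (1 + T) / δ)
    rw [div_le_iff₀ h0] at h
    linarith
  have hL1 : 1 ≤ ⌈Mc * (1 + T) / δ⌉₊ := Nat.one_le_iff_ne_zero.2 (by
    have := Nat.ceil_pos.2 hposM
    omega)
  refine ⟨Real.log δ, Real.log (dual δ), ⌈Mc * (1 + T) / δ⌉₊, hL1, ?_, ?_, ?_, ?_, ?_⟩
  · rw [th_a0, eX]
    have := xp_le (g := g) (n := n) h0.le
    nlinarith
  · have h := th_bet hg hgn _ (Real.exp_pos (Real.log (dual δ)))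
    have hθ := th_nonneg (rho (famD g n hg hgn (Real.exp (Real.log (dual δ)))
        (Real.exp_pos (Real.log (dual δ)))) (bet g n))
    generalize th (rho (famD g n hg hgn (Real.exp (Real.log (dual δ)))
        (Real.exp_pos (Real.log (dual δ)))) (bet g n)) = θ at h hθ ⊢
    rw [eY, cosh_dual δ h0, sinh_dual] at h
    have h2 : Real.cosh δ / Real.sinh δ / (1 / Real.sinh δ) = Real.cosh δ := by
      field_simp
    rw [h2] at h
    have h3 : θ = δ := Real.cosh_injOn (Set.mem_Ici.2 hθ) (Set.mem_Ici.2 h0.le) h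
    rw [h3]
    nlinarith
  · intro w
    apply th_compare _ _ (CS g n) (compat _) (compat _) _ hL1
    apply fam_hU hg hgn _ _ _ _ δ h0.le
    · rw [eX]
    · exact cosh_sq_le_two δ h0 h1
    · rw [eX]
      have := Real.cosh_pos δ
      nlinarith
    · exact hL1
    · rw [eY]
      exact le_trans (KK_dual δ h0 h1) (Real.exp_le_exp.2 hLδ)
  · intro w
    apply th_compare _ _ (CS g n) (compat _) (compat _) _ hL1
    apply fam_hU hg hgn _ _ _ _ δ h0.le
    · rw [eY]
      have h5 : Real.sinh δ ≤ Real.sinh (dual δ) := by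
        rw [sinh_dual, le_div_iff₀ hs]
        nlinarith
      exact Real.sinh_le_sinh.1 h5
    · exact cosh_sq_le_two δ h0 h1
    · rw [eY, sinh_dual, cosh_dual δ h0]
      rw [mul_one_div]
    · exact hL1
    · rw [eX]
      exact le_trans (KK_small δ h0 h1) (Real.exp_le_exp.2 hLδ)
  · have h5 : (⌈Mc * (1 + T) / δ⌉₊ : ℝ) ≤ Mc * (1 + T) / δ + 1 := (Nat.ceil_lt_add_one hposM.le).le
    have h6 : 1 ≤ (1 + T) / δ := by
      rw [le_div_iff₀ h0]; linarith
    calc (⌈Mc * (1 + T) / δ⌉₊ : ℝ) ≤ Mc * (1 + T) / δ + 1 := h5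
      _ ≤ Mc * (1 + T) / δ + (1 + T) / δ := by linarith
      _ = (4 * kk g n + 7) * (1 + T) / δ := by rw [hMc]; ring

end H4

end Pool.Agent.Lib.MP731498
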