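import Mathlib
import Pool.Agent.Lib.MP731498.Inst1b
import Pool.Agent.Lib.MP731498.FamD0

set_option autoImplicit false

namespace Pool.Agent.Lib.MP731498

open scoped ENNReal

section Prods

variable {H : Type*} [Group H]

theorem pr_succ' (f : ℕ → H) (k : ℕ) : pr f (k + 1) = f 0 * pr (fun i => f (i + 1)) k := by
  induction k with
  | zero => simp [pr_succ]
  | succ k ih => rw [pr_succ, ih, pr_succ, mul_assoc]

theorem pr_ite (f : ℕ → H) (l n : ℕ) (h : l ≤ n) :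
    pr (fun i => if i < l then f i else 1) n = pr f l := by
  induction n with
  | zero =>
    have : l = 0 := by omega
    rw [this]; simp
  | succ n ih =>
    rcases Nat.lt_or_ge n l with h1 | h1
    · have h2 : l = n + 1 := by omega
      rw [h2]
      apply pr_congr
      intro i hi
      simp [hi]
    · rw [pr_succ, ih h1]
      simp [Nat.not_lt.2 h1]

end Prods

section Curves0

variable {n : ℕ}

theorem sep_zero (l : ℕ) (hl : l ≤ n) : sep 0 n 0 l = pr (xc 0 n) l := by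
  unfold sep
  have h2 : (List.ofFn fun j : Fin n => if (j : ℕ) < l then (gc j : SurfaceGroup 0 n) else 1) =
      List.ofFn fun j : Fin n => (fun i => if i < l then xc 0 n i else 1) (j : ℕ) := by
    congr 1
    funext j
    simp only [xc_fin]
  rw [h2, pr_ofFn (fun i => if i < l then xc 0 n i else 1) n, pr_ite _ _ _ hl]
  simp

/-- images of the generators under the rotations -/
def rc (n : ℕ) (i : ℕ) : SurfaceGroup 0 n := if i = 0 then xc 0 n (n - 1) else xc 0 n (i - 1)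
def rc' (n : ℕ) (i : ℕ) : SurfaceGroup 0 n := if i = n - 1 then xc 0 n 0 else xc 0 n (i + 1)

theorem rel_rc (hn : 1 ≤ n) : Pi (fun _ => (1 : SurfaceGroup 0 n)) (fun _ => 1) 0 * pr (rc n) n = 1 := by
  obtain ⟨k, rfl⟩ : ∃ k, n = k + 1 := ⟨n - 1, by omega⟩
  have h := surf_relation 0 (k + 1)
  rw [Pi_zero, one_mul, pr_succ] at h
  rw [Pi_zero, one_mul, pr_succ']
  have h1 : rc (k + 1) 0 = xc 0 (k + 1) k := by simp [rc]
  have h2 : pr (fun i => rc (k + 1) (i + 1)) k = pr (xc 0 (k + 1)) k := by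
    apply pr_congr
    intro i _
    simp [rc]
  rw [h1, h2]
  rw [mul_eq_one_iff_eq_inv] at h ⊢
  rw [h, inv_inv]

theorem rel_rc' (hn : 1 ≤ n) :
    Pi (fun _ => (1 : SurfaceGroup 0 n)) (fun _ => 1) 0 * pr (rc' n) n = 1 := by
  obtain ⟨k, rfl⟩ : ∃ k, n = k + 1 := ⟨n - 1, by omega⟩
  have h := surf_relation 0 (k + 1)
  rw [Pi_zero, one_mul, pr_succ'] at h
  rw [Pi_zero, one_mul, pr_succ]
  have h1 : rc' (k + 1) k = xc 0 (k + 1) 0 := by simp [rc']
  have h2 : pr (rc' (k + 1)) k = pr (fun i => xc 0 (k + 1) (i + 1)) k := by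
    apply pr_congr
    intro i hi
    have : i ≠ k + 1 - 1 := by omega
    simp only [rc', this, if_false]
  rw [h1, h2]
  rw [mul_eq_one_iff_eq_inv] at h ⊢
  rw [h, inv_inv]

/-- rotation of the punctures -/
def rz (hn : 1 ≤ n) : SurfaceGroup 0 n →* SurfaceGroup 0 n :=
  surfHom (fun _ => 1) (fun _ => 1) (rc n) (rel_rc hn)
def rz' (hn : 1 ≤ n) : SurfaceGroup 0 n →* SurfaceGroup 0 n :=
  surfHom (fun _ => 1) (fun _ => 1) (rc' n) (rel_rc' hn)

theorem rz_c (hn : 1 ≤ n) (k : ℕ) (hk : k < n) : rz hn (xc 0 n k) = rc n k :=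
  map_xc (rz hn) (rc n) (surfHom_c _ _ _ _) k hk
theorem rz'_c (hn : 1 ≤ n) (k : ℕ) (hk : k < n) : rz' hn (xc 0 n k) = rc' n k :=
  map_xc (rz' hn) (rc' n) (surfHom_c _ _ _ _) k hk

theorem rz_rz' (hn : 1 ≤ n) : (rz' hn).comp (rz hn) = MonoidHom.id _ := by
  apply hom_ext'
  · intro k hk; omega
  · intro k hk; omega
  · intro k hk
    simp only [MonoidHom.comp_apply, MonoidHom.id_apply]
    rw [rz_c hn k hk, rc]
    split_ifs with h
    · rw [rz'_c hn _ (by omega), rc', if_pos rfl, h]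
    · rw [rz'_c hn _ (by omega), rc', if_neg (by omega)]
      congr 1
      omega

theorem rz'_rz (hn : 1 ≤ n) : (rz hn).comp (rz' hn) = MonoidHom.id _ := by
  apply hom_ext'
  · intro k hk; omega
  · intro k hk; omega
  · intro k hk
    simp only [MonoidHom.comp_apply, MonoidHom.id_apply]
    rw [rz'_c hn k hk, rc']
    split_ifs with h
    · rw [rz_c hn _ (by omega), rc, if_pos rfl, h]
    · rw [rz_c hn _ (by omega), rc, if_neg (by omega)]
      congr 1

/-- the rotation as an automorphism -/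
def rzE (hn : 1 ≤ n) : MulAut (SurfaceGroup 0 n) :=
  MonoidHom.toMulEquiv (rz hn) (rz' hn) (rz_rz' hn) (rz'_rz hn)

theorem rzE_apply (hn : 1 ≤ n) (x : SurfaceGroup 0 n) : rzE hn x = rz hn x := rfl

/-- first curve in genus zero -/
def alz (n : ℕ) : SurfaceGroup 0 n := pr (xc 0 n) (n / 2)
/-- second curve in genus zero -/
def bez (n : ℕ) : SurfaceGroup 0 n := xc 0 n (n - 1) * xc 0 n 0

theorem alz_simple (hn : 4 ≤ n) : alz n ∈ Simple 0 n := by
  apply one_preserves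
  right
  refine ⟨0, n / 2, le_rfl, by omega, by omega, by omega, ?_⟩
  rw [sep_zero _ (by omega), alz]

theorem bez_simple (hn : 4 ≤ n) : bez n ∈ Simple 0 n := by
  have hn1 : 1 ≤ n := by omega
  refine ⟨rzE hn1, ?_, sep 0 n 0 2, ?_, ?_⟩
  · intro j
    have hj := j.2
    by_cases h : (j : ℕ) = 0
    · refine ⟨⟨n - 1, by omega⟩, Or.inl ?_⟩
      rw [rzE_apply, gc_eq, rz_c _ _ hj, rc, if_pos h, gc_eq]
    · refine ⟨⟨j - 1, by omega⟩, Or.inl ?_⟩
      rw [rzE_apply, gc_eq, rz_c _ _ hj, rc, if_neg h, gc_eq]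
  · right
    exact ⟨0, 2, le_rfl, by omega, by omega, by omega, rfl⟩
  · rw [sep_zero 2 (by omega), rzE_apply, pr_succ, pr_succ, pr_zero, one_mul, map_mul,
      rz_c _ _ (by omega), rz_c _ _ (by omega), bez]
    simp [rc]

end Curves0

section Lens0

variable {n : ℕ}

theorem Phi_c (D : Datum (MC 0 n)) (k : ℕ) (hk : k < n) : Phi D (xc 0 n k) = CE (RH D) 0 n k := by
  have := IsRefl.hom_c (RH_isRefl D) ⟨k, hk⟩
  rw [gc_eq] at this
  exact this

theorem Phi_alz (D : Datum (MC 0 n)) : (Phi D (alz n)).2 =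
    (RH D (1 + n / 2)).2 * (RH D 1).2 := by
  have h : Phi D (alz n) = DE (RH D) 0 n 0 * (DE (RH D) 0 n (n / 2))⁻¹ := by
    rw [alz, map_pr, ← CE_prod]
    apply pr_congr
    intro i hi
    exact Phi_c D i (by omega)
  rw [h]
  have h1 : DE (RH D) 0 n 0 = 1 := by
    simp only [DE, Nat.zero_le, if_true, mul_zero, zero_add, add_zero]
    exact RH_sq D 1
  have h2 : DE (RH D) 0 n (n / 2) = RH D 1 * RH D (1 + n / 2) := by
    simp only [DE, le_refl, if_true, mul_zero, zero_add]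
  rw [h1, h2, one_mul, mul_inv_rev, Prod.snd_mul, Prod.snd_inv, Prod.snd_inv, RH2_inv, RH2_inv]

theorem Phi_bez (hn : 4 ≤ n) (D : Datum (MC 0 n)) : (Phi D (bez n)).2 =
    (RH D 0).2 * (RH D 1).2 * (RH D 2).2 * (RH D 0).2 * (RH D 2).2 * (RH D 1).2 := by
  have h : Phi D (bez n) = CE (RH D) 0 n (n - 1) * CE (RH D) 0 n 0 := by
    rw [bez, map_mul, Phi_c D _ (by omega), Phi_c D _ (by omega)]
  rw [h, CE, CE]
  have h1 : DE (RH D) 0 n 0 = 1 := by
    simp only [DE, Nat.zero_le, if_true, mul_zero, zero_add, add_zero]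
    exact RH_sq D 1
  have h2 : DE (RH D) 0 n (n - 1 + 1) = 1 := by
    have e1 : ¬ n - 1 + 1 ≤ n / 2 := by omega
    have e2 : n - (n - 1 + 1) = 0 := by omega
    simp only [DE, e1, if_false, e2, mul_zero, zero_add, add_zero]
    rw [RH_sq D 1, mul_one, RH_sq D 0]
  have h3 : DE (RH D) 0 n (n - 1) = RH D 0 * (RH D 1 * RH D 2) * RH D 0 := by
    have e1 : ¬ n - 1 ≤ n / 2 := by omega
    have e2 : n - (n - 1) = 1 := by omega
    simp only [DE, e1, if_false, e2, mul_zero, zero_add]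
  have h4 : DE (RH D) 0 n (0 + 1) = RH D 1 * RH D 2 := by
    have e1 : 0 + 1 ≤ n / 2 := by omega
    simp only [DE, e1, if_true, mul_zero, zero_add]
  rw [h1, h2, h3, h4, inv_one, mul_one, one_mul, mul_inv_rev]
  simp only [Prod.snd_mul, Prod.snd_inv, RH2_inv]
  simp only [mul_assoc]

theorem mat_BT (u : ℝ) : Bm * Tm u u = !![-(Real.cosh u / Real.sinh u), Real.exp u / Real.sinh u;
    Real.exp (-u) / Real.sinh u, -(Real.cosh u / Real.sinh u)] := by
  ext i j
  fin_cases i <;> fin_cases j <;> simp [Bm, Tm, Matrix.mul_apply, Fin.sum_univ_two] <;> ring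

/-- the matrix of the second curve -/
theorem mat_bez (u : ℝ) (hu : 0 < u) :
    Bm * Em 0 * Tm u u * Bm * Tm u u * Em 0 =
    !![-(2 * (Real.cosh u / Real.sinh u) ^ 2 - 1), 2 * Real.cosh u * Real.exp (-u) / Real.sinh u ^ 2;
      2 * Real.cosh u * Real.exp u / Real.sinh u ^ 2,
      -(2 * (Real.cosh u / Real.sinh u) ^ 2 - 1)] := by
  have hS : 0 < Real.sinh u := Real.sinh_pos_iff.2 hu
  have he : Real.exp u * Real.exp (-u) = 1 := by rw [← Real.exp_add]; simp
  have hcs := Real.cosh_sq u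
  have h1 : (Real.cosh u / Real.sinh u) ^ 2 + 1 / Real.sinh u ^ 2 =
      2 * (Real.cosh u / Real.sinh u) ^ 2 - 1 := by
    field_simp
    linarith
  rw [← h1]
  have h0 : Bm * Em 0 * Tm u u * Bm * Tm u u * Em 0 =
      Bm * Em 0 * (Tm u u) * (Bm * Tm u u) * Em 0 := by
    simp only [mul_assoc]
  rw [h0, mat_BT]
  ext i j
  fin_cases i <;> fin_cases j <;> simp [Bm, Em, Tm, Matrix.mul_apply, Fin.sum_univ_two]
  · field_simp
    linear_combination (-1 : ℝ) * he
  · field_simp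
    ring
  · field_simp
    ring
  · field_simp
    linear_combination (-1 : ℝ) * he

theorem RZ_two (hn : 4 ≤ n) (u : ℝ) : RZ n u 2 = Tm u u := by
  have h : 0 < mz n := one_le_mz n hn
  simp only [RZ, h, if_true]
  norm_num

theorem rho_bez (hn : 4 ≤ n) (u : ℝ) (hu : 0 < u) :
    (rho (famZ n hn u hu) (bez n)).1 =
    !![-(2 * (Real.cosh u / Real.sinh u) ^ 2 - 1), 2 * Real.cosh u * Real.exp (-u) / Real.sinh u ^ 2;
      2 * Real.cosh u * Real.exp u / Real.sinh u ^ 2,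
      -(2 * (Real.cosh u / Real.sinh u) ^ 2 - 1)] := by
  rw [← mat_bez u hu, rho_coe, Phi_bez hn, RH_lt _ 0 (by unfold NS; omega),
    RH_lt _ 1 (by unfold NS; omega), RH_lt _ 2 (by unfold NS; omega)]
  simp only [uR, Units.val_mul, famZ_R, RZ_two hn]
  rfl

theorem rho_alz (hn : 4 ≤ n) (u : ℝ) (hu : 0 < u) :
    (rho (famZ n hn u hu) (alz n)).1 = Ez n u * Em 0 := by
  have e : 1 + n / 2 = mz n + 2 := by unfold mz; omega
  rw [rho_coe, Phi_alz, e, RH_lt _ (mz n + 2) (by unfold NS mz; omega),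
    RH_lt _ 1 (by unfold NS; omega)]
  simp only [uR, Units.val_mul, famZ_R, RZ_last]
  rfl

theorem tr_alz (hn : 4 ≤ n) (u : ℝ) (hu : 0 < u) :
    tr (rho (famZ n hn u hu) (alz n)) = -2 * cE n u := by
  unfold tr
  change ((rho (famZ n hn u hu) (alz n)).1).trace = _
  rw [rho_alz, Matrix.trace_mul_comm, tr_EEz]

theorem tr_bez (hn : 4 ≤ n) (u : ℝ) (hu : 0 < u) :
    tr (rho (famZ n hn u hu) (bez n)) = -2 * (2 * (Real.cosh u / Real.sinh u) ^ 2 - 1) := by
  rw [tr_eq, rho_bez]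
  simp
  ring

open Classical in
theorem tr_abz (hn : 4 ≤ n) (u : ℝ) (hu : 0 < u) :
    tr (rho (famZ n hn u hu) (alz n) * rho (famZ n hn u hu) (bez n)) =
      2 * cE n u * (2 * (Real.cosh u / Real.sinh u) ^ 2 - 1) +
        if Even n then 0 else 4 * (Real.cosh u / Real.sinh u) := by
  have hS : 0 < Real.sinh u := Real.sinh_pos_iff.2 hu
  rw [tr_eq, Matrix.SpecialLinearGroup.coe_mul]
  rw [show (↑(rho (famZ n hn u hu) (alz n)) : M2) = Ez n u * Em 0 from rho_alz hn u hu]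
  rw [show (↑(rho (famZ n hn u hu) (bez n)) : M2) = _ from rho_bez hn u hu]
  unfold Ez cE
  split_ifs with h
  · simp [Em, Matrix.mul_apply, Fin.sum_univ_two]
    rw [Real.cosh_eq (xz n u)]
    ring
  · simp [Em, Matrix.mul_apply, Fin.sum_univ_two]
    have hs := Real.sinh_eq u
    have e1 : Real.exp u = 2 * Real.sinh u + Real.exp (-u) := by linarith
    rw [e1]
    field_simp
    ring

theorem coth_gt (u : ℝ) (hu : 0 < u) : 1 < Real.cosh u / Real.sinh u := by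
  have hS : 0 < Real.sinh u := Real.sinh_pos_iff.2 hu
  rw [one_lt_div hS]
  exact Real.sinh_lt_cosh u

theorem kappaz_le (hn : 4 ≤ n) (u : ℝ) (hu : 0 < u) :
    tr (com (rho (famZ n hn u hu) (alz n)) (rho (famZ n hn u hu) (bez n))) ≤ -2 := by
  have hS : 0 < Real.sinh u := Real.sinh_pos_iff.2 hu
  have hC := Real.cosh_pos u
  have hcs := Real.cosh_sq u
  have hx := xz_ge n hn hu.le
  rw [fricke, tr_alz, tr_bez, tr_abz]
  set q := Real.cosh u / Real.sinh u with hq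
  have hq2 : q ^ 2 = 1 + 1 / Real.sinh u ^ 2 := by
    rw [hq, div_pow, hcs]
    field_simp
  have hq0 : 0 < q := div_pos hC hS
  have hinv : 0 < 1 / Real.sinh u ^ 2 := by positivity
  unfold cE
  split_ifs with h
  · set c := Real.cosh (xz n u) with hc
    have hc2 : c ^ 2 = Real.sinh (xz n u) ^ 2 + 1 := Real.cosh_sq _
    have h1 : Real.sinh u ≤ Real.sinh (xz n u) := Real.sinh_le_sinh.2 (by linarith)
    have h2 : Real.sinh u ^ 2 ≤ Real.sinh (xz n u) ^ 2 := pow_le_pow_left₀ hS.le h1 2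
    have e1 : (-2 * c) ^ 2 + (-2 * (2 * q ^ 2 - 1)) ^ 2 + (2 * c * (2 * q ^ 2 - 1) + 0) ^ 2 -
        -2 * c * (-2 * (2 * q ^ 2 - 1)) * (2 * c * (2 * q ^ 2 - 1) + 0) - 2 =
        2 - 16 * (c ^ 2 - 1) * q ^ 2 * (q ^ 2 - 1) := by ring
    rw [e1]
    have e2 : 1 ≤ (c ^ 2 - 1) * (q ^ 2 - 1) := by
      rw [hc2, hq2]
      have : Real.sinh u ^ 2 * (1 / Real.sinh u ^ 2) = 1 := by field_simp
      nlinarith
    have e3 : 1 ≤ q ^ 2 := by rw [hq2]; linarith
    nlinarith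
  · set Q := Real.exp (xz n u) with hQ
    have hQ1 : Real.cosh u + Real.sinh u ≤ Q := by
      rw [Real.cosh_add_sinh]
      exact Real.exp_le_exp.2 (by linarith)
    have hQ2 : Real.sinh u ^ 2 ≤ Q ^ 2 - Real.cosh u ^ 2 := by
      have h3 : (Real.cosh u + Real.sinh u) ^ 2 ≤ Q ^ 2 := pow_le_pow_left₀ (by positivity) hQ1 2
      nlinarith [mul_pos hC hS]
    have e1 : (-2 * Q) ^ 2 + (-2 * (2 * q ^ 2 - 1)) ^ 2 +
        (2 * Q * (2 * q ^ 2 - 1) + 4 * q) ^ 2 -
        -2 * Q * (-2 * (2 * q ^ 2 - 1)) * (2 * Q * (2 * q ^ 2 - 1) + 4 * q) - 2 =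
        2 - 16 * q ^ 2 * ((Q ^ 2 - 1) * (q ^ 2 - 1) - 1) := by ring
    rw [e1]
    have e2 : 1 ≤ (Q ^ 2 - 1) * (q ^ 2 - 1) - 1 := by
      rw [hq2]
      have h4 : (Q ^ 2 - 1) * (1 + 1 / Real.sinh u ^ 2 - 1) - 1 =
          (Q ^ 2 - Real.cosh u ^ 2) / Real.sinh u ^ 2 := by
        rw [hcs]; field_simp; ring
      rw [h4, one_le_div (by positivity)]
      exact hQ2
    have e3 : 1 ≤ q ^ 2 := by rw [hq2]; linarith
    nlinarith

theorem trabz_ne (hn : 4 ≤ n) (u : ℝ) (hu : 0 < u) :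
    tr (rho (famZ n hn u hu) (alz n) * rho (famZ n hn u hu) (bez n)) ≠ 0 := by
  rw [tr_abz]
  have h1 := coth_gt u hu
  have h2 := one_lt_cE n hn hu
  apply ne_of_gt
  have h3 : 0 < 2 * cE n u * (2 * (Real.cosh u / Real.sinh u) ^ 2 - 1) := by
    apply mul_pos (by linarith)
    nlinarith
  split_ifs
  · linarith
  · linarith

theorem th_alz_cosh (hn : 4 ≤ n) (u : ℝ) (hu : 0 < u) :
    Real.cosh (th (rho (famZ n hn u hu) (alz n))) = cE n u := by
  have h2 := one_lt_cE n hn hu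
  rw [cosh_th, tr_alz, abs_mul, abs_of_pos (show 0 < cE n u by linarith)]
  have : |(-2 : ℝ)| = 2 := by norm_num
  rw [this]
  have h3 : 2 * cE n u / 2 = cE n u := by ring
  rw [h3, max_eq_right h2.le]

theorem th_bez_cosh (hn : 4 ≤ n) (u : ℝ) (hu : 0 < u) :
    Real.cosh (th (rho (famZ n hn u hu) (bez n))) = 2 * (Real.cosh u / Real.sinh u) ^ 2 - 1 := by
  have h1 := coth_gt u hu
  have h2 : 1 < 2 * (Real.cosh u / Real.sinh u) ^ 2 - 1 := by nlinarith
  rw [cosh_th, tr_bez, abs_mul, abs_of_pos (show 0 < 2 * (Real.cosh u / Real.sinh u) ^ 2 - 1 by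
    linarith)]
  have : |(-2 : ℝ)| = 2 := by norm_num
  rw [this]
  have h3 : 2 * (2 * (Real.cosh u / Real.sinh u) ^ 2 - 1) / 2 =
    2 * (Real.cosh u / Real.sinh u) ^ 2 - 1 := by ring
  rw [h3, max_eq_right h2.le]

theorem pos_of_cosh (x : ℝ) (hx : 0 ≤ x) (h : 1 < Real.cosh x) : 0 < x := by
  rcases eq_or_lt_of_le hx with h0 | h0
  · rw [← h0, Real.cosh_zero] at h; linarith
  · exact h0

theorem th_alz_pos (hn : 4 ≤ n) (u : ℝ) (hu : 0 < u) :
    0 < th (rho (famZ n hn u hu) (alz n)) := by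
  apply pos_of_cosh _ (th_nonneg _)
  rw [th_alz_cosh]
  exact one_lt_cE n hn hu

theorem th_bez_pos (hn : 4 ≤ n) (u : ℝ) (hu : 0 < u) :
    0 < th (rho (famZ n hn u hu) (bez n)) := by
  apply pos_of_cosh _ (th_nonneg _)
  rw [th_bez_cosh]
  have h1 := coth_gt u hu
  nlinarith

end Lens0

end Pool.Agent.Lib.MP731498
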