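import Mathlib
import Pool.Agent.Lib.MP731498.Inst0

set_option autoImplicit false

namespace Pool.Agent.Lib.MP731498

open scoped ENNReal

section Cont0

variable (n : ℕ)

theorem cont_xz : Continuous fun s : ℝ => xz n (Real.exp s) := by
  unfold xz
  exact continuous_const.mul Real.continuous_exp

theorem cont_RZ (i : ℕ) : Continuous fun s : ℝ => RZ n (Real.exp s) i := by
  have hx := cont_xz n
  have hS : Continuous fun s : ℝ => Real.sinh (Real.exp s) :=
    Real.continuous_sinh.comp Real.continuous_exp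
  have hS0 : ∀ s : ℝ, Real.sinh (Real.exp s) ≠ 0 := fun s =>
    (Real.sinh_pos_iff.2 (Real.exp_pos s)).ne'
  have hC : Continuous fun s : ℝ => Real.cosh (Real.exp s) :=
    Real.continuous_cosh.comp Real.continuous_exp
  match i with
  | 0 => exact continuous_const
  | 1 => exact continuous_const
  | (j + 2) =>
    by_cases hj : j < mz n
    · have e : (fun s : ℝ => RZ n (Real.exp s) (j + 2)) =
          fun s => Tm (Real.exp s) ((2 * j + 1) * Real.exp s) := by
        funext s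
        simp only [RZ, hj, if_true]
      rw [e]
      have hxj : Continuous fun s : ℝ => (2 * (j : ℝ) + 1) * Real.exp s :=
        continuous_const.mul Real.continuous_exp
      apply continuous_matrix
      intro a b
      fin_cases a <;> fin_cases b <;> simp [Tm]
      · exact hC.div hS hS0
      · exact (Real.continuous_exp.comp hxj).neg.div hS hS0
      · exact (Real.continuous_exp.comp hxj.neg).div hS hS0
      · exact hC.neg.div hS hS0
    · have e : (fun s : ℝ => RZ n (Real.exp s) (j + 2)) = fun s => Ez n (Real.exp s) := by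
        funext s
        simp only [RZ, hj, if_false]
      rw [e]
      by_cases hn : Even n
      · have e : (fun s : ℝ => Ez n (Real.exp s)) = fun s => -Em (xz n (Real.exp s)) := by
          funext s
          rw [Ez, if_pos hn]
        rw [e]
        apply continuous_matrix
        intro a b
        fin_cases a <;> fin_cases b <;> simp [Em]
        · exact continuous_const
        · exact (Real.continuous_exp.comp hx).neg
        · exact (Real.continuous_exp.comp hx.neg).neg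
        · exact continuous_const
      · have e : (fun s : ℝ => Ez n (Real.exp s)) =
            fun s => !![1, -2 * Real.exp (xz n (Real.exp s)); 0, -1] := by
          funext s
          rw [Ez, if_neg hn]
        rw [e]
        apply continuous_matrix
        intro a b
        fin_cases a <;> fin_cases b <;> simp
        · exact continuous_const
        · exact (continuous_const.mul (Real.continuous_exp.comp hx)).neg
        · exact continuous_const
        · exact continuous_const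

end Cont0

section H40

variable {n : ℕ}

theorem log_cosh_le (δ : ℝ) (h0 : 0 < δ) : Real.log (Real.cosh δ) ≤ δ := by
  have h := Real.log_le_log (Real.cosh_pos δ) (cosh_le_exp δ h0.le)
  rwa [Real.log_exp] at h

theorem le_log_cosh (δ : ℝ) (h0 : 0 < δ) (h1 : δ ≤ 1 / 2) :
    δ ^ 2 / 4 ≤ Real.log (Real.cosh δ) := by
  have h2 := Real.one_sub_inv_le_log_of_pos (Real.cosh_pos δ)
  have h3 := cosh_sq_le_two δ h0 h1
  have h4 : 1 + δ ^ 2 / 2 ≤ Real.cosh δ := by
    have e : Real.cosh δ = 2 * Real.sinh (δ / 2) ^ 2 + 1 := by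
      have e1 := Real.cosh_two_mul (δ / 2)
      have e2 := Real.cosh_sq (δ / 2)
      rw [show 2 * (δ / 2) = δ from by ring] at e1
      linarith
    have h5 : δ / 2 ≤ Real.sinh (δ / 2) := Real.self_le_sinh_iff.2 (by linarith)
    have h6 : (δ / 2) ^ 2 ≤ Real.sinh (δ / 2) ^ 2 := pow_le_pow_left₀ (by linarith) h5 2
    rw [e]
    nlinarith
  have h5 : Real.cosh δ ≤ 2 := by nlinarith [Real.one_le_cosh δ]
  have h6 : δ ^ 2 / 4 ≤ 1 - (Real.cosh δ)⁻¹ := by
    have hC := Real.cosh_pos δ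
    rw [show 1 - (Real.cosh δ)⁻¹ = (Real.cosh δ - 1) / Real.cosh δ by field_simp,
      le_div_iff₀ hC]
    nlinarith [sq_nonneg δ]
  linarith

open Classical in
/-- position of the last side at the first point -/
noncomputable def yX (n : ℕ) (δ : ℝ) : ℝ := if Even n then δ else Real.log (Real.cosh δ)

/-- parameter of the first point -/
noncomputable def uX (n : ℕ) (δ : ℝ) : ℝ := yX n δ / (2 * mz n)

theorem yX_le (δ : ℝ) (h0 : 0 < δ) : yX n δ ≤ δ := by
  unfold yX
  split_ifs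
  · exact le_rfl
  · exact log_cosh_le δ h0

theorem yX_ge (δ : ℝ) (h0 : 0 < δ) (h1 : δ ≤ 1 / 2) : δ ^ 2 / 4 ≤ yX n δ := by
  unfold yX
  split_ifs
  · nlinarith
  · exact le_log_cosh δ h0 h1

theorem xz_uX (hn : 4 ≤ n) (δ : ℝ) : xz n (uX n δ) = yX n δ := by
  have h := one_le_mz n hn
  have h' : (1 : ℝ) ≤ mz n := by exact_mod_cast h
  unfold xz uX
  field_simp

theorem cE_uX (hn : 4 ≤ n) (δ : ℝ) : cE n (uX n δ) = Real.cosh δ := by
  unfold cE
  rw [xz_uX hn]
  unfold yX
  split_ifs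
  · rfl
  · exact Real.exp_log (Real.cosh_pos δ)

theorem uX_ge (hn : 4 ≤ n) (δ : ℝ) (h0 : 0 < δ) (h1 : δ ≤ 1 / 2) :
    δ ^ 2 / (8 * mz n) ≤ uX n δ := by
  have h := one_le_mz n hn
  have h' : (1 : ℝ) ≤ mz n := by exact_mod_cast h
  have h2 := yX_ge (n := n) δ h0 h1
  unfold uX
  rw [div_le_div_iff₀ (by linarith) (by linarith)]
  nlinarith

theorem uX_pos (hn : 4 ≤ n) (δ : ℝ) (h0 : 0 < δ) (h1 : δ ≤ 1 / 2) : 0 < uX n δ := by
  have h := one_le_mz n hn
  have h' : (1 : ℝ) ≤ mz n := by exact_mod_cast h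
  exact lt_of_lt_of_le (by positivity) (uX_ge hn δ h0 h1)

theorem uX_le (hn : 4 ≤ n) (δ : ℝ) (h0 : 0 < δ) (h1 : δ ≤ 1 / 2) : uX n δ ≤ δ := by
  have h2 := xz_ge n hn (uX_pos hn δ h0 h1).le
  rw [xz_uX hn] at h2
  have h3 := yX_le (n := n) δ h0
  have := uX_pos hn δ h0 h1
  linarith

theorem KZ_X (hn : 4 ≤ n) (δ : ℝ) (h0 : 0 < δ) (h1 : δ ≤ 1 / 2) :
    2 * KZ n (uX n δ) ≤ Real.exp ((4 * mz n + 10) * (1 + Real.log (1 / δ))) := by
  have hT0 : 0 < Real.log (1 / δ) := by
    apply Real.log_pos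
    rw [lt_div_iff₀ h0]; linarith
  have hTe : Real.exp (Real.log (1 / δ)) = 1 / δ := Real.exp_log (by positivity)
  set T := Real.log (1 / δ) with hT
  have hm := one_le_mz n hn
  have hm' : (1 : ℝ) ≤ mz n := by exact_mod_cast hm
  have hu := uX_ge hn δ h0 h1
  have hu0 := uX_pos hn δ h0 h1
  have hs : uX n δ ≤ Real.sinh (uX n δ) := Real.self_le_sinh_iff.2 hu0.le
  have a1 : Real.exp (xz n (uX n δ)) ≤ Real.exp 1 := by
    rw [xz_uX hn]
    apply Real.exp_le_exp.2
    have := yX_le (n := n) δ h0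
    linarith
  have a2 : 1 + 1 / Real.sinh (uX n δ) ^ 2 ≤ 65 * (mz n : ℝ) ^ 2 * Real.exp (4 * T) := by
    have b1 : Real.exp (4 * T) = (1 / δ) ^ 4 := by
      rw [← hTe, ← Real.exp_nat_mul]; norm_num
    have b0 : 1 / (δ ^ 2 / (8 * mz n)) = 8 * mz n * (1 / δ) ^ 2 := by
      field_simp
    have b2 : 1 / Real.sinh (uX n δ) ^ 2 ≤ (8 * mz n * (1 / δ) ^ 2) ^ 2 := by
      rw [← b0, div_pow, one_pow]
      apply one_div_le_one_div_of_le (by positivity)
      exact pow_le_pow_left₀ (by positivity) (le_trans hu hs) 2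
    have b3 : 1 ≤ (1 / δ) ^ 4 := by
      apply one_le_pow₀
      rw [le_div_iff₀ h0]; linarith
    have b4 : 1 ≤ (mz n : ℝ) ^ 2 := one_le_pow₀ hm'
    have b5 : 1 ≤ (mz n : ℝ) ^ 2 * (1 / δ) ^ 4 := by nlinarith
    rw [b1]
    have b6 : (8 * mz n * (1 / δ) ^ 2) ^ 2 = 64 * ((mz n : ℝ) ^ 2 * (1 / δ) ^ 4) := by ring
    rw [b6] at b2
    nlinarith
  have a3 : (130 : ℝ) ≤ Real.exp 5 := by
    have h2 := Real.exp_one_gt_d9
    have e : Real.exp 5 = Real.exp 1 ^ 5 := by
      rw [← Real.exp_nat_mul]; norm_num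
    rw [e]
    have h3 : (2.7 : ℝ) ^ 5 ≤ Real.exp 1 ^ 5 := pow_le_pow_left₀ (by norm_num) (by linarith) 5
    norm_num at h3 ⊢
    linarith
  have a4 : (mz n : ℝ) ^ 2 ≤ Real.exp (2 * mz n) := by
    have h2 : (mz n : ℝ) ≤ Real.exp (mz n) := by
      have := Real.add_one_le_exp (mz n : ℝ)
      linarith
    have e : Real.exp (2 * mz n) = Real.exp (mz n) ^ 2 := by
      rw [← Real.exp_nat_mul]; norm_num
    rw [e]
    exact pow_le_pow_left₀ (by positivity) h2 2
  calc 2 * KZ n (uX n δ) =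
      2 * (Real.exp (xz n (uX n δ)) * (1 + 1 / Real.sinh (uX n δ) ^ 2)) := rfl
    _ ≤ 2 * (Real.exp 1 * (65 * (mz n : ℝ) ^ 2 * Real.exp (4 * T))) := by
      have : 0 ≤ 1 + 1 / Real.sinh (uX n δ) ^ 2 := by positivity
      have := mul_le_mul a1 a2 this (Real.exp_pos _).le
      linarith
    _ = 130 * (Real.exp 1 * ((mz n : ℝ) ^ 2 * Real.exp (4 * T))) := by ring
    _ ≤ Real.exp 5 * (Real.exp 1 * (Real.exp (2 * mz n) * Real.exp (4 * T))) := by
      apply mul_le_mul a3 _ (by positivity) (Real.exp_pos _).le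
      apply mul_le_mul_of_nonneg_left _ (Real.exp_pos _).le
      exact mul_le_mul_of_nonneg_right a4 (Real.exp_pos _).le
    _ = Real.exp (5 + (1 + (2 * mz n + 4 * T))) := by
      rw [← Real.exp_add, ← Real.exp_add, ← Real.exp_add]
    _ ≤ _ := by
      apply Real.exp_le_exp.2
      nlinarith

theorem KZ_dual (δ : ℝ) (h0 : 0 < δ) (h1 : δ ≤ 1 / 2) :
    2 * KZ n (dual δ) ≤ Real.exp ((4 * mz n + 10) * (1 + Real.log (1 / δ))) := by
  have hT0 : 0 < Real.log (1 / δ) := by
    apply Real.log_pos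
    rw [lt_div_iff₀ h0]; linarith
  have hd := dual_le δ h0 h1
  have hd0 := dual_pos δ h0
  set T := Real.log (1 / δ) with hT
  have hk : (0 : ℝ) ≤ mz n := by positivity
  have hs : 0 < Real.sinh δ := Real.sinh_pos_iff.2 h0
  have hs1 := sinh_le_one δ h1
  have a1 : Real.exp (xz n (dual δ)) ≤ Real.exp (2 * mz n * (2 + T)) := by
    apply Real.exp_le_exp.2
    unfold xz
    nlinarith
  have a2 : 1 + 1 / Real.sinh (dual δ) ^ 2 ≤ 2 := by
    rw [sinh_dual, div_pow, one_pow, one_div_one_div]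
    nlinarith
  have a3 : (4 : ℝ) ≤ Real.exp 2 := by
    have := Real.exp_one_gt_d9
    have e : Real.exp 2 = Real.exp 1 * Real.exp 1 := by rw [← Real.exp_add]; norm_num
    rw [e]; nlinarith
  calc 2 * KZ n (dual δ) = 2 * (Real.exp (xz n (dual δ)) *
        (1 + 1 / Real.sinh (dual δ) ^ 2)) := rfl
    _ ≤ 2 * (Real.exp (2 * mz n * (2 + T)) * 2) := by
      have : 0 ≤ 1 + 1 / Real.sinh (dual δ) ^ 2 := by positivity
      have := mul_le_mul a1 a2 this (Real.exp_pos _).le
      linarith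
    _ = 4 * Real.exp (2 * mz n * (2 + T)) := by ring
    _ ≤ Real.exp 2 * Real.exp (2 * mz n * (2 + T)) :=
      mul_le_mul_of_nonneg_right a3 (by positivity)
    _ = Real.exp (2 + 2 * mz n * (2 + T)) := by rw [← Real.exp_add]
    _ ≤ _ := by
      apply Real.exp_le_exp.2
      nlinarith

/-- the theorem for genus zero -/
theorem main_zero (hn : 4 ≤ n) (η : ℝ) (hη : 0 < η) (R : ℝ) :
    ∃ X ∈ Teich 0 n, ∃ Y ∈ Teich 0 n, ENNReal.ofReal R ≤ dL X Y ∧ dL X Y < ⊤ ∧ JoinedBy X Y ∧
      (∀ Z, JoinedBy X Z → ENNReal.ofReal (1 - η) * dL X Y ≤ max (dL X Z) (dL Z Y)) ∧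
      (∀ c : unitInterval → (SurfaceGroup 0 n →* SL2), IsPath c → c 0 = X →
        (∀ w, |tr (c 1 w)| = |tr (Y w)|) →
        ∃ s, ENNReal.ofReal (2 - η) * dL X Y ≤ dL X (c s) + dL (c s) Y) := by
  have hk : (0 : ℝ) ≤ mz n := by positivity
  have hm' : (1 : ℝ) ≤ mz n := by exact_mod_cast one_le_mz n hn
  apply assembly (alz n) (bez n) (alz_simple hn) (bez_simple hn)
    (fun s => rho (famZ n hn (Real.exp s) (Real.exp_pos s)))
    (fun s => rho_mem _ (famZ_ideal hn _ _))
    (fun w => continuous_rho _ (fun i => cont_RZ n i) w)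
    (fun s => kappaz_le hn _ _) (fun s => trabz_ne hn _ _)
    (fun s => th_alz_pos hn _ _)
    (fun s => th_bez_pos hn _ _) (4 * mz n + 11) (by linarith) ?_ η hη R
  intro δ h0 h1
  have hT0 : 0 < Real.log (1 / δ) := by
    apply Real.log_pos
    rw [lt_div_iff₀ h0]; linarith
  set T := Real.log (1 / δ) with hT
  set Mc : ℝ := 4 * mz n + 10 with hMc
  have hMc0 : 0 < Mc := by rw [hMc]; linarith
  have hs : 0 < Real.sinh δ := Real.sinh_pos_iff.2 h0
  have hs1 := sinh_le_one δ h1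
  have hd0 := dual_pos δ h0
  have hx0 := uX_pos hn δ h0 h1
  have hposM : 0 < Mc * (1 + T) / δ := by positivity
  have eX : Real.exp (Real.log (uX n δ)) = uX n δ := Real.exp_log hx0
  have eY : Real.exp (Real.log (dual δ)) = dual δ := Real.exp_log hd0
  have hLδ : Mc * (1 + T) ≤ δ * (⌈Mc * (1 + T) / δ⌉₊ : ℝ) := by
    have h := Nat.le_ceil (Mc * (1 + T) / δ)
    rw [div_le_iff₀ h0] at h
    linarith
  have hL1 : 1 ≤ ⌈Mc * (1 + T) / δ⌉₊ := Nat.one_le_iff_ne_zero.2 (by
    have := Nat.ceil_pos.2 hposM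
    omega)
  refine ⟨Real.log (uX n δ), Real.log (dual δ), ⌈Mc * (1 + T) / δ⌉₊, hL1, ?_, ?_, ?_, ?_, ?_⟩
  · have h := th_alz_cosh hn _ (Real.exp_pos (Real.log (uX n δ)))
    have hθ := th_nonneg (rho (famZ n hn (Real.exp (Real.log (uX n δ)))
        (Real.exp_pos (Real.log (uX n δ)))) (alz n))
    generalize th (rho (famZ n hn (Real.exp (Real.log (uX n δ)))
        (Real.exp_pos (Real.log (uX n δ)))) (alz n)) = θ at h hθ ⊢
    rw [eX, cE_uX hn] at h
    have h3 : θ = δ := Real.cosh_injOn (Set.mem_Ici.2 hθ) (Set.mem_Ici.2 h0.le) h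
    rw [h3]
    nlinarith
  · have h := th_bez_cosh hn _ (Real.exp_pos (Real.log (dual δ)))
    have hθ := th_nonneg (rho (famZ n hn (Real.exp (Real.log (dual δ)))
        (Real.exp_pos (Real.log (dual δ)))) (bez n))
    generalize th (rho (famZ n hn (Real.exp (Real.log (dual δ)))
        (Real.exp_pos (Real.log (dual δ)))) (bez n)) = θ at h hθ ⊢
    rw [eY, cosh_dual δ h0, sinh_dual] at h
    have h2 : 2 * (Real.cosh δ / Real.sinh δ / (1 / Real.sinh δ)) ^ 2 - 1 = Real.cosh (2 * δ) := by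
      rw [Real.cosh_two_mul]
      have := Real.cosh_sq δ
      field_simp
      linarith
    rw [h2] at h
    have h3 : θ = 2 * δ := Real.cosh_injOn (Set.mem_Ici.2 hθ)
      (Set.mem_Ici.2 (by linarith)) h
    rw [h3]
    nlinarith
  · intro w
    apply th_compare _ _ (CS 0 n) (compat _) (compat _) _ hL1
    apply famZ_hU hn _ _ _ _ δ h0.le
    · exact cosh_sq_le_two δ h0 h1
    · rw [eX]
      have h5 := uX_le hn δ h0 h1
      have h6 : 0 ≤ Real.sinh (δ - uX n δ) := Real.sinh_nonneg_iff.2 (by linarith)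
      rw [Real.sinh_sub] at h6
      have := Real.cosh_pos (uX n δ)
      nlinarith
    · rw [eX, cE_uX hn]
    · exact hL1
    · rw [eY]
      exact le_trans (KZ_dual δ h0 h1) (Real.exp_le_exp.2 hLδ)
  · intro w
    apply th_compare _ _ (CS 0 n) (compat _) (compat _) _ hL1
    apply famZ_hU hn _ _ _ _ δ h0.le
    · exact cosh_sq_le_two δ h0 h1
    · rw [eY, sinh_dual, cosh_dual δ h0]
      rw [mul_one_div]
    · rw [eY]
      have h5 : Real.sinh δ ≤ Real.sinh (dual δ) := by
        rw [sinh_dual, le_div_iff₀ hs]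
        nlinarith
      have h6 : δ ≤ dual δ := Real.sinh_le_sinh.1 h5
      have h7 := xz_ge n hn hd0.le
      have h8 : Real.cosh δ ≤ Real.cosh (xz n (dual δ)) := cosh_le_of_le h0.le (by linarith)
      unfold cE
      split_ifs
      · exact h8
      · exact le_trans h8 (cosh_le_exp _ (by linarith))
    · exact hL1
    · rw [eX]
      exact le_trans (KZ_X hn δ h0 h1) (Real.exp_le_exp.2 hLδ)
  · have h5 : (⌈Mc * (1 + T) / δ⌉₊ : ℝ) ≤ Mc * (1 + T) / δ + 1 := (Nat.ceil_lt_add_one hposM.le).le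
    have h6 : 1 ≤ (1 + T) / δ := by
      rw [le_div_iff₀ h0]; linarith
    calc (⌈Mc * (1 + T) / δ⌉₊ : ℝ) ≤ Mc * (1 + T) / δ + 1 := h5
      _ ≤ Mc * (1 + T) / δ + (1 + T) / δ := by linarith
      _ = (4 * mz n + 11) * (1 + T) / δ := by rw [hMc]; ring

end H40

end Pool.Agent.Lib.MP731498
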