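import Mathlib

set_option autoImplicit false

namespace Pool.Agent.Results.MP_731498_gt.NotLengthMetric

open Matrix
open scoped ENNReal

/-! ### Definitions used in the statement -/

/-- The fundamental group of the once-punctured torus, free on `a` and `b`. The loop around the
puncture is the commutator of `a` and `b`. -/
abbrev F2 : Type := FreeGroup (Fin 2)

/-- The first standard generator. -/
def a : F2 := FreeGroup.of 0

/-- The second standard generator. -/
def b : F2 := FreeGroup.of 1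

/-- The group `SL(2, ℝ)`. -/
abbrev SL2 : Type := Matrix.SpecialLinearGroup (Fin 2) ℝ

/-- The trace of an element of `SL(2, ℝ)`. -/
def tr (M : SL2) : ℝ := Matrix.trace (M : Matrix (Fin 2) (Fin 2) ℝ)

/-- Holonomies (lifted to `SL(2, ℝ)`, normalised to have positive traces on `a`, `b`, `ab`) of
marked complete finite area hyperbolic structures on the once-punctured torus: the commutator of
the generators is parabolic, with trace `-2` (Fricke). -/
def Teich : Set (F2 →* SL2) :=
  {ρ | 2 < tr (ρ a) ∧ 2 < tr (ρ b) ∧ 2 < tr (ρ (a * b)) ∧ tr (ρ (a * b * a⁻¹ * b⁻¹)) = -2}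

/-- The endomorphism of the free group with `a ↦ x`, `b ↦ y`. -/
def subst (x y : F2) : F2 →* F2 := FreeGroup.lift ![x, y]

/-- The Dehn twist `a ↦ a`, `b ↦ ab`. -/
def twistA : MulAut F2 :=
  MonoidHom.toMulEquiv (subst a (a * b)) (subst a (a⁻¹ * b))
    (by ext i; fin_cases i <;> simp [subst, a, b])
    (by ext i; fin_cases i <;> simp [subst, a, b])

/-- The Dehn twist `a ↦ ab`, `b ↦ b`. -/
def twistB : MulAut F2 :=
  MonoidHom.toMulEquiv (subst (a * b) b) (subst (a * b⁻¹) b)
    (by ext i; fin_cases i <;> simp [subst, a, b])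
    (by ext i; fin_cases i <;> simp [subst, a, b])

/-- Essential simple closed curves: the images of `a` under the group generated by the two Dehn
twists. -/
def Simple : Set F2 := {w | ∃ φ ∈ Subgroup.closure ({twistA, twistB} : Set (MulAut F2)), w = φ a}

/-- The length of the closed geodesic in the class of `w` for the structure `ρ`. -/
noncomputable def len (ρ : F2 →* SL2) (w : F2) : ℝ := 2 * Real.arcosh (|tr (ρ w)| / 2)

/-- The length spectrum metric: `log sup_w max (ℓ_Y(w)/ℓ_X(w), ℓ_X(w)/ℓ_Y(w))` over simple `w`. -/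
noncomputable def dL (X Y : F2 →* SL2) : ℝ≥0∞ :=
  ⨆ w ∈ Simple, ENNReal.ofReal (Real.log (max (len Y w / len X w) (len X w / len Y w)))

/-! ### Combinatorics of simple curves -/

section Comb

variable {G : Type*} [Group G]

inductive Pos (α β : G) : G → G → Prop
  | base : Pos α β α β
  | r1 {u v : G} : Pos α β u v → Pos α β u (u * v)
  | r2 {u v : G} : Pos α β u v → Pos α β u (v * u)
  | l1 {u v : G} : Pos α β u v → Pos α β (u * v) v
  | l2 {u v : G} : Pos α β u v → Pos α β (v * u) v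

theorem Pos.swap {α β u v : G} (h : Pos α β u v) : Pos β α v u := by
  induction h with
  | base => exact .base
  | r1 _ ih => exact .l2 ih
  | r2 _ ih => exact .l1 ih
  | l1 _ ih => exact .r2 ih
  | l2 _ ih => exact .r1 ih

def R (α β : G) (u v : G) : Prop := Pos α β u v ∨ Pos β α u v

theorem R.swap {α β u v : G} (h : R α β u v) : R α β v u :=
  h.elim (fun h => Or.inr h.swap) (fun h => Or.inl h.swap)
theorem R.r1 {α β u v : G} (h : R α β u v) : R α β u (u * v) :=
  h.elim (fun h => Or.inl h.r1) (fun h => Or.inr h.r1)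
theorem R.r2 {α β u v : G} (h : R α β u v) : R α β u (v * u) :=
  h.elim (fun h => Or.inl h.r2) (fun h => Or.inr h.r2)
theorem R.l1 {α β u v : G} (h : R α β u v) : R α β (u * v) v :=
  h.elim (fun h => Or.inl h.l1) (fun h => Or.inr h.l1)
theorem R.l2 {α β u v : G} (h : R α β u v) : R α β (v * u) v :=
  h.elim (fun h => Or.inl h.l2) (fun h => Or.inr h.l2)

def Q (a b : G) (u v : G) : Prop :=
  ∃ g u' v' : G, (R a b u' v' ∨ R a⁻¹ b u' v') ∧
    (u = g * u' * g⁻¹ ∨ u = g * u'⁻¹ * g⁻¹) ∧ (v = g * v' * g⁻¹ ∨ v = g * v'⁻¹ * g⁻¹)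

theorem Q.conj {a b u v : G} (h : Q a b u v) (g : G) : Q a b (g * u * g⁻¹) (g * v * g⁻¹) := by
  obtain ⟨g', u', v', h, hu, hv⟩ := h
  refine ⟨g * g', u', v', h, ?_, ?_⟩
  · rcases hu with rfl | rfl
    · left; group
    · right; group
  · rcases hv with rfl | rfl
    · left; group
    · right; group

theorem Q.inv_left {a b u v : G} (h : Q a b u v) : Q a b u⁻¹ v := by
  obtain ⟨g', u', v', h, hu, hv⟩ := h
  refine ⟨g', u', v', h, ?_, hv⟩
  rcases hu with rfl | rfl
  · right; group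
  · left; group

theorem Q.swap {a b u v : G} (h : Q a b u v) : Q a b v u := by
  obtain ⟨g', u', v', h, hu, hv⟩ := h
  exact ⟨g', v', u', h.imp R.swap R.swap, hv, hu⟩

theorem Q.inv_right {a b u v : G} (h : Q a b u v) : Q a b u v⁻¹ := h.swap.inv_left.swap

theorem Q.of {a b u v : G} (h : R a b u v ∨ R a⁻¹ b u v) : Q a b u v :=
  ⟨1, u, v, h, Or.inl (by group), Or.inl (by group)⟩

/-- the key step: `(u, u⁻¹ v)`. -/
theorem Q.key0 {a b α α' u v : G} (hα : (α = a ∧ α' = a⁻¹) ∨ (α = a⁻¹ ∧ α' = a))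
    (h : Pos α b u v ∨ Pos b α u v) : Q a b u (u⁻¹ * v) := by
  have hR : ∀ x y : G, R α b x y → Q a b x y := by
    intro x y hxy
    rcases hα with ⟨rfl, rfl⟩ | ⟨rfl, rfl⟩
    · exact Q.of (Or.inl hxy)
    · exact Q.of (Or.inr hxy)
  have hR' : ∀ x y : G, R α' b x y → Q a b x y := by
    intro x y hxy
    rcases hα with ⟨rfl, rfl⟩ | ⟨rfl, rfl⟩
    · exact Q.of (Or.inr hxy)
    · exact Q.of (Or.inl hxy)
  have hinv : α⁻¹ = α' := by
    rcases hα with ⟨rfl, rfl⟩ | ⟨rfl, rfl⟩ <;> simp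
  have hinv' : α = α'⁻¹ := by rw [← hinv, inv_inv]
  -- the non-base cases
  have main : ∀ u v : G, R α b u v →
      (Q a b u (u⁻¹ * (u * v)) ∧ Q a b u (u⁻¹ * (v * u)) ∧
        Q a b (u * v) ((u * v)⁻¹ * v) ∧ Q a b (v * u) ((v * u)⁻¹ * v)) := by
    intro u v h
    have hvu : Q a b (v * u) u⁻¹ := (hR _ _ h.swap.l1).inv_right
    refine ⟨?_, ?_, ?_, ?_⟩
    · have : u⁻¹ * (u * v) = v := by group
      rw [this]; exact hR _ _ h
    · have := (hR _ _ h).conj u⁻¹
      have e1 : u⁻¹ * u * u⁻¹⁻¹ = u := by group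
      have e2 : u⁻¹ * v * u⁻¹⁻¹ = u⁻¹ * (v * u) := by group
      rw [e1, e2] at this; exact this
    · have := hvu.conj v⁻¹
      have e1 : v⁻¹ * (v * u) * v⁻¹⁻¹ = u * v := by group
      have e2 : v⁻¹ * u⁻¹ * v⁻¹⁻¹ = (u * v)⁻¹ * v := by group
      rw [e1, e2] at this; exact this
    · have e2 : (v * u)⁻¹ * v = u⁻¹ := by group
      rw [e2]; exact hvu
  rcases h with h | h
  · cases h with
    | base =>
      -- (α, α⁻¹ b)
      rw [hinv]
      have : Q a b α'⁻¹ (α' * b) := (hR' _ _ (R.r1 (Or.inl .base))).inv_left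
      rwa [← hinv'] at this
    | r1 h => exact (main _ _ (Or.inl h)).1
    | r2 h => exact (main _ _ (Or.inl h)).2.1
    | l1 h => exact (main _ _ (Or.inl h)).2.2.1
    | l2 h => exact (main _ _ (Or.inl h)).2.2.2
  · cases h with
    | base =>
      -- (b, b⁻¹ α)
      have h1 : Q a b b (α' * b) := hR' _ _ (R.r2 (Or.inr .base))
      have e : b⁻¹ * α = (α' * b)⁻¹ := by rw [hinv']; group
      rw [e]; exact h1.inv_right
    | r1 h => exact (main _ _ (Or.inr h)).1
    | r2 h => exact (main _ _ (Or.inr h)).2.1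
    | l1 h => exact (main _ _ (Or.inr h)).2.2.1
    | l2 h => exact (main _ _ (Or.inr h)).2.2.2

theorem Q.key {a b u v : G} (h : R a b u v ∨ R a⁻¹ b u v) : Q a b u (u⁻¹ * v) := by
  rcases h with h | h
  · exact Q.key0 (α := a) (α' := a⁻¹) (Or.inl ⟨rfl, rfl⟩) h
  · exact Q.key0 (α := a⁻¹) (α' := a) (Or.inr ⟨rfl, rfl⟩) h

theorem Q.mul_right {a b u v : G} (h : Q a b u v) : Q a b u (u * v) := by
  obtain ⟨g, u', v', h, hu, hv⟩ := h
  have hRQ : ∀ x y : G, (R a b x y ∨ R a⁻¹ b x y) → Q a b x y := fun x y => Q.of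
  rcases hu with rfl | rfl <;> rcases hv with rfl | rfl
  · have := (hRQ _ _ (h.imp R.r1 R.r1)).conj g
    convert this using 1; group
  · -- (u', u' v'⁻¹)
    have h1 := (Q.key h).conj u'
    have h2 : Q a b u' (u' * v'⁻¹) := by
      have e1 : u' * u' * u'⁻¹ = u' := by group
      have e2 : u' * (u'⁻¹ * v') * u'⁻¹ = (u' * v'⁻¹)⁻¹ := by group
      rw [e1, e2] at h1
      simpa using h1.inv_right
    have := h2.conj g
    convert this using 1; group
  · have := (Q.key h).inv_left.conj g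
    convert this using 1; group
  · have := (hRQ _ _ (h.imp R.r2 R.r2)).inv_left.inv_right.conj g
    convert this using 1; group

theorem Q.mul_right' {a b u v : G} (h : Q a b u v) : Q a b u (u⁻¹ * v) := by
  have := h.inv_left.mul_right.inv_left
  simpa using this

theorem Q.mul_left {a b u v : G} (h : Q a b u v) : Q a b (u * v) v := by
  have := h.swap.inv_left.inv_right.mul_right.inv_left.inv_right.swap
  simpa using this

theorem Q.mul_left' {a b u v : G} (h : Q a b u v) : Q a b (u * v⁻¹) v := by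
  have := h.inv_right.mul_left.inv_right
  simpa using this

end Comb

/-! ### Matrix estimates -/


/-- `W α β q p m`: `m` is a product of `q` copies of `α` and `p` copies of `β` in some order. -/
inductive W {M : Type*} [Monoid M] (α β : M) : ℕ → ℕ → M → Prop
  | one : W α β 0 0 1
  | a {q p : ℕ} {m : M} : W α β q p m → W α β (q + 1) p (m * α)
  | b {q p : ℕ} {m : M} : W α β q p m → W α β q (p + 1) (m * β)

theorem W.mul {M : Type*} [Monoid M] {α β : M} {q p q' p' : ℕ} {m m' : M} (h : W α β q p m)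
    (h' : W α β q' p' m') : W α β (q + q') (p + p') (m * m') := by
  induction h' with
  | one => simpa using h
  | a _ ih => rw [← mul_assoc, ← add_assoc]; exact ih.a
  | b _ ih => rw [← mul_assoc, ← add_assoc]; exact ih.b

theorem W.swap {M : Type*} [Monoid M] {α β : M} {q p : ℕ} {m : M} (h : W α β q p m) :
    W β α p q m := by
  induction h with
  | one => exact .one
  | a _ ih => exact ih.b
  | b _ ih => exact ih.a

theorem W.map {M N : Type*} [Monoid M] [Monoid N] (f : M →* N) {α β : M} {q p : ℕ} {m : M}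
    (h : W α β q p m) : W (f α) (f β) q p (f m) := by
  induction h with
  | one => rw [map_one]; exact .one
  | a _ ih => rw [map_mul]; exact ih.a
  | b _ ih => rw [map_mul]; exact ih.b

abbrev M2 := Matrix (Fin 2) (Fin 2) ℝ

/-- lower bounds -/
theorem W.lower {κ e11 e12 e21 e22 : ℝ} (hκ : 0 < κ) (h11 : 1 ≤ e11) (h12 : 0 ≤ e12)
    (h21 : 0 ≤ e21) (h22 : 1 ≤ e22) {q p : ℕ} {m : M2}
    (h : W (!![κ, 0; 0, κ⁻¹] : M2) !![e11, e12; e21, e22] q p m) :
    κ ^ q ≤ m 0 0 ∧ 0 ≤ m 0 1 ∧ 0 ≤ m 1 0 ∧ (κ ^ q)⁻¹ ≤ m 1 1 := by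
  induction h with
  | one => simp
  | @a q p m _ ih =>
    obtain ⟨i1, i2, i3, i4⟩ := ih
    have k1 : 0 < κ ^ q := pow_pos hκ q
    have k2 : 0 < (κ ^ q)⁻¹ := inv_pos.2 k1
    have k3 : 0 < κ⁻¹ := inv_pos.2 hκ
    simp only [Matrix.mul_apply, Fin.sum_univ_two, Matrix.of_apply, Matrix.cons_val',
      Matrix.cons_val_zero, Matrix.cons_val_one, Matrix.cons_val_fin_one, mul_zero, add_zero,
      zero_add, pow_succ, mul_inv]
    refine ⟨?_, ?_, ?_, ?_⟩
    · exact mul_le_mul_of_nonneg_right i1 hκ.le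
    · positivity
    · positivity
    · exact mul_le_mul_of_nonneg_right i4 k3.le
  | @b q p m _ ih =>
    obtain ⟨i1, i2, i3, i4⟩ := ih
    have k1 : 0 < κ ^ q := pow_pos hκ q
    have k2 : 0 < (κ ^ q)⁻¹ := inv_pos.2 k1
    simp only [Matrix.mul_apply, Fin.sum_univ_two, Matrix.of_apply, Matrix.cons_val',
      Matrix.cons_val_zero, Matrix.cons_val_one, Matrix.cons_val_fin_one]
    have i1' : 0 ≤ m 0 0 := k1.le.trans i1
    have i4' : 0 ≤ m 1 1 := k2.le.trans i4
    refine ⟨?_, ?_, ?_, ?_⟩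
    · nlinarith [mul_nonneg i2 h21]
    · positivity
    · positivity
    · nlinarith [mul_nonneg i3 h12]

/-- upper bounds -/
theorem W.upper {N : ℝ} {A B : M2} (hA0 : ∀ i j, 0 ≤ A i j) (hB0 : ∀ i j, 0 ≤ B i j)
    (hA : A 0 0 + A 0 1 ≤ N) (hA' : A 1 0 + A 1 1 ≤ N)
    (hB : B 0 0 + B 0 1 ≤ N) (hB' : B 1 0 + B 1 1 ≤ N) {q p : ℕ} {m : M2}
    (h : W A B q p m) : (∀ i j, 0 ≤ m i j) ∧ ∀ i, m i 0 + m i 1 ≤ N ^ (q + p) := by
  have step : ∀ (C m : M2) (n : ℕ), (∀ i j, 0 ≤ C i j) → C 0 0 + C 0 1 ≤ N →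
      C 1 0 + C 1 1 ≤ N → ((∀ i j, 0 ≤ m i j) ∧ ∀ i, m i 0 + m i 1 ≤ N ^ n) →
      ((∀ i j, 0 ≤ (m * C) i j) ∧ ∀ i, (m * C) i 0 + (m * C) i 1 ≤ N ^ (n + 1)) := by
    intro C m n hC h0 h1 ⟨hm, hs⟩
    refine ⟨fun i j => ?_, fun i => ?_⟩
    · rw [Matrix.mul_apply, Fin.sum_univ_two]
      have := hm i 0; have := hm i 1; have := hC 0 j; have := hC 1 j
      positivity
    · have hN : 0 ≤ N := le_trans (add_nonneg (hC 0 0) (hC 0 1)) h0
      rw [Matrix.mul_apply, Matrix.mul_apply, Fin.sum_univ_two, Fin.sum_univ_two, pow_succ]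
      calc m i 0 * C 0 0 + m i 1 * C 1 0 + (m i 0 * C 0 1 + m i 1 * C 1 1)
          = m i 0 * (C 0 0 + C 0 1) + m i 1 * (C 1 0 + C 1 1) := by ring
        _ ≤ m i 0 * N + m i 1 * N := by
            gcongr
            · exact hm i 0
            · exact hm i 1
        _ = (m i 0 + m i 1) * N := by ring
        _ ≤ N ^ n * N := by gcongr; exact hs i
  induction h with
  | one =>
    refine ⟨fun i j => ?_, fun i => ?_⟩
    · rw [Matrix.one_apply]; split_ifs <;> norm_num
    · rw [Matrix.one_apply, Matrix.one_apply]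
      fin_cases i <;> simp
  | @a q p m _ ih =>
    have := step A m (q + p) hA0 hA hA' ih
    rwa [show q + 1 + p = q + p + 1 by ring]
  | @b q p m _ ih => exact step B m (q + p) hB0 hB hB' ih


/-! ### Words of simple curves -/

theorem Q_of_mem {φ : MulAut F2} (h : φ ∈ Subgroup.closure ({twistA, twistB} : Set (MulAut F2))) :
    Q a b (φ a) (φ b) := by
  induction h using Subgroup.closure_induction_right with
  | one => exact Q.of (Or.inl (Or.inl .base))
  | mul_right x _ y hy ih =>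
    rcases hy with rfl | hy
    · have e1 : (x * twistA) a = x a := by
        show x (twistA a) = x a
        congr 1
      have e2 : (x * twistA) b = x a * x b := by
        show x (twistA b) = x a * x b
        rw [← map_mul]
        congr 1
      rw [e1, e2]; exact ih.mul_right
    · rw [Set.mem_singleton_iff] at hy
      subst hy
      have e1 : (x * twistB) a = x a * x b := by
        show x (twistB a) = x a * x b
        rw [← map_mul]
        congr 1
      have e2 : (x * twistB) b = x b := by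
        show x (twistB b) = x b
        congr 1
      rw [e1, e2]; exact ih.mul_left
  | mul_inv_cancel x _ y hy ih =>
    rcases hy with rfl | hy
    · have e1 : (x * twistA⁻¹) a = x a := by
        show x (twistA⁻¹ a) = x a
        congr 1
      have e2 : (x * twistA⁻¹) b = (x a)⁻¹ * x b := by
        show x (twistA⁻¹ b) = (x a)⁻¹ * x b
        rw [← map_inv, ← map_mul]
        congr 1
      rw [e1, e2]; exact ih.mul_right'
    · rw [Set.mem_singleton_iff] at hy
      subst hy
      have e1 : (x * twistB⁻¹) a = x a * (x b)⁻¹ := by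
        show x (twistB⁻¹ a) = x a * (x b)⁻¹
        rw [← map_inv, ← map_mul]
        congr 1
      have e2 : (x * twistB⁻¹) b = x b := by
        show x (twistB⁻¹ b) = x b
        congr 1
      rw [e1, e2]; exact ih.mul_left'

theorem W.of_pos {G : Type*} [Group G] {α β u v : G} (h : Pos α β u v) :
    (∃ q p, 1 ≤ q + p ∧ W α β q p u) ∧ (∃ q p, 1 ≤ q + p ∧ W α β q p v) := by
  induction h with
  | base =>
    refine ⟨⟨1, 0, by norm_num, ?_⟩, ⟨0, 1, by norm_num, ?_⟩⟩
    · simpa using (W.one (α := α) (β := β)).a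
    · simpa using (W.one (α := α) (β := β)).b
  | r1 _ ih =>
    obtain ⟨⟨q, p, h, hu⟩, ⟨q', p', h', hv⟩⟩ := ih
    exact ⟨⟨q, p, h, hu⟩, ⟨q + q', p + p', by omega, hu.mul hv⟩⟩
  | r2 _ ih =>
    obtain ⟨⟨q, p, h, hu⟩, ⟨q', p', h', hv⟩⟩ := ih
    exact ⟨⟨q, p, h, hu⟩, ⟨q' + q, p' + p, by omega, hv.mul hu⟩⟩
  | l1 _ ih =>
    obtain ⟨⟨q, p, h, hu⟩, ⟨q', p', h', hv⟩⟩ := ih
    exact ⟨⟨q + q', p + p', by omega, hu.mul hv⟩, ⟨q', p', h', hv⟩⟩
  | l2 _ ih =>
    obtain ⟨⟨q, p, h, hu⟩, ⟨q', p', h', hv⟩⟩ := ih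
    exact ⟨⟨q' + q, p' + p, by omega, hv.mul hu⟩, ⟨q', p', h', hv⟩⟩

/-- every simple curve is, up to conjugacy and inversion, a nonempty word in `a, b` or in
`a⁻¹, b`. -/
theorem word_of_simple {w : F2} (hw : w ∈ Simple) :
    ∃ (g u : F2) (q p : ℕ), 1 ≤ q + p ∧ (W a b q p u ∨ W a⁻¹ b q p u) ∧
      (w = g * u * g⁻¹ ∨ w = g * u⁻¹ * g⁻¹) := by
  obtain ⟨φ, hφ, rfl⟩ := hw
  obtain ⟨g, u, v, h, hu, _⟩ := Q_of_mem hφ
  have : ∃ q p, 1 ≤ q + p ∧ (W a b q p u ∨ W a⁻¹ b q p u) := by
    rcases h with (h | h) | (h | h)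
    · obtain ⟨q, p, h1, h2⟩ := (W.of_pos h).1
      exact ⟨q, p, h1, Or.inl h2⟩
    · obtain ⟨q, p, h1, h2⟩ := (W.of_pos h).1
      exact ⟨p, q, by omega, Or.inl h2.swap⟩
    · obtain ⟨q, p, h1, h2⟩ := (W.of_pos h).1
      exact ⟨q, p, h1, Or.inr h2⟩
    · obtain ⟨q, p, h1, h2⟩ := (W.of_pos h).1
      exact ⟨p, q, by omega, Or.inr h2.swap⟩
  obtain ⟨q, p, h1, h2⟩ := this
  exact ⟨g, u, q, p, h1, h2, hu⟩

/-! ### Traces -/

theorem tr_conj (g m : SL2) : tr (g * m * g⁻¹) = tr m := by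
  unfold tr
  rw [Matrix.SpecialLinearGroup.coe_mul, Matrix.trace_mul_comm, ← Matrix.SpecialLinearGroup.coe_mul]
  have h : g⁻¹ * (g * m) = m := by group
  rw [h]

theorem tr_inv (m : SL2) : tr m⁻¹ = tr m := by
  unfold tr
  rw [Matrix.SpecialLinearGroup.coe_inv, Matrix.adjugate_fin_two]
  simp [Matrix.trace_fin_two, add_comm]

theorem det_eq (m : SL2) : (m : M2) 0 0 * (m : M2) 1 1 - (m : M2) 0 1 * (m : M2) 1 0 = 1 := by
  rw [← Matrix.det_fin_two]; exact m.2

theorem fricke (A B : SL2) :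
    tr (A * B * A⁻¹ * B⁻¹) = tr A ^ 2 + tr B ^ 2 + tr (A * B) ^ 2 - tr A * tr B * tr (A * B) - 2 := by
  have hA := det_eq A
  have hB := det_eq B
  unfold tr
  simp only [Matrix.SpecialLinearGroup.coe_mul, Matrix.SpecialLinearGroup.coe_inv,
    Matrix.adjugate_fin_two, Matrix.trace_fin_two, Matrix.mul_apply, Fin.sum_univ_two,
    Matrix.of_apply, Matrix.cons_val', Matrix.cons_val_zero, Matrix.cons_val_one,
    Matrix.cons_val_fin_one]
  generalize (A : M2) 0 0 = a0 at *
  generalize (A : M2) 0 1 = a1 at *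
  generalize (A : M2) 1 0 = a2 at *
  generalize (A : M2) 1 1 = a3 at *
  generalize (B : M2) 0 0 = b0 at *
  generalize (B : M2) 0 1 = b1 at *
  generalize (B : M2) 1 0 = b2 at *
  generalize (B : M2) 1 1 = b3 at *
  linear_combination ((b0 + b3) ^ 2 - 2 * (b0 * b3 - b1 * b2)) * hA + ((a0 + a3) ^ 2 - 2) * hB

/-! ### The rectangular structures -/

/-- The real matrix with entries `c, t, t, c`. -/
noncomputable def mA (κ : ℝ) : M2 :=
  !![(κ ^ 2 + 1) / (κ ^ 2 - 1), 2 * κ / (κ ^ 2 - 1); 2 * κ / (κ ^ 2 - 1), (κ ^ 2 + 1) / (κ ^ 2 - 1)]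

noncomputable def mB (κ : ℝ) : M2 := !![κ, 0; 0, κ⁻¹]

theorem rect_bounds {κ : ℝ} (hκ : 3 ≤ κ) {q p : ℕ} {m : M2} (h : W (mA κ) (mB κ) q p m) :
    κ ^ p + (κ ^ p)⁻¹ ≤ m.trace ∧
    ((κ + 1) / (κ - 1)) ^ q + (((κ + 1) / (κ - 1)) ^ q)⁻¹ ≤ m.trace ∧
    m.trace ≤ 2 * κ ^ (q + p) := by
  have k0 : 0 < κ := by linarith
  have k1 : 0 < κ - 1 := by linarith
  have k2 : 0 < κ ^ 2 - 1 := by nlinarith
  have kinv : κ⁻¹ ≤ 1 := inv_le_one_of_one_le₀ (by linarith)
  have kinv0 : 0 < κ⁻¹ := inv_pos.2 k0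
  have hc : 1 ≤ (κ ^ 2 + 1) / (κ ^ 2 - 1) := by rw [le_div_iff₀ k2]; linarith
  have ht : 0 ≤ 2 * κ / (κ ^ 2 - 1) := by positivity
  have hct : (κ ^ 2 + 1) / (κ ^ 2 - 1) + 2 * κ / (κ ^ 2 - 1) = (κ + 1) / (κ - 1) := by
    field_simp
    ring
  refine ⟨?_, ?_, ?_⟩
  · have := W.lower (κ := κ) k0 hc ht ht hc h.swap
    rw [Matrix.trace_fin_two]
    linarith [this.1, this.2.2.2]
  · -- change of basis
    have hD : ∃ m' : M2, W (!![(κ + 1) / (κ - 1), 0; 0, ((κ + 1) / (κ - 1))⁻¹] : M2)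
        !![(κ + κ⁻¹) / 2, (κ - κ⁻¹) / 2; (κ - κ⁻¹) / 2, (κ + κ⁻¹) / 2] q p m' ∧
        m * !![1, 1; 1, -1] = !![1, 1; 1, -1] * m' := by
      have c1 : mA κ * !![1, 1; 1, -1] =
          !![1, 1; 1, -1] * !![(κ + 1) / (κ - 1), 0; 0, ((κ + 1) / (κ - 1))⁻¹] := by
        have e1 : (κ ^ 2 + 1) / (κ ^ 2 - 1) - 2 * κ / (κ ^ 2 - 1) = ((κ + 1) / (κ - 1))⁻¹ := by
          rw [inv_div]
          have : κ + 1 ≠ 0 := by positivity
          have h3 : κ ^ 2 - 1 = (κ - 1) * (κ + 1) := by ring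
          rw [h3]
          field_simp
          ring
        ext i j
        fin_cases i <;> fin_cases j <;>
          simp [mA, Matrix.mul_apply, Fin.sum_univ_two] <;> (try simp at e1) <;> linarith
      have c2 : mB κ * !![1, 1; 1, -1] =
          !![1, 1; 1, -1] * !![(κ + κ⁻¹) / 2, (κ - κ⁻¹) / 2; (κ - κ⁻¹) / 2, (κ + κ⁻¹) / 2] := by
        ext i j
        fin_cases i <;> fin_cases j <;>
          simp [mB, Matrix.mul_apply, Fin.sum_univ_two] <;> ring
      clear hct ht hc
      induction h with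
      | one => exact ⟨1, .one, by simp⟩
      | a _ ih =>
        obtain ⟨m', h1, h2⟩ := ih
        exact ⟨_, h1.a, by rw [mul_assoc, c1, ← mul_assoc, h2, mul_assoc]⟩
      | b _ ih =>
        obtain ⟨m', h1, h2⟩ := ih
        exact ⟨_, h1.b, by rw [mul_assoc, c2, ← mul_assoc, h2, mul_assoc]⟩
    obtain ⟨m', h1, h2⟩ := hD
    have hμ : 0 < (κ + 1) / (κ - 1) := by positivity
    have hch : 1 ≤ (κ + κ⁻¹) / 2 := by
      have : κ + κ⁻¹ = (κ ^ 2 + 1) / κ := by field_simp
      rw [this, le_div_iff₀ (by norm_num), le_div_iff₀ k0]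
      nlinarith
    have := W.lower hμ hch (by linarith) (by linarith) hch h1
    have htr : m.trace = m'.trace := by
      have e00 := congrFun (congrFun h2 0) 0
      have e01 := congrFun (congrFun h2 0) 1
      have e10 := congrFun (congrFun h2 1) 0
      have e11 := congrFun (congrFun h2 1) 1
      simp [Matrix.mul_apply, Fin.sum_univ_two] at e00 e01 e10 e11
      rw [Matrix.trace_fin_two, Matrix.trace_fin_two]
      linarith
    rw [htr, Matrix.trace_fin_two]
    linarith [this.1, this.2.2.2]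
  · have hμκ : (κ ^ 2 + 1) / (κ ^ 2 - 1) + 2 * κ / (κ ^ 2 - 1) ≤ κ := by
      rw [hct, div_le_iff₀ k1]; nlinarith
    have := W.upper (N := κ) (A := mA κ) (B := mB κ)
      (by intro i j; fin_cases i <;> fin_cases j <;> simp [mA] <;> positivity)
      (by intro i j; fin_cases i <;> fin_cases j <;> simp [mB] <;> positivity)
      (by simp [mA]; exact hμκ) (by simp [mA]; linarith)
      (by simp [mB]) (by simp [mB]; linarith) h
    rw [Matrix.trace_fin_two]
    linarith [this.2 0, this.2 1, this.1 0 1, this.1 1 0]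

/-! ### Lengths -/

theorem arcosh_lower {x n T : ℝ} (hx : 1 < x) (hn : 0 ≤ n) (hT : x ^ n + (x ^ n)⁻¹ ≤ T) :
    2 * n * Real.log x ≤ 2 * Real.arcosh (|T| / 2) := by
  have hx0 : 0 < x := by linarith
  have hcosh : Real.cosh (n * Real.log x) = (x ^ n + (x ^ n)⁻¹) / 2 := by
    rw [Real.cosh_eq, ← Real.exp_log (Real.rpow_pos_of_pos hx0 n), ← Real.exp_neg,
      Real.log_rpow hx0]
  have h0 : 0 ≤ n * Real.log x := mul_nonneg hn (Real.log_pos hx).le
  have h1 : Real.cosh (n * Real.log x) ≤ |T| / 2 := by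
    rw [hcosh]
    have := le_abs_self T
    linarith
  have h2 : Real.arcosh (Real.cosh (n * Real.log x)) ≤ Real.arcosh (|T| / 2) :=
    (Real.arcosh_le_arcosh (Real.cosh_pos _) (lt_of_lt_of_le (Real.cosh_pos _) h1)).2 h1
  rw [Real.arcosh_cosh h0] at h2
  linarith

theorem arcosh_upper {T : ℝ} (hT : 2 ≤ T) : 2 * Real.arcosh (|T| / 2) ≤ 2 * Real.log T := by
  have hT' : |T| = T := abs_of_nonneg (by linarith)
  rw [hT', Real.arcosh]
  have : Real.log (T / 2 + √((T / 2) ^ 2 - 1)) ≤ Real.log T := by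
    apply Real.log_le_log
    · have := Real.sqrt_nonneg ((T / 2) ^ 2 - 1)
      linarith
    · have : √((T / 2) ^ 2 - 1) ≤ T / 2 := by
        rw [Real.sqrt_le_left (by linarith)]
        linarith
      linarith
  linarith

/-- The bounds satisfied by the length of a word in `A, B`. -/
theorem len_bounds {κ T : ℝ} (hκ : 3 ≤ κ) {q p : ℕ} (hqp : 1 ≤ q + p)
    (h1 : κ ^ p + (κ ^ p)⁻¹ ≤ T)
    (h2 : ((κ + 1) / (κ - 1)) ^ q + (((κ + 1) / (κ - 1)) ^ q)⁻¹ ≤ T)
    (h3 : T ≤ 2 * κ ^ (q + p)) :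
    2 * p * Real.log κ ≤ 2 * Real.arcosh (|T| / 2) ∧
    2 * q * Real.log ((κ + 1) / (κ - 1)) ≤ 2 * Real.arcosh (|T| / 2) ∧
    2 * Real.arcosh (|T| / 2) ≤ 4 * (q + p) * Real.log κ := by
  have k1 : 0 < κ - 1 := by linarith
  refine ⟨?_, ?_, ?_⟩
  · exact arcosh_lower (n := p) (by linarith) (Nat.cast_nonneg p) (by simpa using h1)
  · exact arcosh_lower (n := q) (by rw [lt_div_iff₀ k1]; linarith) (Nat.cast_nonneg q)
      (by simpa using h2)
  · have hk0 : 0 < κ := by linarith
    have hT2 : 2 ≤ T := by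
      have : ∀ y : ℝ, 0 < y → 2 ≤ y + y⁻¹ := by
        intro y hy
        rw [← sub_nonneg]
        have : y + y⁻¹ - 2 = (y - 1) ^ 2 / y := by field_simp; ring
        rw [this]; positivity
      exact (this (κ ^ p) (by positivity)).trans h1
    refine (arcosh_upper hT2).trans ?_
    have hlog : Real.log T ≤ Real.log (2 * κ ^ (q + p)) := Real.log_le_log (by linarith) h3
    rw [Real.log_mul (by norm_num) (by positivity), Real.log_pow] at hlog
    have hlog2 : Real.log 2 ≤ Real.log κ := Real.log_le_log (by norm_num) (by linarith)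
    have hlogk : 0 < Real.log κ := Real.log_pos (by linarith)
    have hqp' : (1 : ℝ) ≤ ((q + p : ℕ) : ℝ) := by exact_mod_cast hqp
    have : Real.log κ ≤ ((q + p : ℕ) : ℝ) * Real.log κ := by nlinarith
    push_cast at this hlog
    linarith

/-- The pair of rectangular structures. -/
theorem exists_rect {κ : ℝ} (hκ : 3 ≤ κ) : ∃ A B : SL2, (A : M2) = mA κ ∧ (B : M2) = mB κ := by
  have k0 : 0 < κ := by linarith
  have k2 : 0 < κ ^ 2 - 1 := by nlinarith
  refine ⟨⟨mA κ, ?_⟩, ⟨mB κ, ?_⟩, rfl, rfl⟩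
  · rw [Matrix.det_fin_two]
    simp only [mA, Matrix.of_apply, Matrix.cons_val', Matrix.cons_val_zero, Matrix.cons_val_one,
      Matrix.cons_val_fin_one]
    field_simp
    ring
  · rw [Matrix.det_fin_two]
    simp [mB, k0.ne']

theorem trace_mA (κ : ℝ) : (mA κ).trace = 2 * ((κ ^ 2 + 1) / (κ ^ 2 - 1)) := by
  simp [mA, Matrix.trace_fin_two]; ring

theorem trace_mB (κ : ℝ) : (mB κ).trace = κ + κ⁻¹ := by
  simp [mB, Matrix.trace_fin_two]

theorem trace_mAB (κ : ℝ) :
    (mA κ * mB κ).trace = ((κ ^ 2 + 1) / (κ ^ 2 - 1)) * (κ + κ⁻¹) := by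
  simp [mA, mB, Matrix.trace_fin_two]; ring

theorem rect_mem {κ : ℝ} (hκ : 3 ≤ κ) {A B : SL2} (hA : (A : M2) = mA κ) (hB : (B : M2) = mB κ) :
    (FreeGroup.lift ![A, B] : F2 →* SL2) ∈ Teich ∧
    (FreeGroup.lift ![B, A] : F2 →* SL2) ∈ Teich := by
  have k0 : 0 < κ := by linarith
  have k2 : 0 < κ ^ 2 - 1 := by nlinarith
  have hc : 1 < (κ ^ 2 + 1) / (κ ^ 2 - 1) := by rw [lt_div_iff₀ k2]; linarith
  have hkk : 2 < κ + κ⁻¹ := by
    rw [← sub_pos]
    have : κ + κ⁻¹ - 2 = (κ - 1) ^ 2 / κ := by field_simp; ring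
    rw [this]
    have : 0 < κ - 1 := by linarith
    positivity
  have tA : tr A = 2 * ((κ ^ 2 + 1) / (κ ^ 2 - 1)) := by rw [tr, hA, trace_mA]
  have tB : tr B = κ + κ⁻¹ := by rw [tr, hB, trace_mB]
  have tAB : tr (A * B) = ((κ ^ 2 + 1) / (κ ^ 2 - 1)) * (κ + κ⁻¹) := by
    rw [tr, Matrix.SpecialLinearGroup.coe_mul, hA, hB, trace_mAB]
  have tBA : tr (B * A) = ((κ ^ 2 + 1) / (κ ^ 2 - 1)) * (κ + κ⁻¹) := by
    rw [← tAB, tr, tr, Matrix.SpecialLinearGroup.coe_mul, Matrix.SpecialLinearGroup.coe_mul,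
      Matrix.trace_mul_comm]
  have key : (2 * ((κ ^ 2 + 1) / (κ ^ 2 - 1))) ^ 2 + (κ + κ⁻¹) ^ 2 +
      (((κ ^ 2 + 1) / (κ ^ 2 - 1)) * (κ + κ⁻¹)) ^ 2 -
      (2 * ((κ ^ 2 + 1) / (κ ^ 2 - 1))) * (κ + κ⁻¹) *
      (((κ ^ 2 + 1) / (κ ^ 2 - 1)) * (κ + κ⁻¹)) - 2 = -2 := by
    field_simp
    ring
  have h2 : 2 < 2 * ((κ ^ 2 + 1) / (κ ^ 2 - 1)) := by linarith
  have h3 : 2 < ((κ ^ 2 + 1) / (κ ^ 2 - 1)) * (κ + κ⁻¹) := by nlinarith
  constructor
  · refine ⟨?_, ?_, ?_, ?_⟩
    · simp only [a, FreeGroup.lift_apply_of, Matrix.cons_val_zero]; rw [tA]; exact h2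
    · simp only [b, FreeGroup.lift_apply_of, Matrix.cons_val_one, Matrix.cons_val_fin_one]
      rw [tB]; exact hkk
    · simp only [map_mul, a, b, FreeGroup.lift_apply_of, Matrix.cons_val_zero, Matrix.cons_val_one,
        Matrix.cons_val_fin_one]
      rw [tAB]; exact h3
    · simp only [map_mul, map_inv, a, b, FreeGroup.lift_apply_of, Matrix.cons_val_zero,
        Matrix.cons_val_one, Matrix.cons_val_fin_one]
      rw [fricke, tA, tB, tAB]; exact key
  · refine ⟨?_, ?_, ?_, ?_⟩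
    · simp only [a, FreeGroup.lift_apply_of, Matrix.cons_val_zero]; rw [tB]; exact hkk
    · simp only [b, FreeGroup.lift_apply_of, Matrix.cons_val_one, Matrix.cons_val_fin_one]
      rw [tA]; exact h2
    · simp only [map_mul, a, b, FreeGroup.lift_apply_of, Matrix.cons_val_zero, Matrix.cons_val_one,
        Matrix.cons_val_fin_one]
      rw [tBA]; exact h3
    · simp only [map_mul, map_inv, a, b, FreeGroup.lift_apply_of, Matrix.cons_val_zero,
        Matrix.cons_val_one, Matrix.cons_val_fin_one]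
      rw [fricke, tA, tB, tBA]; linarith [key]

theorem trace_sandwich {J m : M2} (hJ : J * J = 1) : (J * m * J).trace = m.trace := by
  rw [Matrix.trace_mul_comm, ← mul_assoc, hJ, one_mul]

theorem W.sandwich {J α β : M2} (hJ : J * J = 1) {q p : ℕ} {m : M2} (h : W α β q p m) :
    W (J * α * J) (J * β * J) q p (J * m * J) := by
  induction h with
  | one => rw [mul_one, hJ]; exact .one
  | @a q p m _ ih =>
    have : J * (m * α) * J = J * m * J * (J * α * J) := by
      calc J * (m * α) * J = J * m * 1 * α * J := by simp [mul_assoc]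
        _ = J * m * (J * J) * α * J := by rw [hJ]
        _ = _ := by simp only [mul_assoc]
    rw [this]; exact ih.a
  | @b q p m _ ih =>
    have : J * (m * β) * J = J * m * J * (J * β * J) := by
      calc J * (m * β) * J = J * m * 1 * β * J := by simp [mul_assoc]
        _ = J * m * (J * J) * β * J := by rw [hJ]
        _ = _ := by simp only [mul_assoc]
    rw [this]; exact ih.b

theorem simple_bounds {κ : ℝ} (hκ : 3 ≤ κ) {A B : SL2} (hA : (A : M2) = mA κ)
    (hB : (B : M2) = mB κ) {w : F2} (hw : w ∈ Simple) :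
    ∃ q p : ℕ, 1 ≤ q + p ∧
      (2 * p * Real.log κ ≤ len (FreeGroup.lift ![A, B]) w ∧
        2 * q * Real.log ((κ + 1) / (κ - 1)) ≤ len (FreeGroup.lift ![A, B]) w ∧
        len (FreeGroup.lift ![A, B]) w ≤ 4 * (q + p) * Real.log κ) ∧
      (2 * q * Real.log κ ≤ len (FreeGroup.lift ![B, A]) w ∧
        2 * p * Real.log ((κ + 1) / (κ - 1)) ≤ len (FreeGroup.lift ![B, A]) w ∧
        len (FreeGroup.lift ![B, A]) w ≤ 4 * (q + p) * Real.log κ) := by
  obtain ⟨g, u, q, p, hqp, hu, hw⟩ := word_of_simple hw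
  have hk0 : κ ≠ 0 := by positivity
  have toM : ∀ ρ : F2 →* SL2, len ρ w = 2 * Real.arcosh (|((ρ u : SL2) : M2).trace| / 2) := by
    intro ρ
    have : tr (ρ w) = tr (ρ u) := by
      rcases hw with rfl | rfl
      · simp only [map_mul, map_inv, tr_conj]
      · simp only [map_mul, map_inv, tr_conj, tr_inv]
    rw [len, this, tr]
  let f : SL2 →* M2 :=
    { toFun := fun m => (m : M2), map_one' := by simp, map_mul' := by intro x y; simp }
  refine ⟨q, p, hqp, ?_, ?_⟩
  · rw [toM]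
    set ρ : F2 →* SL2 := FreeGroup.lift ![A, B] with hρ
    have ra : ρ a = A := by simp [hρ, a]
    have rb : ρ b = B := by simp [hρ, b]
    have hWm : W (mA κ) (mB κ) q p ((ρ u : SL2) : M2) ∨
        W ((A⁻¹ : SL2) : M2) (mB κ) q p ((ρ u : SL2) : M2) := by
      rcases hu with hu | hu
      · left
        have := (hu.map ρ).map f
        rw [ra, rb] at this
        rw [← hA, ← hB]; exact this
      · right
        have := (hu.map ρ).map f
        rw [map_inv, ra, rb] at this
        rw [← hB]; exact this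
    have hWt : ∃ m : M2, m.trace = ((ρ u : SL2) : M2).trace ∧ W (mA κ) (mB κ) q p m := by
      rcases hWm with h | h
      · exact ⟨_, rfl, h⟩
      · have hJ : (!![1, 0; 0, -1] : M2) * !![1, 0; 0, -1] = 1 := by
          ext i j; fin_cases i <;> fin_cases j <;> simp
        refine ⟨_, trace_sandwich hJ, ?_⟩
        have := h.sandwich hJ
        have e1 : (!![1, 0; 0, -1] : M2) * ((A⁻¹ : SL2) : M2) * !![1, 0; 0, -1] = mA κ := by
          rw [Matrix.SpecialLinearGroup.coe_inv, hA, Matrix.adjugate_fin_two]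
          ext i j; fin_cases i <;> fin_cases j <;> simp [mA]
        have e2 : (!![1, 0; 0, -1] : M2) * mB κ * !![1, 0; 0, -1] = mB κ := by
          ext i j; fin_cases i <;> fin_cases j <;> simp [mB]
        rwa [e1, e2] at this
    obtain ⟨m, hm1, hm2⟩ := hWt
    rw [← hm1]
    obtain ⟨b1, b2, b3⟩ := rect_bounds hκ hm2
    exact len_bounds hκ hqp b1 b2 b3
  · rw [toM]
    set ρ : F2 →* SL2 := FreeGroup.lift ![B, A] with hρ
    have ra : ρ a = B := by simp [hρ, a]
    have rb : ρ b = A := by simp [hρ, b]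
    have hWm : W (mB κ) (mA κ) q p ((ρ u : SL2) : M2) ∨
        W ((B⁻¹ : SL2) : M2) (mA κ) q p ((ρ u : SL2) : M2) := by
      rcases hu with hu | hu
      · left
        have := (hu.map ρ).map f
        rw [ra, rb] at this
        rw [← hA, ← hB]; exact this
      · right
        have := (hu.map ρ).map f
        rw [map_inv, ra, rb] at this
        rw [← hA]; exact this
    have hWt : ∃ m : M2, m.trace = ((ρ u : SL2) : M2).trace ∧ W (mB κ) (mA κ) q p m := by
      rcases hWm with h | h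
      · exact ⟨_, rfl, h⟩
      · have hJ : (!![0, 1; 1, 0] : M2) * !![0, 1; 1, 0] = 1 := by
          ext i j; fin_cases i <;> fin_cases j <;> simp
        refine ⟨_, trace_sandwich hJ, ?_⟩
        have := h.sandwich hJ
        have e1 : (!![0, 1; 1, 0] : M2) * ((B⁻¹ : SL2) : M2) * !![0, 1; 1, 0] = mB κ := by
          rw [Matrix.SpecialLinearGroup.coe_inv, hB, Matrix.adjugate_fin_two]
          ext i j; fin_cases i <;> fin_cases j <;> simp [mB]
        have e2 : (!![0, 1; 1, 0] : M2) * mA κ * !![0, 1; 1, 0] = mA κ := by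
          ext i j; fin_cases i <;> fin_cases j <;> simp [mA]
        rwa [e1, e2] at this
    obtain ⟨m, hm1, hm2⟩ := hWt
    rw [← hm1]
    obtain ⟨b1, b2, b3⟩ := rect_bounds hκ hm2.swap
    have := len_bounds hκ (q := p) (p := q) (by omega) b1 b2 b3
    refine ⟨this.1, this.2.1, this.2.2.trans_eq ?_⟩
    ring

/-! ### Choice of the parameter -/

theorem exists_kappa {η : ℝ} (hη : 0 < η) (R : ℝ) : ∃ κ : ℝ, 3 ≤ κ ∧
    R ≤ Real.log (Real.log κ / Real.log ((κ + 1) / (κ - 1))) ∧
    (1 - η) * Real.log (2 + 2 * (Real.log κ / Real.log ((κ + 1) / (κ - 1)))) ≤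
      Real.log (Real.log 2 / (2 * Real.log ((κ + 1) / (κ - 1)))) := by
  have ev1 : ∀ᶠ κ : ℝ in Filter.atTop, Real.log κ ≤ (1 / 4) * κ ^ η := by
    have := (isLittleO_log_rpow_atTop hη).bound (show (0 : ℝ) < 1 / 4 by norm_num)
    filter_upwards [this, Filter.eventually_ge_atTop 1] with κ h1 h2
    rw [Real.norm_of_nonneg (Real.log_nonneg h2),
      Real.norm_of_nonneg (Real.rpow_nonneg (by linarith) _)] at h1
    exact h1
  have ev2 : ∀ᶠ κ : ℝ in Filter.atTop, 4 / η ^ 2 ≤ Real.log κ :=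
    Real.tendsto_log_atTop.eventually_ge_atTop _
  have ev3 : ∀ᶠ κ : ℝ in Filter.atTop, 2 * Real.exp R + 1 ≤ κ := Filter.eventually_ge_atTop _
  obtain ⟨κ, h1, h2, h3, h4⟩ :=
    (ev1.and (ev2.and (ev3.and (Filter.eventually_ge_atTop (32 : ℝ))))).exists
  have k0 : 0 < κ := by linarith
  have k1 : 0 < κ - 1 := by linarith
  have k3 : 0 < κ + 1 := by linarith
  have hμ : 1 < (κ + 1) / (κ - 1) := by rw [lt_div_iff₀ k1]; linarith
  set l := Real.log ((κ + 1) / (κ - 1)) with hl
  have l0 : 0 < l := Real.log_pos hμ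
  have l1 : l ≤ 2 / (κ - 1) := by
    have := Real.log_le_sub_one_of_pos (show 0 < (κ + 1) / (κ - 1) by positivity)
    have e : (κ + 1) / (κ - 1) - 1 = 2 / (κ - 1) := by field_simp; ring
    rw [e] at this; exact this
  have l2 : 2 / (κ + 1) ≤ l := by
    have := Real.one_sub_inv_le_log_of_pos (show 0 < (κ + 1) / (κ - 1) by positivity)
    have e : 1 - ((κ + 1) / (κ - 1))⁻¹ = 2 / (κ + 1) := by
      rw [inv_div]; field_simp; ring
    rw [e] at this; exact this
  have hL1 : 1 ≤ Real.log κ := by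
    rw [Real.le_log_iff_exp_le k0]
    have := Real.exp_one_lt_d9
    linarith
  have hL0 : 0 < Real.log κ := by linarith
  refine ⟨κ, by linarith, ?_, ?_⟩
  · rw [Real.le_log_iff_exp_le (by positivity), le_div_iff₀ l0]
    calc Real.exp R * l ≤ Real.exp R * (2 / (κ - 1)) := by gcongr
      _ ≤ 1 := by
        rw [mul_div_assoc', div_le_one k1]; linarith
      _ ≤ Real.log κ := hL1
  · have hK : Real.log (2 + 2 * (Real.log κ / l)) ≤ (1 + η) * Real.log κ := by
      rw [← Real.log_rpow k0]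
      apply Real.log_le_log (by positivity)
      have hdiv : Real.log κ / l ≤ Real.log κ * (κ + 1) / 2 := by
        rw [div_le_iff₀ l0]
        have := mul_le_mul_of_nonneg_left l2 (show 0 ≤ Real.log κ * (κ + 1) / 2 by positivity)
        have e : Real.log κ * (κ + 1) / 2 * (2 / (κ + 1)) = Real.log κ := by field_simp
        rw [e] at this; exact this
      have e2 : κ ^ (1 + η) = κ * κ ^ η := by rw [Real.rpow_add k0, Real.rpow_one]
      have hη1 : 1 ≤ κ ^ η := Real.one_le_rpow (by linarith) hη.le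
      rw [e2]
      nlinarith [mul_le_mul_of_nonneg_right h1 k3.le]
    have hlow : Real.log κ - 4 ≤ Real.log (Real.log 2 / (2 * l)) := by
      have hx : κ / 16 ≤ Real.log 2 / (2 * l) := by
        rw [le_div_iff₀ (by positivity)]
        have hlog2 := Real.log_two_gt_d9
        have : κ / 16 * (2 * l) ≤ κ / 16 * (2 * (2 / (κ - 1))) := by gcongr
        have e : κ / 16 * (2 * (2 / (κ - 1))) = κ / (4 * (κ - 1)) := by field_simp; ring
        rw [e] at this
        refine this.trans ?_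
        rw [div_le_iff₀ (by positivity)]
        nlinarith
      have h16 : Real.log κ - 4 ≤ Real.log (κ / 16) := by
        rw [Real.log_div k0.ne' (by norm_num)]
        have : Real.log 16 ≤ 4 := by
          rw [Real.log_le_iff_le_exp (by norm_num)]
          have h2e : (2 : ℝ) ≤ Real.exp 1 := by
            have := Real.exp_one_gt_d9; linarith
          calc (16 : ℝ) = 2 ^ 4 := by norm_num
            _ ≤ (Real.exp 1) ^ 4 := by gcongr
            _ = Real.exp 4 := by rw [← Real.exp_nat_mul]; norm_num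
        linarith
      exact h16.trans (Real.log_le_log (by positivity) hx)
    have hη2 : 4 ≤ η ^ 2 * Real.log κ := by
      rw [div_le_iff₀ (by positivity)] at h2; linarith
    rcases le_or_gt 1 η with hη1 | hη1
    · have hKpos : 0 ≤ Real.log (2 + 2 * (Real.log κ / l)) := by
        apply Real.log_nonneg
        have : 0 < Real.log κ / l := by positivity
        linarith
      have hl2 : 0 ≤ Real.log κ - 4 ∨ True := Or.inr trivial
      have : (0 : ℝ) ≤ Real.log (Real.log 2 / (2 * l)) := by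
        apply Real.log_nonneg
        rw [le_div_iff₀ (by positivity)]
        have hlog2 := Real.log_two_gt_d9
        have : 2 * l ≤ 2 * (2 / (κ - 1)) := by gcongr
        have h5 : 2 * (2 / (κ - 1)) ≤ 2 * (2 / 31) := by gcongr; linarith
        linarith
      nlinarith
    · nlinarith [mul_le_mul_of_nonneg_left hK (show 0 ≤ 1 - η by linarith)]

/-! ### The theorem -/

theorem a_mem : a ∈ Simple := ⟨1, one_mem _, rfl⟩

theorem b_mem : b ∈ Simple := by
  refine ⟨twistA⁻¹ * twistB, mul_mem (inv_mem (Subgroup.subset_closure (by simp)))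
    (Subgroup.subset_closure (by simp)), ?_⟩
  have h1 : twistB a = a * b := rfl
  have h2 : (twistA⁻¹ : MulAut F2) (a * b) = a * (a⁻¹ * b) := rfl
  rw [MulAut.mul_apply, h1, h2]; group

theorem le_dL {X Y : F2 →* SL2} {w : F2} (hw : w ∈ Simple) :
    ENNReal.ofReal (Real.log (max (len Y w / len X w) (len X w / len Y w))) ≤ dL X Y := by
  unfold dL
  exact le_iSup₂ (f := fun w (_ : w ∈ Simple) =>
    ENNReal.ofReal (Real.log (max (len Y w / len X w) (len X w / len Y w)))) w hw

theorem collar {Z : F2 →* SL2} (hZ : Z ∈ Teich) :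
    0 < len Z a ∧ 0 < len Z b ∧ (Real.log 2 ≤ len Z a ∨ Real.log 2 ≤ len Z b) := by
  obtain ⟨h1, h2, h3, h4⟩ := hZ
  have h5 : tr (Z (a * b * a⁻¹ * b⁻¹)) = tr (Z a * Z b * (Z a)⁻¹ * (Z b)⁻¹) := by simp
  rw [h5, fricke, ← map_mul] at h4
  set x := tr (Z a)
  set y := tr (Z b)
  set z := tr (Z (a * b))
  have pos : ∀ t : ℝ, 2 < t → 0 < 2 * Real.arcosh (|t| / 2) := by
    intro t ht
    have : 0 < Real.arcosh (|t| / 2) := by
      apply Real.arcosh_pos
      rw [abs_of_pos (by linarith)]; linarith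
    linarith
  have big : ∀ t : ℝ, 8 ≤ t ^ 2 → 0 < t → Real.log 2 ≤ 2 * Real.arcosh (|t| / 2) := by
    intro t ht h0
    have ht2 : √2 ≤ t / 2 := by
      rw [Real.sqrt_le_left (by linarith)]; linarith
    have e : Real.log 2 = 2 * Real.log (√2) := by
      rw [Real.log_sqrt (by norm_num)]; ring
    rw [e, abs_of_pos h0, Real.arcosh]
    have : Real.log (√2) ≤ Real.log (t / 2 + √((t / 2) ^ 2 - 1)) := by
      apply Real.log_le_log (by positivity)
      have := Real.sqrt_nonneg ((t / 2) ^ 2 - 1)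
      linarith
    linarith
  refine ⟨pos x h1, pos y h2, ?_⟩
  have hxy : 16 ≤ (x ^ 2 - 4) * (y ^ 2 - 4) := by nlinarith [sq_nonneg (z - x * y / 2)]
  by_cases hx : 8 ≤ x ^ 2
  · exact Or.inl (big x hx (by linarith))
  · right
    apply big y _ (by linarith)
    push Not at hx
    by_contra hy
    push Not at hy
    have h6 : (x ^ 2 - 4) * (y ^ 2 - 4) < 4 * 4 :=
      mul_lt_mul'' (by linarith) (by linarith) (by nlinarith) (by nlinarith)
    linarith

/-- The length spectrum metric on the Teichmueller space of the once-punctured torus is not a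
length metric, in a strong sense: near-midpoints do not exist, even coarsely. -/
theorem result : ∀ η : ℝ, 0 < η → ∀ R : ℝ, ∃ X ∈ Teich, ∃ Y ∈ Teich,
    ENNReal.ofReal R ≤ dL X Y ∧ dL X Y < ⊤ ∧
      ∀ Z ∈ Teich, ENNReal.ofReal (1 - η) * dL X Y ≤ max (dL X Z) (dL Z Y) := by
  intro η hη R
  obtain ⟨κ, hκ, hR, hlog⟩ := exists_kappa hη R
  obtain ⟨A, B, hA, hB⟩ := exists_rect hκ
  obtain ⟨hX, hY⟩ := rect_mem hκ hA hB
  set X : F2 →* SL2 := FreeGroup.lift ![A, B] with hXdef
  set Y : F2 →* SL2 := FreeGroup.lift ![B, A] with hYdef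
  have k0 : 0 < κ := by linarith
  have k1 : 0 < κ - 1 := by linarith
  have hμ : 1 < (κ + 1) / (κ - 1) := by rw [lt_div_iff₀ k1]; linarith
  set l := Real.log ((κ + 1) / (κ - 1)) with hl
  have l0 : 0 < l := Real.log_pos hμ
  have L0 : 0 < Real.log κ := Real.log_pos (by linarith)
  set K := 2 + 2 * (Real.log κ / l) with hK
  have K1 : 1 < K := by
    have : 0 < Real.log κ / l := by positivity
    linarith
  -- upper bound
  have hub : dL X Y ≤ ENNReal.ofReal (Real.log K) := by
    unfold dL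
    refine iSup₂_le fun w hw => ENNReal.ofReal_le_ofReal ?_
    obtain ⟨q, p, hqp, ⟨x1, x2, x3⟩, ⟨y1, y2, y3⟩⟩ := simple_bounds hκ hA hB hw
    have hqp' : (1 : ℝ) ≤ q + p := by exact_mod_cast hqp
    have q0 : (0 : ℝ) ≤ q := Nat.cast_nonneg q
    have p0 : (0 : ℝ) ≤ p := Nat.cast_nonneg p
    have key : 4 * (q + p) * Real.log κ = 2 * (2 * p * Real.log κ) +
        2 * (Real.log κ / l) * (2 * q * l) := by field_simp; ring
    have key' : 4 * (q + p) * Real.log κ = 2 * (2 * q * Real.log κ) +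
        2 * (Real.log κ / l) * (2 * p * l) := by field_simp; ring
    have hdiv : 0 < Real.log κ / l := by positivity
    have hXpos : 0 < len X w := by
      rcases Nat.eq_zero_or_pos p with h | h
      · have : 1 ≤ (q : ℝ) := by exact_mod_cast (by omega : 1 ≤ q)
        have : 0 < 2 * q * l := by positivity
        linarith
      · have : 1 ≤ (p : ℝ) := by exact_mod_cast h
        have : 0 < 2 * p * Real.log κ := by positivity
        linarith
    have hYpos : 0 < len Y w := by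
      rcases Nat.eq_zero_or_pos p with h | h
      · have : 1 ≤ (q : ℝ) := by exact_mod_cast (by omega : 1 ≤ q)
        have : 0 < 2 * q * Real.log κ := by positivity
        linarith
      · have : 1 ≤ (p : ℝ) := by exact_mod_cast h
        have : 0 < 2 * p * l := by positivity
        linarith
    apply Real.log_le_log
    · exact lt_max_of_lt_left (by positivity)
    · apply max_le
      · rw [div_le_iff₀ hXpos]
        calc len Y w ≤ 4 * (q + p) * Real.log κ := y3
          _ = 2 * (2 * p * Real.log κ) + 2 * (Real.log κ / l) * (2 * q * l) := key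
          _ ≤ 2 * len X w + 2 * (Real.log κ / l) * len X w := by gcongr
          _ = K * len X w := by rw [hK]; ring
      · rw [div_le_iff₀ hYpos]
        calc len X w ≤ 4 * (q + p) * Real.log κ := x3
          _ = 2 * (2 * q * Real.log κ) + 2 * (Real.log κ / l) * (2 * p * l) := key'
          _ ≤ 2 * len Y w + 2 * (Real.log κ / l) * len Y w := by gcongr
          _ = K * len Y w := by rw [hK]; ring
  -- the lengths of `a` and `b`
  have tA : tr A = (κ + 1) / (κ - 1) + ((κ + 1) / (κ - 1))⁻¹ := by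
    rw [tr, hA, trace_mA, inv_div]
    have h3 : κ ^ 2 - 1 = (κ - 1) * (κ + 1) := by ring
    rw [h3]; field_simp; ring
  have tB : tr B = κ + κ⁻¹ := by rw [tr, hB, trace_mB]
  have lenOf : ∀ x : ℝ, 1 < x → 2 * Real.arcosh (|x + x⁻¹| / 2) = 2 * Real.log x := by
    intro x hx
    have hx0 : 0 < x := by linarith
    rw [abs_of_pos (by positivity), ← Real.cosh_log hx0, Real.arcosh_cosh (Real.log_pos hx).le]
  have lXa : len X a = 2 * l := by
    have : X a = A := by simp [hXdef, a]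
    rw [len, this, tA, lenOf _ hμ]
  have lYa : len Y a = 2 * Real.log κ := by
    have : Y a = B := by simp [hYdef, a]
    rw [len, this, tB, lenOf _ (by linarith)]
  have lYb : len Y b = 2 * l := by
    have : Y b = A := by simp [hYdef, b]
    rw [len, this, tA, lenOf _ hμ]
  refine ⟨X, hX, Y, hY, ?_, lt_of_le_of_lt hub ENNReal.ofReal_lt_top, ?_⟩
  · refine le_trans (ENNReal.ofReal_le_ofReal ?_) (le_dL a_mem)
    refine hR.trans (Real.log_le_log (by positivity) ?_)
    refine le_max_of_le_left ?_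
    rw [lXa, lYa, mul_div_mul_left _ _ (by norm_num)]
  · intro Z hZ
    obtain ⟨za, zb, hz⟩ := collar hZ
    set E := max (dL X Z) (dL Z Y) with hE
    have hlow : ENNReal.ofReal (Real.log (Real.log 2 / (2 * l))) ≤ E := by
      rcases hz with hz | hz
      · refine le_trans ?_ ((le_dL a_mem).trans (le_max_left _ _))
        apply ENNReal.ofReal_le_ofReal
        apply Real.log_le_log (by positivity)
        refine le_max_of_le_left ?_
        rw [lXa]; gcongr
      · refine le_trans ?_ ((le_dL b_mem).trans (le_max_right _ _))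
        apply ENNReal.ofReal_le_ofReal
        apply Real.log_le_log (by positivity)
        refine le_max_of_le_right ?_
        rw [lYb]; gcongr
    refine le_trans ?_ hlow
    rcases le_or_gt η 1 with h1 | h1
    · calc ENNReal.ofReal (1 - η) * dL X Y
          ≤ ENNReal.ofReal (1 - η) * ENNReal.ofReal (Real.log K) := by gcongr
        _ = ENNReal.ofReal ((1 - η) * Real.log K) := (ENNReal.ofReal_mul (by linarith)).symm
        _ ≤ _ := ENNReal.ofReal_le_ofReal hlog
    · rw [ENNReal.ofReal_of_nonpos (by linarith), zero_mul]; exact bot_le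

end Pool.Agent.Results.MP_731498_gt.NotLengthMetric
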